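import Mathlib

/-!
# MP_4b02fd_al, topological form: spreading finitely supported functions
-/

set_option autoImplicit false

noncomputable section

namespace Pool.Agent.Lib.MP_4b02fd_al

/-- Translation of finitely supported functions. -/
def sh (v : ℤ × ℤ) (p : (ℤ × ℤ) →₀ ℤ) : (ℤ × ℤ) →₀ ℤ := Finsupp.equivMapDomain (Equiv.addRight v) p

theorem sh_apply (v : ℤ × ℤ) (p : (ℤ × ℤ) →₀ ℤ) (x : ℤ × ℤ) : sh v p x = p (x - v) := by
  rw [sh, Finsupp.equivMapDomain_apply, Equiv.addRight_symm_apply, sub_eq_add_neg]

/-- Moving the mass of `p` along the direction `v` makes all values at most one in absolute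
value. -/
theorem spread (v : ℤ × ℤ) (hv : v ≠ 0) (p : (ℤ × ℤ) →₀ ℤ) :
    ∃ r : (ℤ × ℤ) →₀ ℤ, ∀ x, |(p + r - sh v r) x| ≤ 1 := by
  have hmem : p ∈ AddSubmonoid.closure {q : (ℤ × ℤ) →₀ ℤ | ∃ u, ∃ e : ℤ, |e| = 1 ∧
      q = Finsupp.single u e} := by
    induction p using Finsupp.induction_linear with
    | zero => exact AddSubmonoid.zero_mem _
    | add p q hp hq => exact AddSubmonoid.add_mem _ hp hq
    | single u n =>
      rcases le_total 0 n with h | h
      · obtain ⟨k, rfl⟩ := Int.eq_ofNat_of_zero_le h
        have h2 : Finsupp.single u ((k : ℕ) : ℤ) = k • Finsupp.single u (1 : ℤ) := by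
          rw [Finsupp.smul_single]; simp
        rw [h2]
        refine AddSubmonoid.nsmul_mem _ (AddSubmonoid.subset_closure ?_) k
        exact ⟨u, 1, by simp, rfl⟩
      · obtain ⟨k, hk⟩ := Int.eq_ofNat_of_zero_le (neg_nonneg.mpr h)
        have h2 : Finsupp.single u n = k • Finsupp.single u (-1 : ℤ) := by
          have hn : n = -(k : ℤ) := by
            have : -n = (k : ℤ) := hk
            omega
          rw [Finsupp.smul_single, hn]; simp
        rw [h2]
        refine AddSubmonoid.nsmul_mem _ (AddSubmonoid.subset_closure ?_) k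
        exact ⟨u, -1, by simp, rfl⟩
  induction hmem using AddSubmonoid.closure_induction_left with
  | zero => exact ⟨0, fun x => by simp [sh_apply]⟩
  | add_left q hq p hp ih =>
    obtain ⟨u, e, he, rfl⟩ := hq
    obtain ⟨r, hr⟩ := ih
    -- find a free spot
    have hfin : ∃ k : ℕ, (p + r - sh v r) (u + k • v) = 0 := by
      by_contra hcon
      push Not at hcon
      have hinj : Function.Injective (fun k : ℕ => u + k • v) := by
        intro k l hkl
        have h1 : (k : ℕ) • v = l • v := add_left_cancel hkl
        have h2 : (k : ℤ) • v = (l : ℤ) • v := by simpa using h1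
        have h3 : ((k : ℤ) - l) • v = 0 := by rw [sub_smul, h2, sub_self]
        rcases smul_eq_zero.mp h3 with h4 | h4
        · omega
        · exact absurd h4 hv
      have hsub : Set.range (fun k : ℕ => u + k • v) ⊆ ((p + r - sh v r).support : Set (ℤ × ℤ)) := by
        rintro _ ⟨k, rfl⟩
        rw [Finset.mem_coe, Finsupp.mem_support_iff]
        exact hcon k
      exact Set.infinite_range_of_injective hinj ((Finset.finite_toSet _).subset hsub)
    obtain ⟨k, hk⟩ := hfin
    -- telescoping
    have htel : ∀ k : ℕ, ∃ t : (ℤ × ℤ) →₀ ℤ, Finsupp.single u e + t - sh v t =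
        Finsupp.single (u + k • v) e := by
      intro k
      induction k with
      | zero => exact ⟨0, by ext x; simp [sh_apply]⟩
      | succ k ih =>
        obtain ⟨t, ht⟩ := ih
        refine ⟨t - Finsupp.single (u + k • v) e, ?_⟩
        have h1 : sh v (t - Finsupp.single (u + k • v) e) =
            sh v t - Finsupp.single (u + (k + 1) • v) e := by
          ext x
          rw [Finsupp.sub_apply, sh_apply, sh_apply, Finsupp.sub_apply, Finsupp.single_apply,
            Finsupp.single_apply]
          have : (u + k • v = x - v) ↔ (u + (k + 1) • v = x) := by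
            rw [eq_sub_iff_add_eq, add_smul, one_smul, add_assoc]
          simp only [this]
        rw [h1]
        have h2 : Finsupp.single u e + (t - Finsupp.single (u + k • v) e) -
            (sh v t - Finsupp.single (u + (k + 1) • v) e) =
            (Finsupp.single u e + t - sh v t) - Finsupp.single (u + k • v) e +
              Finsupp.single (u + (k + 1) • v) e := by abel
        rw [h2, ht, sub_self, zero_add]
    obtain ⟨t, ht⟩ := htel k
    refine ⟨r + t, fun x => ?_⟩
    have h1 : Finsupp.single u e + p + (r + t) - sh v (r + t) =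
        (p + r - sh v r) + Finsupp.single (u + k • v) e := by
      rw [← ht]
      ext x
      simp only [Finsupp.sub_apply, Finsupp.add_apply, sh_apply]
      ring
    rw [h1, Finsupp.add_apply, Finsupp.single_apply]
    split_ifs with hx
    · rw [← hx, hk, zero_add, he]
    · rw [add_zero]
      exact hr x

end Pool.Agent.Lib.MP_4b02fd_al
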