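import Pool.Agent.Lib.MP_4b02fd_al.QAlg
import Pool.Agent.Lib.MP_4b02fd_al.Spread

/-!
# MP_4b02fd_al, topological form: data of a group mapping to `Q`
-/

set_option autoImplicit false

open Topology unitInterval Set

noncomputable section

namespace Pool.Agent.Lib.MP_4b02fd_al

/-- Data of a group mapping to `Q`. -/
structure GoodMap {G : Type} [Group G] (ρ : G →* Q) : Prop where
  decay : ∀ g, {x | 1 / 2 ≤ |(ρ g).f x|}.Finite
  puncture : ∃ y : G, ∃ u, (ρ y).v = 0 ∧ (ρ y).f = Pi.single u 1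
  surj : ∀ w : ℤ × ℤ, ∃ t : G, (ρ t).v = w

/-- The generating set. -/
def SS {G : Type} [Group G] (ρ : G →* Q) : Set G := {g | Q.Bdd (3 / 2) (ρ g)}

theorem conj_single {G : Type} [Group G] {ρ : G →* Q} (h : GoodMap ρ) (w : ℤ × ℤ) :
    ∃ y ∈ SS ρ, (ρ y).v = 0 ∧ (ρ y).f = Pi.single w 1 := by
  obtain ⟨y, u, hv, hf⟩ := h.puncture
  obtain ⟨t, ht⟩ := h.surj (u - w)
  have h1 : (ρ (t * y * t⁻¹)).v = 0 := by
    rw [map_mul, map_mul, map_inv, Q.mul_v, Q.mul_v, Q.inv_v, hv]
    simp
  have h2 : (ρ (t * y * t⁻¹)).f = Pi.single w 1 := by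
    funext x
    rw [map_mul, map_mul, map_inv, Q.mul_f, Q.mul_f, Q.inv_f, Q.inv_v, hv, hf, ht, sub_zero,
      sub_neg_eq_add]
    have h3 : (Pi.single u (1 : ℝ) : ℤ × ℤ → ℝ) (x + (u - w)) =
        (Pi.single w (1 : ℝ) : ℤ × ℤ → ℝ) x := by
      rw [Pi.single_apply, Pi.single_apply]
      have : x + (u - w) = u ↔ x = w := by
        constructor
        · intro h4
          calc x = x + (u - w) - (u - w) := (add_sub_cancel_right _ _).symm
            _ = u - (u - w) := by rw [h4]
            _ = w := by abel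
        · rintro rfl
          abel
      simp only [this]
    rw [h3]
    ring
  refine ⟨t * y * t⁻¹, ?_, h1, h2⟩
  intro x
  rw [h2, Pi.single_apply]
  split_ifs <;> norm_num

theorem exists_finsupp {G : Type} [Group G] {ρ : G →* Q} (h : GoodMap ρ) (r : (ℤ × ℤ) →₀ ℤ) :
    ∃ y ∈ Subgroup.closure (SS ρ), (ρ y).v = 0 ∧ ∀ x, (ρ y).f x = r x := by
  let R : AddSubgroup ((ℤ × ℤ) →₀ ℤ) :=
    { carrier := {r | ∃ y ∈ Subgroup.closure (SS ρ), (ρ y).v = 0 ∧ ∀ x, (ρ y).f x = r x}
      zero_mem' := ⟨1, Subgroup.one_mem _, by rw [map_one]; rfl, fun x => by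
        rw [map_one, Q.one_f]; simp⟩
      add_mem' := by
        rintro p r ⟨y, hy, hyv, hyf⟩ ⟨z, hz, hzv, hzf⟩
        refine ⟨y * z, Subgroup.mul_mem _ hy hz, ?_, fun x => ?_⟩
        · rw [map_mul, Q.mul_v, hyv, hzv, add_zero]
        · rw [map_mul, Q.mul_f, hzv, sub_zero, hyf, hzf, Finsupp.add_apply]
          push_cast
          ring
      neg_mem' := by
        rintro p ⟨y, hy, hyv, hyf⟩
        refine ⟨y⁻¹, Subgroup.inv_mem _ hy, ?_, fun x => ?_⟩
        · rw [map_inv, Q.inv_v, hyv, neg_zero]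
        · rw [map_inv, Q.inv_f, hyv, add_zero, hyf, Finsupp.neg_apply]
          push_cast
          ring }
  have hR : r ∈ R := by
    induction r using Finsupp.induction_linear with
    | zero => exact R.zero_mem
    | add p q hp hq => exact R.add_mem hp hq
    | single u n =>
      have h1 : Finsupp.single u n = n • Finsupp.single u (1 : ℤ) := by
        rw [Finsupp.smul_single, smul_eq_mul, mul_one]
      rw [h1]
      refine R.zsmul_mem ?_ n
      obtain ⟨y, hy, hyv, hyf⟩ := conj_single h u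
      refine ⟨y, Subgroup.subset_closure hy, hyv, fun x => ?_⟩
      rw [hyf, Pi.single_apply, Finsupp.single_apply]
      by_cases hx : x = u
      · rw [if_pos hx, if_pos hx.symm]
        simp
      · rw [if_neg hx, if_neg (Ne.symm hx)]
        simp
  exact hR

end Pool.Agent.Lib.MP_4b02fd_al
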