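import Pool.Agent.Lib.MP_4b02fd_al.Alg

/-!
# MP_4b02fd_al, topological form: the generating set
-/

set_option autoImplicit false

open Topology unitInterval Set

noncomputable section

namespace Pool.Agent.Lib.MP_4b02fd_al

theorem exists_conj {G : Type} [Group G] {ρ : G →* Q} (h : GoodMap ρ) {g : G}
    (hg : (ρ g).v ≠ 0) : ∃ y ∈ Subgroup.closure (SS ρ), y * g * y⁻¹ ∈ SS ρ := by
  have hfin : (Function.support fun x => round ((ρ g).f x)).Finite := by
    refine (h.decay g).subset ?_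
    intro x hx
    rw [Function.mem_support] at hx
    by_contra hcon
    apply hx
    have h1 : |(ρ g).f x| < 1 / 2 := not_le.mp hcon
    rw [abs_lt] at h1
    rw [round_eq_zero_iff]
    exact ⟨by linarith, by linarith⟩
  let p0 : (ℤ × ℤ) →₀ ℤ := Finsupp.ofSupportFinite (fun x => round ((ρ g).f x)) hfin
  have hp0 : ∀ x, p0 x = round ((ρ g).f x) := fun x => rfl
  obtain ⟨r, hr⟩ := spread (ρ g).v hg p0
  obtain ⟨y, hy, hyv, hyf⟩ := exists_finsupp h (-r)
  refine ⟨y, hy, ?_⟩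
  intro x
  have h1 : (ρ (y * g * y⁻¹)).f x = (ρ g).f x + r x - r (x - (ρ g).v) := by
    rw [map_mul, map_mul, map_inv, Q.mul_f, Q.mul_f, Q.inv_f, Q.inv_v, hyv, neg_zero, sub_zero,
      add_zero, hyf, hyf, Finsupp.neg_apply, Finsupp.neg_apply]
    push_cast
    ring
  have h2 : |(p0 x : ℝ) + r x - r (x - (ρ g).v)| ≤ 1 := by
    have h3 := hr x
    rw [Finsupp.sub_apply, Finsupp.add_apply, sh_apply] at h3
    exact_mod_cast h3
  have h4 : |(ρ g).f x - p0 x| ≤ 1 / 2 := by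
    rw [hp0]
    exact abs_sub_round _
  rw [h1]
  have h5 : (ρ g).f x + r x - r (x - (ρ g).v) =
      ((ρ g).f x - p0 x) + ((p0 x : ℝ) + r x - r (x - (ρ g).v)) := by ring
  rw [h5]
  refine (abs_add_le _ _).trans ?_
  linarith

theorem closure_SS {G : Type} [Group G] {ρ : G →* Q} (h : GoodMap ρ) :
    Subgroup.closure (SS ρ) = ⊤ := by
  have key : ∀ g : G, (ρ g).v ≠ 0 → g ∈ Subgroup.closure (SS ρ) := by
    intro g hg
    obtain ⟨y, hy, hyg⟩ := exists_conj h hg
    have h1 : g = y⁻¹ * (y * g * y⁻¹) * y := by group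
    rw [h1]
    exact Subgroup.mul_mem _ (Subgroup.mul_mem _ (Subgroup.inv_mem _ hy)
      (Subgroup.subset_closure hyg)) hy
  rw [eq_top_iff]
  intro g _
  by_cases hg : (ρ g).v = 0
  · obtain ⟨t, ht⟩ := h.surj (1, 0)
    have hne : ((1, 0) : ℤ × ℤ) ≠ 0 := by decide
    have h1 : g = (g * t) * t⁻¹ := by group
    rw [h1]
    refine Subgroup.mul_mem _ (key _ ?_) (Subgroup.inv_mem _ (key _ ?_))
    · rw [map_mul, Q.mul_v, hg, ht, zero_add]
      exact hne
    · rw [ht]
      exact hne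
  · exact key g hg

end Pool.Agent.Lib.MP_4b02fd_al
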