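import Pool.Agent.Lib.MP_4b02fd_al.Alg

/-!
# MP_4b02fd_al, topological form: infinite diameter
-/

set_option autoImplicit false

open Topology unitInterval Set

noncomputable section

namespace Pool.Agent.Lib.MP_4b02fd_al

private theorem ad_eq {G : Type} [Group G] (ρ : G →* Q) {n : ℕ} (hn : 2 ≤ n) (x y : G)
    (h : QuotientGroup.mk' (derivedSeries G n) x = QuotientGroup.mk' (derivedSeries G n) y) :
    ρ x = ρ y := by
  have h1 : x⁻¹ * y ∈ derivedSeries G n := QuotientGroup.eq.mp h
  have h2 : ρ (x⁻¹ * y) ∈ derivedSeries Q n :=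
    map_derivedSeries_le_derivedSeries ρ n (Subgroup.mem_map_of_mem ρ h1)
  have h3 : derivedSeries Q n ≤ derivedSeries Q 2 := derivedSeries_antitone Q hn
  have h4 := h3 h2
  rw [Q.derived_two, Subgroup.mem_bot, map_mul, map_inv, inv_mul_eq_one] at h4
  exact h4

private theorem ad_lift {G : Type} [Group G] (ρ : G →* Q) (n : ℕ)
    (l : List (G ⧸ derivedSeries G n))
    (h : ∀ x ∈ l, x ∈ (QuotientGroup.mk' (derivedSeries G n)) '' SS ρ ∨
      x⁻¹ ∈ (QuotientGroup.mk' (derivedSeries G n)) '' SS ρ) :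
    ∃ m : List G, m.length = l.length ∧ (∀ x ∈ m, Q.Bdd (3 / 2) (ρ x)) ∧
      QuotientGroup.mk' (derivedSeries G n) m.prod = l.prod := by
  induction l with
  | nil => exact ⟨[], rfl, by simp, rfl⟩
  | cons x l ih =>
    obtain ⟨m, hm1, hm2, hm3⟩ := ih (fun y hy => h y (List.mem_cons_of_mem _ hy))
    rcases h x List.mem_cons_self with ⟨s, hs, hsx⟩ | ⟨s, hs, hsx⟩
    · refine ⟨s :: m, by rw [List.length_cons, List.length_cons, hm1], ?_, ?_⟩
      · intro y hy
        rcases List.mem_cons.mp hy with rfl | hy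
        · exact hs
        · exact hm2 y hy
      · rw [List.prod_cons, List.prod_cons, map_mul, hm3, hsx]
    · refine ⟨s⁻¹ :: m, by rw [List.length_cons, List.length_cons, hm1], ?_, ?_⟩
      · intro y hy
        rcases List.mem_cons.mp hy with rfl | hy
        · rw [map_inv]
          exact Q.bdd_inv hs
        · exact hm2 y hy
      · rw [List.prod_cons, List.prod_cons, map_mul, hm3, map_inv, hsx, inv_inv]

theorem diameter_SS {G : Type} [Group G] {ρ : G →* Q} (h : GoodMap ρ) {n : ℕ} (hn : 2 ≤ n) :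
    diameter ((QuotientGroup.mk' (derivedSeries G n)) '' SS ρ) = ⊤ := by
  have key : ∀ N : ℕ, ∃ g : G ⧸ derivedSeries G n, (N : ℕ∞) ≤
      wordLength ((QuotientGroup.mk' (derivedSeries G n)) '' SS ρ) g := by
    intro N
    obtain ⟨y, -, hyv, hyf⟩ := exists_finsupp h (Finsupp.single 0 (2 * N : ℤ))
    refine ⟨QuotientGroup.mk' (derivedSeries G n) y, ?_⟩
    refine le_sInf ?_
    rintro _ ⟨l, hl, hprod, rfl⟩
    obtain ⟨m, hm1, hm2, hm3⟩ := ad_lift ρ n l hl
    have h1 : ρ m.prod = ρ y := ad_eq ρ hn _ _ (hm3.trans hprod)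
    have h2 : Q.Bdd ((3 / 2) * (m.map ρ).length) (ρ m.prod) := by
      rw [map_list_prod]
      refine Q.bdd_list _ ?_
      intro x hx
      obtain ⟨z, hz, rfl⟩ := List.mem_map.mp hx
      exact hm2 z hz
    rw [h1] at h2
    have h3 := h2 0
    rw [hyf, Finsupp.single_eq_same, List.length_map, hm1] at h3
    push_cast at h3
    rw [abs_of_nonneg (by positivity)] at h3
    have h4 : (4 * N : ℝ) ≤ 3 * l.length := by linarith
    have h5 : 4 * N ≤ 3 * l.length := by exact_mod_cast h4
    have h6 : N ≤ l.length := by omega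
    exact_mod_cast h6
  rw [ENat.eq_top_iff_forall_ge]
  intro m
  obtain ⟨g, hg⟩ := key m
  exact hg.trans (le_iSup (fun g => wordLength _ g) g)

end Pool.Agent.Lib.MP_4b02fd_al
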