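import Pool.Agent.Lib.MP_4b02fd_al.Defs

/-!
# MP_4b02fd_al, topological form: sub-arcs and vertical segments
-/

set_option autoImplicit false

open Topology unitInterval Set

noncomputable section

namespace Pool.Agent.Lib.MP_4b02fd_al

theorem joined_arc {p : C(I, ℂ)} (hp : Function.Injective p) (h0 : p 0 = -1) (h1 : p 1 = 1)
    {z w : ℂ} (hz : z ∈ range p) (hw : w ∈ range p) (hz1 : z ≠ 1) (hz2 : z ≠ -1) (hw1 : w ≠ 1)
    (hw2 : w ≠ -1) : JoinedIn (range p \ {1, -1}) z w := by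
  obtain ⟨s, rfl⟩ := hz
  obtain ⟨t, rfl⟩ := hw
  have key : ∀ s : I, p s ≠ 1 → p s ≠ -1 → (s : ℝ) ∈ Ioo (0 : ℝ) 1 := by
    intro s hs1 hs2
    have a0 : s ≠ 0 := fun h => hs2 (by rw [h, h0])
    have a1 : s ≠ 1 := fun h => hs1 (by rw [h, h1])
    exact ⟨lt_of_le_of_ne s.2.1 (fun h => a0 (Subtype.ext h.symm)),
      lt_of_le_of_ne s.2.2 (fun h => a1 (Subtype.ext h))⟩
  have hs := key s hz1 hz2
  have ht := key t hw1 hw2
  have hj : JoinedIn (Ioo (0 : ℝ) 1) s t :=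
    ((convex_Ioo (0 : ℝ) 1).isPathConnected ⟨s, hs⟩).joinedIn _ hs _ ht
  have hf : Continuous fun x : ℝ => p (projIcc 0 1 zero_le_one x) := by
    exact p.continuous.comp continuous_projIcc
  have hm := hj.map hf
  simp only [projIcc_val] at hm
  refine hm.mono ?_
  rintro _ ⟨x, hx, rfl⟩
  refine ⟨⟨_, rfl⟩, ?_⟩
  have hx' : projIcc (0 : ℝ) 1 zero_le_one x = ⟨x, hx.1.le, hx.2.le⟩ :=
    projIcc_of_mem zero_le_one ⟨hx.1.le, hx.2.le⟩
  simp only [mem_insert_iff, mem_singleton_iff, not_or]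
  constructor
  · intro h2
    rw [← h1] at h2
    have h3 := hp h2
    rw [hx'] at h3
    have h4 := congrArg Subtype.val h3
    simp only [Icc.coe_one] at h4
    linarith [hx.2]
  · intro h2
    rw [← h0] at h2
    have h3 := hp h2
    rw [hx'] at h3
    have h4 := congrArg Subtype.val h3
    simp only [Icc.coe_zero] at h4
    linarith [hx.1]

/-- Highest and lowest point of an arc on a vertical segment. -/
theorem exists_top_bot {p : C(I, ℂ)} {a b : ℝ}
    (hne : ∃ z ∈ range p, z.re = 0 ∧ a ≤ z.im ∧ z.im ≤ b) :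
    (∃ z ∈ range p, z.re = 0 ∧ a ≤ z.im ∧ z.im ≤ b ∧
      ∀ w ∈ range p, w.re = 0 → a ≤ w.im → w.im ≤ b → w.im ≤ z.im) ∧
    (∃ z ∈ range p, z.re = 0 ∧ a ≤ z.im ∧ z.im ≤ b ∧
      ∀ w ∈ range p, w.re = 0 → a ≤ w.im → w.im ≤ b → z.im ≤ w.im) := by
  set K : Set ℂ := range p ∩ {z | z.re = 0 ∧ a ≤ z.im ∧ z.im ≤ b} with hK
  have hKc : IsCompact K := by
    apply (isCompact_range p.continuous).inter_right
    apply IsClosed.inter
    · exact isClosed_eq Complex.continuous_re continuous_const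
    · apply IsClosed.inter
      · exact isClosed_le continuous_const Complex.continuous_im
      · exact isClosed_le Complex.continuous_im continuous_const
  have hKne : K.Nonempty := by
    obtain ⟨z, hz, h⟩ := hne
    exact ⟨z, hz, h⟩
  constructor
  · obtain ⟨z, hz, hmax⟩ := hKc.exists_isMaxOn hKne Complex.continuous_im.continuousOn
    exact ⟨z, hz.1, hz.2.1, hz.2.2.1, hz.2.2.2, fun w hw h1 h2 h3 => hmax ⟨hw, h1, h2, h3⟩⟩
  · obtain ⟨z, hz, hmin⟩ := hKc.exists_isMinOn hKne Complex.continuous_im.continuousOn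
    exact ⟨z, hz.1, hz.2.1, hz.2.2.1, hz.2.2.2, fun w hw h1 h2 h3 => hmin ⟨hw, h1, h2, h3⟩⟩

theorem joined_vert {a b : ℝ} {S : Set ℂ} (h : ∀ y : ℝ, y ∈ uIcc a b → (⟨0, y⟩ : ℂ) ∈ S) :
    JoinedIn S ⟨0, a⟩ ⟨0, b⟩ := by
  have hj : JoinedIn (uIcc a b) a b :=
    ((convex_uIcc a b).isPathConnected ⟨a, left_mem_uIcc⟩).joinedIn _ left_mem_uIcc _
      right_mem_uIcc
  have hf : Continuous fun y : ℝ => (⟨0, y⟩ : ℂ) := by
    have : (fun y : ℝ => (⟨0, y⟩ : ℂ)) = fun y : ℝ => (y : ℂ) * Complex.I := by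
      funext y
      apply Complex.ext <;> simp
    rw [this]
    fun_prop
  refine (hj.map hf).mono ?_
  rintro _ ⟨y, hy, rfl⟩
  exact h y hy

end Pool.Agent.Lib.MP_4b02fd_al
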