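import Mathlib

/-!
# MP_4b02fd_al, topological form: instances for the unit interval
-/

set_option autoImplicit false

open Topology unitInterval Set

noncomputable section

namespace Pool.Agent.Lib.MP_4b02fd_al

instance contractible_I : ContractibleSpace I :=
  (convex_Icc (0 : ℝ) 1).contractibleSpace ⟨0, by simp⟩

instance locallyPathConnected_I : LocallyPathConnectedSpace I := by
  have h : IsQuotientMap (projIcc (0 : ℝ) 1 zero_le_one) := isQuotientMap_projIcc
  exact h.locallyPathConnectedSpace

instance simplyConnected_I : SimplyConnectedSpace I := inferInstance

instance simplyConnected_II : SimplyConnectedSpace (I × I) := inferInstance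

instance locallyPathConnected_II : LocallyPathConnectedSpace (I × I) := inferInstance

end Pool.Agent.Lib.MP_4b02fd_al
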