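import Pool.Agent.Lib.MP_4b02fd_al.Defs
import Pool.Agent.Lib.MP_4b02fd_al.Inst

/-!
# MP_4b02fd_al, topological form: continuous arguments
-/

set_option autoImplicit false

open Topology unitInterval Set

noncomputable section

namespace Pool.Agent.Lib.MP_4b02fd_al

/-- A nowhere zero continuous function on a simply connected space has a continuous argument. -/
theorem exists_arg {X : Type} [TopologicalSpace X] [SimplyConnectedSpace X]
    [LocallyPathConnectedSpace X] (F : C(X, ℂ)) (hF : ∀ x, F x ≠ 0) :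
    ∃ φ : C(X, ℝ), ∀ x, F x = ‖F x‖ * Complex.exp (φ x * Complex.I) := by
  obtain ⟨x₀⟩ : Nonempty X := inferInstance
  obtain ⟨G, ⟨-, hG⟩, -⟩ := Complex.isCoveringMapOn_exp.existsUnique_continuousMap_lifts
    F (a₀ := x₀) (Complex.exp_log (hF x₀)) (fun x => hF x)
  refine ⟨⟨fun x => (G x).im, Complex.continuous_im.comp G.continuous⟩, fun x => ?_⟩
  have h1 : Complex.exp (G x) = F x := congrFun hG x
  show F x = ‖F x‖ * Complex.exp ((G x).im * Complex.I)
  rw [← h1, Complex.norm_exp, Complex.ofReal_exp, ← Complex.exp_add, Complex.re_add_im]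

private theorem Arg_exp_eq {a b : ℝ}
    (h : Complex.exp (a * Complex.I) = Complex.exp (b * Complex.I)) :
    ∃ n : ℤ, a - b = n * (2 * Real.pi) := by
  obtain ⟨n, hn⟩ := Complex.exp_eq_exp_iff_exists_int.mp h
  refine ⟨n, ?_⟩
  have h2 := congrArg Complex.im hn
  simp at h2
  linarith

theorem arg_unique {X : Type} [TopologicalSpace X] [PreconnectedSpace X] {F : X → ℂ}
    {φ ψ : X → ℝ} (hφ : Continuous φ) (hψ : Continuous ψ) (hF : ∀ x, F x ≠ 0)
    (h : ∀ x, F x = ‖F x‖ * Complex.exp (φ x * Complex.I))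
    (h' : ∀ x, F x = ‖F x‖ * Complex.exp (ψ x * Complex.I)) (x y : X) :
    φ x - ψ x = φ y - ψ y := by
  have hint : ∀ z, ∃ n : ℤ, φ z - ψ z = n * (2 * Real.pi) := by
    intro z
    apply Arg_exp_eq
    have h1 : (‖F z‖ : ℂ) ≠ 0 := by
      exact_mod_cast (norm_pos_iff.mpr (hF z)).ne'
    exact mul_left_cancel₀ h1 ((h z).symm.trans (h' z))
  have hc : Continuous fun z => φ z - ψ z := hφ.sub hψ
  have key : ∀ x y, φ x - ψ x < φ y - ψ y → False := by
    intro x y hlt
    obtain ⟨m, hm⟩ := hint x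
    obtain ⟨n, hn⟩ := hint y
    have hpi := Real.pi_pos
    have hmn : m < n := by
      rw [hm, hn] at hlt
      have := lt_of_mul_lt_mul_right hlt (by positivity)
      exact_mod_cast this
    have hmn' : (m : ℝ) + 1 ≤ n := by exact_mod_cast hmn
    obtain ⟨z, hz⟩ := mem_range_of_exists_le_of_exists_ge hc
      (c := ((m : ℝ) + 1 / 2) * (2 * Real.pi))
      ⟨x, by show φ x - ψ x ≤ _; rw [hm]; nlinarith⟩
      ⟨y, by show _ ≤ φ y - ψ y; rw [hn]; nlinarith⟩
    obtain ⟨k, hk⟩ := hint z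
    have hz' : φ z - ψ z = ((m : ℝ) + 1 / 2) * (2 * Real.pi) := hz
    rw [hk] at hz'
    have h3 : (k : ℝ) = (m : ℝ) + 1 / 2 := mul_right_cancel₀ (by positivity) hz'
    have h4 : ((2 * k : ℤ) : ℝ) = ((2 * m + 1 : ℤ) : ℝ) := by push_cast; linarith
    have h5 : 2 * k = 2 * m + 1 := by exact_mod_cast h4
    omega
  rcases lt_trichotomy (φ x - ψ x) (φ y - ψ y) with h1 | h1 | h1
  · exact (key x y h1).elim
  · exact h1
  · exact (key y x h1).elim

theorem exists_turns {c : I → ℂ} (hc : Continuous c) {u : ℂ} (hu : ∀ t, c t ≠ u) :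
    ∃ r, Turns c u r := by
  obtain ⟨φ, hφ⟩ := exists_arg (X := I) ⟨fun t => c t - u, hc.sub continuous_const⟩
    (fun t => sub_ne_zero.mpr (hu t))
  refine ⟨(φ 1 - φ 0) / (2 * Real.pi), φ, φ.continuous, hφ, ?_⟩
  have := Real.pi_pos
  field_simp

theorem turns_unique {c : I → ℂ} {u : ℂ} (hu : ∀ t, c t ≠ u) {r r' : ℝ}
    (h : Turns c u r) (h' : Turns c u r') : r = r' := by
  obtain ⟨φ, hφ, h1, h2⟩ := h
  obtain ⟨ψ, hψ, h3, h4⟩ := h'
  have h5 := arg_unique (F := fun t => c t - u) hφ hψ (fun t => sub_ne_zero.mpr (hu t)) h1 h3 1 0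
  have h6 : 2 * Real.pi * r = 2 * Real.pi * r' := by rw [← h2, ← h4]; linarith
  exact mul_left_cancel₀ (by positivity) h6

end Pool.Agent.Lib.MP_4b02fd_al
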