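import Pool.Agent.Lib.MP_4b02fd_al.Defs

/-!
# MP_4b02fd_al, topological form: moving along the boundary of the rectangle
-/

set_option autoImplicit false

open Topology unitInterval Set

noncomputable section

namespace Pool.Agent.Lib.MP_4b02fd_al

private theorem Bound_ne {z : ℂ} (h : z.im ≠ 0) : z ∉ ({1, -1} : Set ℂ) := by
  intro hz
  rcases hz with hz | hz
  · exact h (by rw [hz]; simp)
  · rw [mem_singleton_iff] at hz
    exact h (by rw [hz]; simp)

private theorem Bound_aux {w : ℂ} (hw : w ∈ Bd) {sg : ℝ} (hsg : sg = 1 ∨ sg = -1)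
    (him : 0 < sg * w.im) : JoinedIn (Bd \ {1, -1}) w ⟨0, 2 * sg⟩ := by
  obtain ⟨⟨hre, hi2⟩, hor⟩ := hw
  have hsg2 : sg * sg = 1 := by rcases hsg with h | h <;> rw [h] <;> norm_num
  have habs : |sg| = 1 := by rcases hsg with h | h <;> rw [h] <;> norm_num
  have hsgw : |w.im| = sg * w.im := by
    rw [← abs_of_pos him, abs_mul, habs, one_mul]
  have h1 : JoinedIn (Bd \ {1, -1}) w ⟨w.re, 2 * sg⟩ := by
    apply JoinedIn.of_segment_subset
    rintro z ⟨a, b, ha, hb, hab, rfl⟩
    have e1 : (a • w + b • (⟨w.re, 2 * sg⟩ : ℂ)).re = w.re := by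
      simp only [Complex.add_re, Complex.real_smul, Complex.mul_re, Complex.ofReal_re,
        Complex.ofReal_im, zero_mul, sub_zero]
      rw [← add_mul, hab, one_mul]
    have e2 : (a • w + b • (⟨w.re, 2 * sg⟩ : ℂ)).im = a * w.im + b * (2 * sg) := by
      simp only [Complex.add_im, Complex.real_smul, Complex.mul_im, Complex.ofReal_re,
        Complex.ofReal_im, zero_mul, add_zero]
    have e3 : sg * (a * w.im + b * (2 * sg)) = a * (sg * w.im) + 2 * b := by
      linear_combination (2 * b) * hsg2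
    have hpos : 0 < sg * (a * w.im + b * (2 * sg)) := by
      rw [e3]
      rcases eq_or_lt_of_le ha with h | h
      · rw [← h]; rw [← h] at hab; linarith
      · have := mul_pos h him
        linarith
    have e4 : |a * w.im + b * (2 * sg)| = a * (sg * w.im) + 2 * b := by
      rw [← e3, ← abs_of_pos hpos, abs_mul, habs, one_mul]
    refine ⟨⟨⟨?_, ?_⟩, ?_⟩, ?_⟩
    · rw [e1]; exact hre
    · rw [e2, e4]
      rw [hsgw] at hi2
      nlinarith
    · rw [e1, e2, e4]
      rcases hor with h | h
      · exact Or.inl h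
      · right
        rw [hsgw] at h
        rw [h]
        linarith
    · apply Bound_ne
      rw [e2]
      intro h0
      rw [h0, mul_zero] at hpos
      exact lt_irrefl _ hpos
  have h2 : JoinedIn (Bd \ {1, -1}) ⟨w.re, 2 * sg⟩ (⟨0, 2 * sg⟩ : ℂ) := by
    apply JoinedIn.of_segment_subset
    rintro z ⟨a, b, ha, hb, hab, rfl⟩
    have e1 : (a • (⟨w.re, 2 * sg⟩ : ℂ) + b • (⟨0, 2 * sg⟩ : ℂ)).re = a * w.re := by
      simp only [Complex.add_re, Complex.real_smul, Complex.mul_re, Complex.ofReal_re,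
        Complex.ofReal_im, zero_mul, sub_zero, mul_zero, add_zero]
    have e2 : (a • (⟨w.re, 2 * sg⟩ : ℂ) + b • (⟨0, 2 * sg⟩ : ℂ)).im = 2 * sg := by
      simp only [Complex.add_im, Complex.real_smul, Complex.mul_im, Complex.ofReal_re,
        Complex.ofReal_im, zero_mul, add_zero]
      rw [← add_mul, hab, one_mul]
    have e3 : |2 * sg| = 2 := by rw [abs_mul, habs]; norm_num
    refine ⟨⟨⟨?_, ?_⟩, ?_⟩, ?_⟩
    · rw [e1, abs_mul, abs_of_nonneg ha]
      have := abs_nonneg w.re
      nlinarith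
    · rw [e2, e3]
    · right; rw [e2, e3]
    · apply Bound_ne
      rw [e2]
      intro h0
      rw [h0] at e3
      norm_num at e3
  exact h1.trans h2

theorem joined_bd {w : ℂ} (hw : w ∈ Bd) (h1 : w ≠ 1) (h2 : w ≠ -1) :
    JoinedIn (Bd \ {1, -1}) w (2 * Complex.I) ∨ JoinedIn (Bd \ {1, -1}) w (-(2 * Complex.I)) := by
  have hne : w.im ≠ 0 := by
    intro h0
    obtain ⟨-, hor⟩ := hw
    rcases hor with h | h
    · rcases eq_or_eq_neg_of_abs_eq h with h | h
      · exact h1 (Complex.ext (by simpa using h) (by simpa using h0))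
      · exact h2 (Complex.ext (by simpa using h) (by simpa using h0))
    · rw [h0] at h
      norm_num at h
  rcases lt_or_gt_of_ne hne with h | h
  · right
    have h3 := Bound_aux hw (sg := -1) (Or.inr rfl) (by linarith)
    have e : (⟨0, 2 * (-1)⟩ : ℂ) = -(2 * Complex.I) := by
      apply Complex.ext <;> simp
    rw [e] at h3
    exact h3
  · left
    have h3 := Bound_aux hw (sg := 1) (Or.inl rfl) (by linarith)
    have e : (⟨0, 2 * 1⟩ : ℂ) = 2 * Complex.I := by
      apply Complex.ext <;> simp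
    rw [e] at h3
    exact h3

end Pool.Agent.Lib.MP_4b02fd_al
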