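import Pool.Agent.Lib.MP_4b02fd_al.LiftMap
import Pool.Agent.Lib.MP_4b02fd_al.Inst

/-!
# MP_4b02fd_al, topological form: closed lifts of closed curves
-/

set_option autoImplicit false

open Topology unitInterval Set

noncomputable section

namespace Pool.Agent.Lib.MP_4b02fd_al

private lemma q_trans {a b c : ℂ} {x y z : PT} (α : Path a b) (β : Path b c) (α' : Path x y)
    (β' : Path y z) (hα : ∀ t, q (α t) = (α' t).1) (hβ : ∀ t, q (β t) = (β' t).1) (t : I) :
    q ((α.trans β) t) = ((α'.trans β') t).1 := by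
  rw [Path.trans_apply, Path.trans_apply]
  split_ifs with h
  · exact hα _
  · exact hβ _

private lemma q_add_gi (z : ℂ) (k : ℤ × ℤ) : q (z + gi k) = q z :=
  (q_eq_iff _ _).2 ⟨k, rfl⟩

theorem closed_lift (ρ : FundamentalGroup PT x0 →* Q)
    (hρ : ∀ γ : Path x0 x0,
      IsVal γ (ρ (Path.Homotopic.Quotient.mk γ : Path.Homotopic.Quotient x0 x0)))
    {g : FundamentalGroup PT x0} {γ : C(UnitAddCircle, PT)} (h : Represents g γ)
    (hv : (ρ g).v = 0) : ∃ c : C(UnitAddCircle, ℂ), ∀ t, q (c t) = (γ t).1 := by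
  obtain ⟨δ, hg⟩ := h
  have hval : IsVal (δ.trans ((curvePath γ).trans δ.symm)) (ρ g) := by
    rw [hg]
    exact hρ _
  obtain ⟨c, ⟨hc, hc0, hcq⟩, hc1, -⟩ := hval
  rw [hv] at hc1
  have hval1 : Continuous fun y : PT => y.1 := continuous_subtype_val
  -- the lift of `δ`
  obtain ⟨D, hD0, hD⟩ := exists_lift (X := I) ⟨fun t => (δ t).1, hval1.comp δ.continuous⟩ 0 z0
    (by
      show q z0 = (δ 0).1
      rw [δ.source]
      rfl)
  have hD' : ∀ t : I, q (D t) = (δ t).1 := hD
  -- the lift of `γ`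
  obtain ⟨C, hC0, hC⟩ := exists_lift (X := ℝ)
    ⟨fun x => (γ ((x : ℝ) : UnitAddCircle)).1,
      hval1.comp (γ.continuous.comp (AddCircle.continuous_mk' 1))⟩ 0 (D 1)
    (by
      show q (D 1) = (γ ((0 : ℝ) : UnitAddCircle)).1
      rw [hD' 1, δ.target]
      rfl)
  have hC' : ∀ x : ℝ, q (C x) = (γ ((x : ℝ) : UnitAddCircle)).1 := hC
  have hshift : Continuous fun x : ℝ => C (x + 1) := C.continuous.comp (by fun_prop)
  have hper0 : ∀ x : ℝ, q (C (x + 1)) = q (C x) := by
    intro x
    rw [hC', hC', AddCircle.coe_add_period 1 x]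
  obtain ⟨k, hk⟩ := (q_eq_iff _ _).1 (hper0 0)
  have hconst : ∀ x : ℝ, C (x + 1) = C x + gi k := by
    intro x
    have h1 := lift_unique hshift C.continuous hper0 x 0
    have h2 : C (x + 1) = C x + (C (0 + 1) - C 0) := by rw [← h1]; ring
    rw [h2, hk]
    ring
  have hC1 : C 1 = D 1 + gi k := by
    have h1 := hconst 0
    rw [zero_add, hC0] at h1
    exact h1
  let p1 : Path z0 (D 1) := ⟨⟨fun t => D t, D.continuous⟩, hD0, rfl⟩
  let p2 : Path (D 1) (D 1 + gi k) := ⟨⟨fun t => C t, C.continuous.comp continuous_subtype_val⟩,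
    by
      show C ((0 : I) : ℝ) = D 1
      rw [← hC0]
      rfl,
    by
      show C ((1 : I) : ℝ) = D 1 + gi k
      rw [← hC1]
      rfl⟩
  let p3 : Path (D 1 + gi k) (z0 + gi k) :=
    ⟨⟨fun t => D (unitInterval.symm t) + gi k,
      (D.continuous.comp unitInterval.continuous_symm).add continuous_const⟩,
    by
      show D (unitInterval.symm 0) + gi k = D 1 + gi k
      rw [unitInterval.symm_zero],
    by
      show D (unitInterval.symm 1) + gi k = z0 + gi k
      rw [unitInterval.symm_one, hD0]⟩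
  have hP : ∀ t : I, q ((p1.trans (p2.trans p3)) t)
      = ((δ.trans ((curvePath γ).trans δ.symm)) t).1 := by
    apply q_trans
    · exact hD'
    · apply q_trans
      · intro t
        exact hC' t
      · intro t
        show q (D (unitInterval.symm t) + gi k) = _
        rw [q_add_gi, hD']
        rfl
  have h3 := lift_unique (C := fun t : I => (p1.trans (p2.trans p3)) t) (C' := c)
    (p1.trans (p2.trans p3)).continuous hc (fun t => by rw [hP t, hcq t]) 0 1
  have h4 : gi k = 0 := by
    have h5 : (p1.trans (p2.trans p3)) 0 - c 0 = (p1.trans (p2.trans p3)) 1 - c 1 := h3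
    rw [Path.source, Path.target, hc0, hc1] at h5
    have h6 : gi 0 = 0 := by simp [gi]
    rw [h6] at h5
    have h7 : gi k = z0 + gi k - (z0 + 0) := by ring
    rw [h7, ← h5]
    ring
  have hper : Function.Periodic C 1 := by
    intro x
    rw [hconst x, h4, add_zero]
  refine ⟨⟨hper.lift, ?_⟩, ?_⟩
  · have hq : IsQuotientMap ((↑) : ℝ → UnitAddCircle) := isQuotientMap_quotient_mk'
    exact hq.continuous_iff.2 C.continuous
  · intro t
    induction t using QuotientAddGroup.induction_on with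
    | H x => exact hC' x

end Pool.Agent.Lib.MP_4b02fd_al
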