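import Pool.Agent.Lib.MP_4b02fd_al.Lift

/-!
# MP_4b02fd_al, topological form: the punctured torus is path connected
-/

set_option autoImplicit false

open Topology unitInterval Set

noncomputable section

namespace Pool.Agent.Lib.MP_4b02fd_al

private theorem connPT_aux : IsPathConnected (range gi)ᶜ := by
  have h : 1 < Module.rank ℝ ℂ := by
    rw [Complex.rank_real_complex]
    exact_mod_cast one_lt_two
  exact (countable_range gi).isPathConnected_compl_of_one_lt_rank h

theorem pathConnectedSpace_PT : PathConnectedSpace PT := by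
  have hS : PathConnectedSpace ((range gi)ᶜ : Set ℂ) :=
    isPathConnected_iff_pathConnectedSpace.mp connPT_aux
  let f : ((range gi)ᶜ : Set ℂ) → PT := fun z => ⟨q z.1, by
    intro h
    obtain ⟨m, hm⟩ := (q_eq_zero_iff z.1).mp h
    exact z.2 ⟨m, hm.symm⟩⟩
  have hf : Continuous f :=
    Continuous.subtype_mk (continuous_q.comp continuous_subtype_val) _
  have hs : Function.Surjective f := by
    rintro ⟨x, hx⟩
    obtain ⟨z, rfl⟩ := q_surjective x
    refine ⟨⟨z, ?_⟩, rfl⟩
    rintro ⟨m, rfl⟩
    exact hx ((q_eq_zero_iff _).mpr ⟨m, rfl⟩)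
  exact hs.pathConnectedSpace hf

end Pool.Agent.Lib.MP_4b02fd_al
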