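import Pool.Agent.Lib.MP_4b02fd_al.Lift

/-!
# MP_4b02fd_al, topological form: counting translates
-/

set_option autoImplicit false

open Topology unitInterval Set

noncomputable section

namespace Pool.Agent.Lib.MP_4b02fd_al

/-- The number of integer translates of `D` containing `z`. -/
def cnt (D : Set ℂ) (z : ℂ) : ℕ := {m : ℤ × ℤ | z - gi m ∈ D}.ncard

private lemma re_gi_Count (m : ℤ × ℤ) : (gi m).re = m.1 := by simp [gi]

private lemma im_gi_Count (m : ℤ × ℤ) : (gi m).im = m.2 := by simp [gi]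

theorem cnt_finite {D : Set ℂ} (hD : Bornology.IsBounded D) (z : ℂ) :
    {m : ℤ × ℤ | z - gi m ∈ D}.Finite := by
  obtain ⟨R, hR⟩ := hD.subset_closedBall 0
  refine ((Set.finite_Icc ⌈z.re - R⌉ ⌊z.re + R⌋).prod
    (Set.finite_Icc ⌈z.im - R⌉ ⌊z.im + R⌋)).subset ?_
  intro m hm
  have h1 := hR hm
  rw [Metric.mem_closedBall, dist_zero_right] at h1
  have h2 := (Complex.abs_re_le_norm _).trans h1
  have h3 := (Complex.abs_im_le_norm _).trans h1
  rw [Complex.sub_re, re_gi_Count, abs_le] at h2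
  rw [Complex.sub_im, im_gi_Count, abs_le] at h3
  refine ⟨⟨Int.ceil_le.2 ?_, Int.le_floor.2 ?_⟩, Int.ceil_le.2 ?_, Int.le_floor.2 ?_⟩
  · linarith [h2.2]
  · linarith [h2.1]
  · linarith [h3.2]
  · linarith [h3.1]

theorem cnt_eq {D : Set ℂ} {z w : ℂ} (h : q z = q w) : cnt D z = cnt D w := by
  obtain ⟨m0, rfl⟩ := (q_eq_iff z w).1 h
  have h1 : {m : ℤ × ℤ | w + gi m0 - gi m ∈ D} = (fun m => m + m0) '' {m | w - gi m ∈ D} := by
    ext m
    constructor
    · intro hm
      refine ⟨m - m0, ?_, sub_add_cancel m m0⟩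
      have h2 : gi m = gi (m - m0) + gi m0 := by rw [← gi_add, sub_add_cancel]
      have h3 : w + gi m0 - gi m = w - gi (m - m0) := by rw [h2]; ring
      rw [mem_ofPred_eq, h3] at hm
      exact hm
    · rintro ⟨k, hk, rfl⟩
      have h3 : w + gi m0 - gi (k + m0) = w - gi k := by rw [gi_add]; ring
      show w + gi m0 - gi (k + m0) ∈ D
      rw [h3]
      exact hk
  unfold cnt
  rw [h1]
  exact Set.ncard_image_of_injective _ (add_left_injective m0)

end Pool.Agent.Lib.MP_4b02fd_al
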