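import Pool.Agent.Lib.MP_4b02fd_al.Count

/-!
# MP_4b02fd_al, topological form: local behaviour of the counting function
-/

set_option autoImplicit false

open Topology unitInterval Set

noncomputable section

namespace Pool.Agent.Lib.MP_4b02fd_al

private theorem countLoc_mem {D J : Set ℂ} (hD : IsOpen D) (hcl : closure D ⊆ D ∪ J) {z : ℂ}
    {m : ℤ × ℤ} (hz : z - gi m ∉ J) : ∀ᶠ w in 𝓝 z, (w - gi m ∈ D ↔ z - gi m ∈ D) := by
  have hc : ContinuousAt (fun w : ℂ => w - gi m) z := by fun_prop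
  by_cases h : z - gi m ∈ D
  · have h1 : ∀ᶠ w in 𝓝 z, w - gi m ∈ D := hc.eventually (hD.eventually_mem h)
    filter_upwards [h1] with w hw
    exact ⟨fun _ => h, fun _ => hw⟩
  · have h2 : z - gi m ∉ closure D := fun h3 => (hcl h3).elim h hz
    have h1 : ∀ᶠ w in 𝓝 z, w - gi m ∈ (closure D)ᶜ :=
      hc.eventually (isClosed_closure.isOpen_compl.eventually_mem h2)
    filter_upwards [h1] with w hw
    exact ⟨fun h3 => absurd (subset_closure h3) hw, fun h3 => absurd h3 h⟩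

private theorem countLoc_fin {S : Set ℂ} (hb : Bornology.IsBounded S) (z : ℂ) :
    ∃ F : Set (ℤ × ℤ), F.Finite ∧ ∀ w ∈ Metric.ball z 1, ∀ m, w - gi m ∈ S → m ∈ F := by
  obtain ⟨R, hR⟩ := hb.subset_ball (0 : ℂ)
  refine ⟨{m | z - gi m ∈ Metric.ball (0 : ℂ) (R + 1)}, cnt_finite Metric.isBounded_ball z, ?_⟩
  intro w hw m hm
  have h1 := hR hm
  rw [mem_ball_zero_iff] at h1
  rw [Metric.mem_ball, dist_eq_norm] at hw
  show z - gi m ∈ Metric.ball (0 : ℂ) (R + 1)
  rw [mem_ball_zero_iff]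
  have h2 : z - gi m = (w - gi m) - (w - z) := by ring
  rw [h2]
  calc ‖(w - gi m) - (w - z)‖ ≤ ‖w - gi m‖ + ‖w - z‖ := norm_sub_le _ _
    _ < R + 1 := by linarith

theorem cnt_locally_constant {D J : Set ℂ} (hD : IsOpen D) (hb : Bornology.IsBounded D)
    (hJ : IsCompact J) (hcl : closure D ⊆ D ∪ J) {z : ℂ} (hz : ∀ m, z - gi m ∉ J) :
    ∀ᶠ w in 𝓝 z, cnt D w = cnt D z := by
  obtain ⟨F, hF, hF2⟩ := countLoc_fin hb z
  have h1 : ∀ᶠ w in 𝓝 z, ∀ m ∈ F, (w - gi m ∈ D ↔ z - gi m ∈ D) :=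
    (Filter.eventually_all_finite hF).2 fun m _ => countLoc_mem hD hcl (hz m)
  filter_upwards [h1, Metric.ball_mem_nhds z one_pos] with w hw hw2
  unfold cnt
  congr 1
  ext m
  constructor
  · intro hm
    exact (hw m (hF2 w hw2 m hm)).1 hm
  · intro hm
    exact (hw m (hF2 z (Metric.mem_ball_self one_pos) m hm)).2 hm

/-- Near a point of `J` the counting function jumps exactly like the indicator of `D`. -/
theorem cnt_jump {D J : Set ℂ} (hD : IsOpen D) (hb : Bornology.IsBounded D)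
    (hJ : IsCompact J) (hcl : closure D ⊆ D ∪ J)
    (hdisj : ∀ m : ℤ × ℤ, m ≠ 0 → ∀ z ∈ J, z - gi m ∉ J) {y : ℂ} (hy : y ∈ J) :
    ∃ ε > 0, (∀ z ∈ Metric.ball y ε, ∀ m : ℤ × ℤ, m ≠ 0 → z - gi m ∉ J) ∧
      ∀ z ∈ Metric.ball y ε, ∀ w ∈ Metric.ball y ε, z ∈ D → w ∉ D →
        cnt D z = cnt D w + 1 := by
  obtain ⟨F, hF, hF2⟩ := countLoc_fin (hb.union hJ.isBounded) y
  have h1 : ∀ᶠ w in 𝓝 y, ∀ m ∈ F, m ≠ 0 → ((w - gi m ∈ D ↔ y - gi m ∈ D) ∧ w - gi m ∉ J) := by
    refine (Filter.eventually_all_finite hF).2 fun m _ => ?_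
    by_cases hm : m = 0
    · exact Filter.Eventually.of_forall fun w h => absurd hm h
    · have h2 := countLoc_mem hD hcl (hdisj m hm y hy)
      have hc : ContinuousAt (fun w : ℂ => w - gi m) y := by fun_prop
      have h3 : ∀ᶠ w in 𝓝 y, w - gi m ∈ Jᶜ :=
        hc.eventually (hJ.isClosed.isOpen_compl.eventually_mem (hdisj m hm y hy))
      filter_upwards [h2, h3] with w hw hw2 _
      exact ⟨hw, hw2⟩
  obtain ⟨ε, hε, hball⟩ := Metric.eventually_nhds_iff_ball.1 h1
  have hmin : 0 < min ε 1 := lt_min hε one_pos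
  refine ⟨min ε 1, hmin, ?_, ?_⟩
  · intro z hz m hm hzJ
    have hz1 : z ∈ Metric.ball y ε := Metric.ball_subset_ball (min_le_left _ _) hz
    have hz2 : z ∈ Metric.ball y 1 := Metric.ball_subset_ball (min_le_right _ _) hz
    exact (hball z hz1 m (hF2 z hz2 m (Or.inr hzJ)) hm).2 hzJ
  · intro z hz w hw hzD hwD
    have hz1 : z ∈ Metric.ball y ε := Metric.ball_subset_ball (min_le_left _ _) hz
    have hz2 : z ∈ Metric.ball y 1 := Metric.ball_subset_ball (min_le_right _ _) hz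
    have hw1 : w ∈ Metric.ball y ε := Metric.ball_subset_ball (min_le_left _ _) hw
    have hw2 : w ∈ Metric.ball y 1 := Metric.ball_subset_ball (min_le_right _ _) hw
    have hgi : gi 0 = 0 := by simp [gi]
    have hset : {m : ℤ × ℤ | z - gi m ∈ D} = insert 0 {m : ℤ × ℤ | w - gi m ∈ D} := by
      ext m
      simp only [mem_setOf_eq, mem_insert_iff]
      by_cases hm : m = 0
      · subst hm
        rw [hgi, sub_zero]
        simp [hzD]
      · constructor
        · intro h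
          right
          exact (hball w hw1 m (hF2 z hz2 m (Or.inl h)) hm).1.2
            ((hball z hz1 m (hF2 z hz2 m (Or.inl h)) hm).1.1 h)
        · intro h
          rcases h with h | h
          · exact absurd h hm
          · exact (hball z hz1 m (hF2 w hw2 m (Or.inl h)) hm).1.2
              ((hball w hw1 m (hF2 w hw2 m (Or.inl h)) hm).1.1 h)
    unfold cnt
    rw [hset, ncard_insert_of_notMem _ (cnt_finite hb w)]
    simp only [mem_setOf_eq, hgi, sub_zero]
    exact hwD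

end Pool.Agent.Lib.MP_4b02fd_al
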