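import Pool.Agent.Lib.MP_4b02fd_al.Arg

/-!
# MP_4b02fd_al, topological form: crossing paths in a rectangle
-/

set_option autoImplicit false

open Topology unitInterval Set

noncomputable section

namespace Pool.Agent.Lib.MP_4b02fd_al

private theorem cr_arg {z : ℂ} (hz : z ≠ 0) (h : 0 ≤ z.re) :
    (Complex.I * z).arg = z.arg + Real.pi / 2 := by
  have h1 : |z.arg| ≤ Real.pi / 2 := Complex.abs_arg_le_pi_div_two_iff.mpr h
  have h2 := abs_le.mp h1
  have hpi := Real.pi_pos
  rw [mul_comm, Complex.arg_mul hz Complex.I_ne_zero, Complex.arg_I]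
  rw [Complex.arg_I]
  constructor
  · linarith
  · linarith

private theorem cr_side {G : I → ℂ} (hG : Continuous G) (hG0 : ∀ t, G t ≠ 0) {w : ℂ}
    (hw : w ≠ 0) (h : ∀ t, 0 ≤ (G t / w).re) {ψ : I → ℝ} (hψ : Continuous ψ)
    (h' : ∀ t, G t = ‖G t‖ * Complex.exp (ψ t * Complex.I)) :
    ψ 1 - ψ 0 = (G 1 / w).arg - (G 0 / w).arg := by
  have hsl : ∀ t, G t / w ∈ Complex.slitPlane := by
    intro t
    rw [Complex.mem_slitPlane_iff]
    by_contra hcon
    push Not at hcon
    have hre : (G t / w).re = 0 := le_antisymm hcon.1 (h t)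
    have h0 : G t / w = 0 := Complex.ext hre hcon.2
    exact (div_ne_zero (hG0 t) hw) h0
  have hcont : Continuous fun t => (G t / w).arg + w.arg := by
    refine Continuous.add ?_ continuous_const
    rw [continuous_iff_continuousAt]
    intro t
    exact (Complex.continuousAt_arg (hsl t)).comp (f := fun t => G t / w)
      (hG.div_const w).continuousAt
  have hrep : ∀ t, G t = ‖G t‖ * Complex.exp (((G t / w).arg + w.arg : ℝ) * Complex.I) := by
    intro t
    have h1 : G t = (G t / w) * w := by field_simp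
    have h2 := Complex.norm_mul_exp_arg_mul_I (G t / w)
    have h3 := Complex.norm_mul_exp_arg_mul_I w
    push_cast
    rw [add_mul, Complex.exp_add]
    calc G t = (G t / w) * w := h1
      _ = (‖G t / w‖ * Complex.exp ((G t / w).arg * Complex.I)) *
          (‖w‖ * Complex.exp (w.arg * Complex.I)) := by rw [h2, h3]
      _ = (‖G t / w‖ * ‖w‖ : ℝ) * (Complex.exp ((G t / w).arg * Complex.I) *
          Complex.exp (w.arg * Complex.I)) := by push_cast; ring
      _ = _ := by
        rw [← norm_mul, ← h1]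
  have := arg_unique hψ hcont hG0 h' hrep 1 0
  linarith

theorem crossing (h v : C(I, ℂ)) (hh : ∀ t, h t ∈ Rect) (hv : ∀ t, v t ∈ Rect)
    (h0 : (h 0).re = -1) (h1 : (h 1).re = 1) (v0 : (v 0).im = 2) (v1 : (v 1).im = -2) :
    ∃ s t, h s = v t := by
  by_contra hne
  push Not at hne
  let F : C(I × I, ℂ) := ⟨fun p => h p.1 - v p.2, by fun_prop⟩
  have hF : ∀ p, F p ≠ 0 := fun p => sub_ne_zero.mpr (hne p.1 p.2)
  obtain ⟨φ, hφ⟩ := exists_arg F hF
  have hre : ∀ s t, (F (s, t)).re = (h s).re - (v t).re := fun s t => rfl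
  have him : ∀ s t, (F (s, t)).im = (h s).im - (v t).im := fun s t => rfl
  have hb : ∀ t, -1 ≤ (h t).re ∧ (h t).re ≤ 1 ∧ -2 ≤ (h t).im ∧ (h t).im ≤ 2 := fun t =>
    ⟨(abs_le.mp (hh t).1).1, (abs_le.mp (hh t).1).2, (abs_le.mp (hh t).2).1,
      (abs_le.mp (hh t).2).2⟩
  have vb : ∀ t, -1 ≤ (v t).re ∧ (v t).re ≤ 1 ∧ -2 ≤ (v t).im ∧ (v t).im ≤ 2 := fun t =>
    ⟨(abs_le.mp (hv t).1).1, (abs_le.mp (hv t).1).2, (abs_le.mp (hv t).2).1,
      (abs_le.mp (hv t).2).2⟩
  have divI : ∀ z : ℂ, z / Complex.I = -(Complex.I * z) := by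
    intro z
    rw [Complex.div_I, mul_comm]
  have divNI : ∀ z : ℂ, z / (-Complex.I) = Complex.I * z := by
    intro z
    rw [div_neg, divI, neg_neg]
  have reI : ∀ z : ℂ, (Complex.I * z).re = -z.im := by
    intro z
    simp
  -- bottom
  have e1 : φ (1, 0) - φ (0, 0) =
      (F (1, 0) / (-Complex.I)).arg - (F (0, 0) / (-Complex.I)).arg :=
    cr_side (G := fun s => F (s, 0)) (by fun_prop) (fun s => hF _)
      (neg_ne_zero.mpr Complex.I_ne_zero)
      (fun s => by
        rw [divNI, reI, him, v0]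
        linarith [(hb s).2.2.2]) (ψ := fun s => φ (s, 0)) (by fun_prop) (fun s => hφ _)
  have e2 : φ (1, 1) - φ (1, 0) = (F (1, 1) / 1).arg - (F (1, 0) / 1).arg :=
    cr_side (G := fun t => F (1, t)) (by fun_prop) (fun s => hF _) one_ne_zero
      (fun t => by
        rw [div_one, hre, h1]
        linarith [(vb t).2.1]) (ψ := fun t => φ (1, t)) (by fun_prop) (fun s => hφ _)
  have e3 : φ (1, 1) - φ (0, 1) =
      (F (1, 1) / Complex.I).arg - (F (0, 1) / Complex.I).arg :=
    cr_side (G := fun s => F (s, 1)) (by fun_prop) (fun s => hF _) Complex.I_ne_zero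
      (fun s => by
        rw [divI, Complex.neg_re, reI, him, v1]
        linarith [(hb s).2.2.1]) (ψ := fun s => φ (s, 1)) (by fun_prop) (fun s => hφ _)
  have e4 : φ (0, 1) - φ (0, 0) = (F (0, 1) / (-1)).arg - (F (0, 0) / (-1)).arg :=
    cr_side (G := fun t => F (0, t)) (by fun_prop) (fun s => hF _)
      (neg_ne_zero.mpr one_ne_zero)
      (fun t => by
        rw [div_neg, div_one, Complex.neg_re, hre, h0]
        linarith [(vb t).1]) (ψ := fun t => φ (0, t)) (by fun_prop) (fun s => hφ _)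
  rw [divNI, divNI] at e1
  rw [div_one, div_one] at e2
  rw [divI, divI] at e3
  rw [div_neg, div_one, div_neg, div_one] at e4
  -- corners
  have c10 := cr_arg (hF (1, 0)) (by rw [hre, h1]; linarith [(vb 0).2.1])
  have c11 := cr_arg (z := -(Complex.I * F (1, 1)))
    (neg_ne_zero.mpr (mul_ne_zero Complex.I_ne_zero (hF _)))
    (by rw [Complex.neg_re, reI, him, v1]; linarith [(hb 1).2.2.1])
  have c01 := cr_arg (z := -F (0, 1)) (neg_ne_zero.mpr (hF _))
    (by rw [Complex.neg_re, hre, h0]; linarith [(vb 1).1])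
  have c00 := cr_arg (z := Complex.I * F (0, 0)) (mul_ne_zero Complex.I_ne_zero (hF _))
    (by rw [reI, him, v0]; linarith [(hb 0).2.2.2])
  have i1 : Complex.I * -(Complex.I * F (1, 1)) = F (1, 1) := by
    rw [mul_neg, ← mul_assoc, Complex.I_mul_I]; ring
  have i2 : Complex.I * -F (0, 1) = -(Complex.I * F (0, 1)) := by ring
  have i3 : Complex.I * (Complex.I * F (0, 0)) = -F (0, 0) := by
    rw [← mul_assoc, Complex.I_mul_I]; ring
  rw [i1] at c11
  rw [i2] at c01
  rw [i3] at c00
  have hpi := Real.pi_pos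
  linarith

end Pool.Agent.Lib.MP_4b02fd_al
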