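import Pool.Agent.Lib.MP_4b02fd_al.TurnTools

/-!
# MP_4b02fd_al, topological form: turning numbers around far away points are small
-/

set_option autoImplicit false

open Topology unitInterval Set

noncomputable section

namespace Pool.Agent.Lib.MP_4b02fd_al

private theorem Decay_gi_re (m : ℤ × ℤ) : (gi m).re = m.1 := by
  simp [gi]

private theorem Decay_gi_im (m : ℤ × ℤ) : (gi m).im = m.2 := by
  simp [gi]

private theorem Decay_finite (R : ℝ) : {m : ℤ × ℤ | ‖gi m‖ ≤ R}.Finite := by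
  have h1 : (Set.Icc (-⌈R⌉) ⌈R⌉ ×ˢ Set.Icc (-⌈R⌉) ⌈R⌉ : Set (ℤ × ℤ)).Finite :=
    (Set.finite_Icc _ _).prod (Set.finite_Icc _ _)
  refine h1.subset ?_
  intro m hm
  have hm' : ‖gi m‖ ≤ R := hm
  have h2 := (Complex.abs_re_le_norm (gi m)).trans hm'
  have h3 := (Complex.abs_im_le_norm (gi m)).trans hm'
  rw [Decay_gi_re, abs_le] at h2
  rw [Decay_gi_im, abs_le] at h3
  have h4 := Int.le_ceil R
  refine ⟨⟨?_, ?_⟩, ⟨?_, ?_⟩⟩
  · have : -(⌈R⌉ : ℝ) ≤ m.1 := by linarith [h2.1]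
    exact_mod_cast this
  · have : (m.1 : ℝ) ≤ ⌈R⌉ := by linarith [h2.2]
    exact_mod_cast this
  · have : -(⌈R⌉ : ℝ) ≤ m.2 := by linarith [h3.1]
    exact_mod_cast this
  · have : (m.2 : ℝ) ≤ ⌈R⌉ := by linarith [h3.2]
    exact_mod_cast this

theorem val_decay {γ : Path x0 x0} {p : Q} (hp : IsVal γ p) :
    {x | 1 / 2 ≤ |p.f x|}.Finite := by
  obtain ⟨c, ⟨hc, _, _⟩, _, hturn⟩ := hp
  obtain ⟨R, hR⟩ : ∃ R : ℝ, ∀ t, ‖c t‖ ≤ R := by
    obtain ⟨R, hR⟩ := (isCompact_range hc.norm).bddAbove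
    exact ⟨R, fun t => hR ⟨t, rfl⟩⟩
  refine (Decay_finite R).subset ?_
  intro m hm
  by_contra hcon
  have hlt : R < ‖gi m‖ := not_le.1 hcon
  have h0 : 0 < ‖gi m‖ := lt_of_le_of_lt ((norm_nonneg _).trans (hR 0)) hlt
  have hne : gi m ≠ 0 := norm_pos_iff.1 h0
  have hpos : ∀ t, 0 < ((c t - gi m) / (-gi m)).re := by
    intro t
    have h1 : (c t - gi m) / (-gi m) = 1 - c t / gi m := by
      field_simp
      ring
    rw [h1, Complex.sub_re, Complex.one_re]
    have h2 : (c t / gi m).re ≤ ‖c t / gi m‖ := Complex.re_le_norm _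
    have h3 : ‖c t / gi m‖ < 1 := by
      rw [norm_div, div_lt_one h0]
      exact lt_of_le_of_lt (hR t) hlt
    linarith
  have h4 := turns_halfplane hc (u := gi m) (w := -gi m) hpos
  have h5 := turns_unique (fun t h => by
    have := hR t
    rw [h] at this
    linarith) (hturn m) h4
  have ha : ∀ t, |((c t - gi m) / (-gi m)).arg| < Real.pi / 2 := fun t =>
    Complex.abs_arg_lt_pi_div_two_iff.2 (Or.inl (hpos t))
  have h6 : |p.f m| < 1 / 2 := by
    rw [h5, abs_div, abs_of_pos (show 0 < 2 * Real.pi by positivity), div_lt_iff₀ (by positivity)]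
    have h7 := abs_sub ((c 1 - gi m) / (-gi m)).arg ((c 0 - gi m) / (-gi m)).arg
    have h8 := ha 1
    have h9 := ha 0
    linarith
  exact absurd hm (not_le.2 h6)

end Pool.Agent.Lib.MP_4b02fd_al
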