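import Mathlib

/-!
# MP_4b02fd_al, topological form: definitions

The once-punctured torus `PT = (ℝ²/ℤ²) \ {0}`, its fundamental group at `x0 = (1/2, 1/2)`, closed
curves, and word length / diameter of a group with respect to a subset.
-/

set_option autoImplicit false

open Topology unitInterval

noncomputable section

namespace Pool.Agent.Lib.MP_4b02fd_al

/-- The torus `ℝ² / ℤ²`. -/
abbrev T2 : Type := UnitAddCircle × UnitAddCircle

/-- The once-punctured torus. -/
def PT : Type := {x : T2 // x ≠ 0}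

instance : TopologicalSpace PT := instTopologicalSpaceSubtype

instance : T2Space PT := inferInstanceAs (T2Space {x : T2 // x ≠ 0})

/-- The projection `ℂ = ℝ² → ℝ² / ℤ²`. -/
def q (z : ℂ) : T2 := ((z.re : UnitAddCircle), (z.im : UnitAddCircle))

/-- The point `(1/2, 1/2)` of the plane. -/
def z0 : ℂ := ⟨1 / 2, 1 / 2⟩

lemma half_ne : ((1 / 2 : ℝ) : UnitAddCircle) ≠ 0 := by
  intro h
  rw [AddCircle.coe_eq_zero_iff] at h
  obtain ⟨n, hn⟩ := h
  have h2 : (n : ℝ) = 1 / 2 := by simpa using hn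
  have h3 : (2 * n : ℝ) = 1 := by rw [h2]; norm_num
  have h4 : (2 * n : ℤ) = 1 := by exact_mod_cast h3
  omega

/-- The base point. -/
def x0 : PT := ⟨q z0, fun h => half_ne (congrArg Prod.fst h)⟩

/-- A closed curve `γ : ℝ/ℤ → PT` as a path from `γ 0` to `γ 0`. -/
def curvePath (γ : C(UnitAddCircle, PT)) : Path (γ 0) (γ 0) where
  toFun t := γ ((t : ℝ) : UnitAddCircle)
  continuous_toFun := by
    have h : Continuous fun t : I => ((t : ℝ) : UnitAddCircle) :=
      (AddCircle.continuous_mk' 1).comp continuous_subtype_val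
    exact γ.continuous.comp h
  source' := by simp
  target' := by
    have h : (((1 : I) : ℝ) : UnitAddCircle) = 0 := AddCircle.coe_period 1
    rw [h]

/-- `g` lies in the conjugacy class represented by the closed curve `γ`: it is the class of
`δ γ δ⁻¹` for a path `δ` from the base point to `γ 0`. -/
def Represents (g : FundamentalGroup PT x0) (γ : C(UnitAddCircle, PT)) : Prop :=
  ∃ δ : Path x0 (γ 0), g = Path.Homotopic.Quotient.mk (δ.trans ((curvePath γ).trans δ.symm))

/-- The closed curve `γ` is simple and does not separate. -/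
def SimpleNonsep (γ : C(UnitAddCircle, PT)) : Prop :=
  Function.Injective γ ∧ IsConnected (Set.range γ)ᶜ

/-- The word length of `g` with respect to `T`: the least length of an expression of `g` as a
product of elements of `T` and their inverses (`⊤` if there is none). -/
noncomputable def wordLength {G : Type} [Group G] (T : Set G) (g : G) : ℕ∞ :=
  sInf {k : ℕ∞ | ∃ l : List G, (∀ x ∈ l, x ∈ T ∨ x⁻¹ ∈ T) ∧ l.prod = g ∧ k = l.length}

/-- The diameter of `G` with respect to `T`. -/
noncomputable def diameter {G : Type} [Group G] (T : Set G) : ℕ∞ := ⨆ g : G, wordLength T g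

/-! ### Auxiliary definitions -/

/-- The Gaussian integer `m.1 + m.2 i`. -/
def gi (m : ℤ × ℤ) : ℂ := (m.1 : ℂ) + (m.2 : ℂ) * Complex.I

/-- The group of pairs `(f, v)`, `f : ℤ² → ℝ` and `v ∈ ℤ²`, with
`(f, v) (g, w) = (g + f(· - w), v + w)`. -/
@[ext]
structure Q where
  f : ℤ × ℤ → ℝ
  v : ℤ × ℤ

namespace Q

instance : Mul Q := ⟨fun p r => ⟨fun x => r.f x + p.f (x - r.v), p.v + r.v⟩⟩
instance : One Q := ⟨⟨fun _ => 0, 0⟩⟩
instance : Inv Q := ⟨fun p => ⟨fun x => -p.f (x + p.v), -p.v⟩⟩

lemma mul_f (p r : Q) (x : ℤ × ℤ) : (p * r).f x = r.f x + p.f (x - r.v) := rfl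
lemma mul_v (p r : Q) : (p * r).v = p.v + r.v := rfl
lemma one_f (x : ℤ × ℤ) : (1 : Q).f x = 0 := rfl
lemma one_v : (1 : Q).v = 0 := rfl
lemma inv_f (p : Q) (x : ℤ × ℤ) : (p⁻¹).f x = -p.f (x + p.v) := rfl
lemma inv_v (p : Q) : (p⁻¹).v = -p.v := rfl

instance instGroup : Group Q := Group.ofLeftAxioms
  (by
    intro p r s
    apply Q.ext
    · funext x
      simp only [mul_f, mul_v]
      rw [sub_sub, add_comm r.v s.v, add_assoc]
    · simp only [mul_v, add_assoc])
  (by
    intro p
    apply Q.ext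
    · funext x
      simp only [mul_f, one_f, add_zero]
    · simp only [mul_v, one_v, zero_add])
  (by
    intro p
    apply Q.ext
    · funext x
      simp only [mul_f, inv_f, sub_add_cancel, add_neg_cancel]
      rfl
    · simp only [mul_v, inv_v, neg_add_cancel]
      rfl)

/-- All values of the first component are bounded by `C`. -/
def Bdd (C : ℝ) (p : Q) : Prop := ∀ x, |p.f x| ≤ C

end Q

/-- `c` is a lift of the loop `γ` starting at `z0`. -/
def IsLift (γ : Path x0 x0) (c : I → ℂ) : Prop :=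
  Continuous c ∧ c 0 = z0 ∧ ∀ t, q (c t) = (γ t).1

/-- The path `c` turns by `r` (in full turns) around `u`. -/
def Turns (c : I → ℂ) (u : ℂ) (r : ℝ) : Prop :=
  ∃ φ : I → ℝ, Continuous φ ∧ (∀ t, c t - u = ‖c t - u‖ * Complex.exp (φ t * Complex.I)) ∧
    φ 1 - φ 0 = 2 * Real.pi * r

/-- `p` records the end point of the lift of `γ` and the turning numbers of the lift. -/
def IsVal (γ : Path x0 x0) (p : Q) : Prop :=
  ∃ c : I → ℂ, IsLift γ c ∧ c 1 = z0 + gi p.v ∧ ∀ m, Turns c (gi m) (p.f m)

/-- The rectangle `[-1, 1] × [-2, 2]`. -/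
def Rect : Set ℂ := {z | |z.re| ≤ 1 ∧ |z.im| ≤ 2}

/-- Its boundary. -/
def Bd : Set ℂ := {z | z ∈ Rect ∧ (|z.re| = 1 ∨ |z.im| = 2)}

end Pool.Agent.Lib.MP_4b02fd_al
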