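import Pool.Agent.Lib.MP_4b02fd_al.Inst

/-!
# MP_4b02fd_al, topological form: a simple closed curve has empty interior
-/

set_option autoImplicit false

open Topology unitInterval Set

noncomputable section

namespace Pool.Agent.Lib.MP_4b02fd_al

/-- There is no continuous injective map from the square to the line. -/
private theorem not_injective_II (f : C(I × I, ℝ)) : ¬ Function.Injective f := by
  intro hf
  have hm : ∀ x : ℝ, |x| ≤ 1 → 1 / 2 + x / 2 ∈ I := by
    intro x hx
    rw [abs_le] at hx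
    exact ⟨by linarith [hx.1], by linarith [hx.2]⟩
  set P : ℝ → I × I := fun θ => (⟨1 / 2 + Real.cos θ / 2, hm _ (Real.abs_cos_le_one θ)⟩,
    ⟨1 / 2 + Real.sin θ / 2, hm _ (Real.abs_sin_le_one θ)⟩) with hP
  have hPc : Continuous P := by
    rw [hP]
    refine Continuous.prodMk (Continuous.subtype_mk (by fun_prop) _)
      (Continuous.subtype_mk (by fun_prop) _)
  set g : ℝ → ℝ := fun θ => f (P θ) - f (P (θ + Real.pi)) with hg
  have hgc : Continuous g := by
    rw [hg]
    exact (f.continuous.comp hPc).sub (f.continuous.comp (hPc.comp (by fun_prop)))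
  have hper : P (Real.pi + Real.pi) = P 0 := by
    rw [hP]
    have h1 : Real.pi + Real.pi = 2 * Real.pi := by ring
    simp only [h1]
    refine Prod.ext (Subtype.ext ?_) (Subtype.ext ?_)
    · simp
    · simp
  have hg0 : g Real.pi = - g 0 := by
    rw [hg]
    simp only [zero_add, hper]
    ring
  have hz : ∃ θ, g θ = 0 := by
    have h1 : (0 : ℝ) ∈ uIcc (g 0) (g Real.pi) := by
      rw [hg0, mem_uIcc]
      rcases le_total (g 0) 0 with h | h
      · left
        exact ⟨h, by linarith⟩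
      · right
        exact ⟨by linarith, h⟩
    obtain ⟨θ, -, hθ⟩ := intermediate_value_uIcc (a := 0) (b := Real.pi) hgc.continuousOn h1
    exact ⟨θ, hθ⟩
  obtain ⟨θ, hθ⟩ := hz
  have h1 : P θ = P (θ + Real.pi) := hf (sub_eq_zero.1 hθ)
  have h2 : (1 / 2 + Real.cos θ / 2 : ℝ) = 1 / 2 + Real.cos (θ + Real.pi) / 2 :=
    congrArg (fun p : I × I => (p.1 : ℝ)) h1
  have h3 : (1 / 2 + Real.sin θ / 2 : ℝ) = 1 / 2 + Real.sin (θ + Real.pi) / 2 :=
    congrArg (fun p : I × I => (p.2 : ℝ)) h1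
  rw [Real.cos_add_pi] at h2
  rw [Real.sin_add_pi] at h3
  have h4 := Real.sin_sq_add_cos_sq θ
  have h5 : Real.cos θ = 0 := by linarith
  have h6 : Real.sin θ = 0 := by linarith
  rw [h5, h6] at h4
  norm_num at h4

theorem interior_curve (c : C(UnitAddCircle, ℂ)) (hc : Function.Injective c) :
    interior (range c) = ∅ := by
  by_contra hne
  obtain ⟨z, hz⟩ := nonempty_iff_ne_empty.2 hne
  obtain ⟨ε, hε, hball⟩ := Metric.isOpen_iff.1 isOpen_interior z hz
  have hemb : Topology.IsClosedEmbedding c :=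
    c.continuous.isClosedEmbedding hc
  set F : I × I → ℂ := fun p => z + ((ε / 4 * (p.1 : ℝ) : ℝ) : ℂ) +
    ((ε / 4 * (p.2 : ℝ) : ℝ) : ℂ) * Complex.I with hF
  have hFc : Continuous F := by
    rw [hF]
    fun_prop
  have hFr : ∀ p, F p ∈ range c := by
    intro p
    refine interior_subset (hball ?_)
    rw [Metric.mem_ball, dist_eq_norm]
    have h1 : F p - z = ((ε / 4 * (p.1 : ℝ) : ℝ) : ℂ) +
        ((ε / 4 * (p.2 : ℝ) : ℝ) : ℂ) * Complex.I := by
      rw [hF]
      ring
    rw [h1]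
    have h2 : ∀ t : I, |ε / 4 * (t : ℝ)| ≤ ε / 4 := by
      intro t
      rw [abs_of_nonneg (mul_nonneg (by linarith) t.2.1)]
      nlinarith [t.2.2]
    calc ‖((ε / 4 * (p.1 : ℝ) : ℝ) : ℂ) + ((ε / 4 * (p.2 : ℝ) : ℝ) : ℂ) * Complex.I‖
        ≤ ‖((ε / 4 * (p.1 : ℝ) : ℝ) : ℂ)‖ + ‖((ε / 4 * (p.2 : ℝ) : ℝ) : ℂ) * Complex.I‖ :=
          norm_add_le _ _
      _ = |ε / 4 * (p.1 : ℝ)| + |ε / 4 * (p.2 : ℝ)| := by
          rw [norm_mul, Complex.norm_I, mul_one, Complex.norm_real, Complex.norm_real,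
            Real.norm_eq_abs, Real.norm_eq_abs]
      _ ≤ ε / 4 + ε / 4 := add_le_add (h2 _) (h2 _)
      _ < ε := by linarith
  have hFi : Function.Injective F := by
    intro p p' h
    have hre := congrArg Complex.re h
    have him := congrArg Complex.im h
    simp only [hF, Complex.add_re, Complex.add_im, Complex.mul_re, Complex.mul_im,
      Complex.ofReal_re, Complex.ofReal_im, Complex.I_re, Complex.I_im] at hre him
    have h4 : ε / 4 ≠ 0 := by positivity
    have e1 : ε / 4 * (p.1 : ℝ) = ε / 4 * (p'.1 : ℝ) := by linarith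
    have e2 : ε / 4 * (p.2 : ℝ) = ε / 4 * (p'.2 : ℝ) := by linarith
    exact Prod.ext (Subtype.ext (mul_left_cancel₀ h4 e1)) (Subtype.ext (mul_left_cancel₀ h4 e2))
  choose G hG using hFr
  have hGc : Continuous G := by
    rw [hemb.isInducing.continuous_iff]
    have h1 : (c ∘ G) = F := funext hG
    rw [h1]
    exact hFc
  have hGi : Function.Injective G := by
    intro p p' h
    apply hFi
    rw [← hG p, ← hG p', h]
  obtain ⟨e, he⟩ : ∃ e : ℝ, (e : UnitAddCircle) = G 0 := QuotientAddGroup.mk_surjective (G 0)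
  obtain ⟨φ, ⟨-, hφ⟩, -⟩ := (AddCircle.isCoveringMap_coe (1 : ℝ)).existsUnique_continuousMap_lifts
    (⟨G, hGc⟩ : C(I × I, UnitAddCircle)) 0 e he
  refine not_injective_II φ ?_
  intro p p' h
  apply hGi
  have h1 : ∀ x, ((φ x : ℝ) : UnitAddCircle) = G x := fun x => congrFun hφ x
  rw [← h1 p, ← h1 p', h]

end Pool.Agent.Lib.MP_4b02fd_al
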