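import Pool.Agent.Lib.MP_4b02fd_al.Jordan
import Pool.Agent.Lib.MP_4b02fd_al.Interior

/-!
# MP_4b02fd_al, topological form: the bounded domain
-/

set_option autoImplicit false

open Topology unitInterval Set

noncomputable section

namespace Pool.Agent.Lib.MP_4b02fd_al

theorem exists_domain (c : C(UnitAddCircle, ℂ)) (hc : Function.Injective c) :
    ∃ D : Set ℂ, IsOpen D ∧ Bornology.IsBounded D ∧ Disjoint D (range c) ∧
      closure D ⊆ D ∪ range c ∧ ∃ y ∈ range c, y ∈ closure D ∧
        ∀ ε > 0, ∃ w ∈ Metric.ball y ε, w ∉ D ∧ w ∉ range c := by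
  obtain ⟨z, hz, hb⟩ := jordan_sep c hc
  have hcl : IsClosed (range c) := (isCompact_range c.continuous).isClosed
  have ho : IsOpen (range c)ᶜ := hcl.isOpen_compl
  have hDo : IsOpen (connectedComponentIn (range c)ᶜ z) := ho.connectedComponentIn
  have hzD : z ∈ connectedComponentIn (range c)ᶜ z := mem_connectedComponentIn hz
  have hDs : connectedComponentIn (range c)ᶜ z ⊆ (range c)ᶜ := connectedComponentIn_subset _ _
  set D := connectedComponentIn (range c)ᶜ z with hD
  have hcD : closure D ⊆ D ∪ range c := by
    intro x hx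
    by_cases hxr : x ∈ range c
    · exact Or.inr hxr
    · left
      have h1 : IsOpen (connectedComponentIn (range c)ᶜ x) := ho.connectedComponentIn
      have h2 : x ∈ connectedComponentIn (range c)ᶜ x := mem_connectedComponentIn hxr
      obtain ⟨u, hu1, hu2⟩ := mem_closure_iff.1 hx _ h1 h2
      have h3 := connectedComponentIn_eq hu1
      have h4 := connectedComponentIn_eq (hD ▸ hu2)
      rw [hD, h4, ← h3]
      exact h2
  refine ⟨D, hDo, hb, ?_, hcD, ?_⟩
  · exact disjoint_left.2 fun x hx => hDs hx
  · obtain ⟨y, hy, hmax⟩ := hb.isCompact_closure.exists_isMaxOn ⟨z, subset_closure hzD⟩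
      Complex.continuous_im.continuousOn
    have hym : ∀ w ∈ closure D, w.im ≤ y.im := fun w hw => hmax hw
    have hstep : ∀ ε > 0, ∃ δ : ℝ, 0 < δ ∧ δ < ε := fun ε hε => ⟨ε / 2, half_pos hε, half_lt_self hε⟩
    have hyr : y ∈ range c := by
      rcases hcD hy with h | h
      · exfalso
        obtain ⟨ε, hε, hball⟩ := Metric.isOpen_iff.1 hDo y h
        have h1 : y + (ε / 2 : ℝ) * Complex.I ∈ Metric.ball y ε := by
          rw [Metric.mem_ball, dist_eq_norm]
          simp only [add_sub_cancel_left, norm_mul, Complex.norm_I, mul_one, Complex.norm_real,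
            Real.norm_eq_abs]
          rw [abs_of_pos (half_pos hε)]
          exact half_lt_self hε
        have h2 := hym _ (subset_closure (hball h1))
        simp at h2
        linarith
      · exact h
    refine ⟨y, hyr, hy, ?_⟩
    intro ε hε
    have hU : IsOpen (Metric.ball y ε ∩ {w : ℂ | y.im < w.im}) :=
      Metric.isOpen_ball.inter (isOpen_lt continuous_const Complex.continuous_im)
    have hne : (Metric.ball y ε ∩ {w : ℂ | y.im < w.im}).Nonempty := by
      refine ⟨y + (ε / 2 : ℝ) * Complex.I, ?_, ?_⟩
      · rw [Metric.mem_ball, dist_eq_norm]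
        simp only [add_sub_cancel_left, norm_mul, Complex.norm_I, mul_one, Complex.norm_real,
          Real.norm_eq_abs]
        rw [abs_of_pos (half_pos hε)]
        exact half_lt_self hε
      · simp only [mem_setOf_eq]
        simp
        linarith
    have hns : ¬ (Metric.ball y ε ∩ {w : ℂ | y.im < w.im}) ⊆ range c := by
      intro hsub
      have h1 := interior_maximal hsub hU
      rw [interior_curve c hc] at h1
      obtain ⟨w, hw⟩ := hne
      exact h1 hw
    obtain ⟨w, hw, hwr⟩ := not_subset.1 hns
    refine ⟨w, hw.1, ?_, hwr⟩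
    intro hwD
    have h1 := hym w (subset_closure hwD)
    have h2 : y.im < w.im := hw.2
    linarith

end Pool.Agent.Lib.MP_4b02fd_al
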