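import Pool.Agent.Lib.MP_4b02fd_al.Defs

/-!
# MP_4b02fd_al, topological form: first exit from the rectangle
-/

set_option autoImplicit false

open Topology unitInterval Set

noncomputable section

namespace Pool.Agent.Lib.MP_4b02fd_al

theorem exists_exit {J : Set ℂ} {z w : ℂ} (hz : z ∈ Rect) (hw : w ∉ Rect)
    (h : JoinedIn Jᶜ z w) : ∃ b ∈ Bd, JoinedIn (Rect \ J) z b := by
  obtain ⟨γ, hγ⟩ := h
  set O : Set ℂ := {z | |z.re| < 1 ∧ |z.im| < 2} with hO
  have hOo : IsOpen O := by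
    apply IsOpen.inter
    · exact isOpen_lt (Complex.continuous_re.abs) continuous_const
    · exact isOpen_lt (Complex.continuous_im.abs) continuous_const
  have hOR : O ⊆ Rect := fun x hx => ⟨hx.1.le, hx.2.le⟩
  have hRc : IsClosed Rect := by
    apply IsClosed.inter
    · exact isClosed_le (Complex.continuous_re.abs) continuous_const
    · exact isClosed_le (Complex.continuous_im.abs) continuous_const
  set S : Set I := γ ⁻¹' Oᶜ with hS
  have hSc : IsClosed S := hOo.isClosed_compl.preimage γ.continuous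
  have hSne : S.Nonempty := ⟨1, fun h1 => hw (hOR (by simpa using h1))⟩
  obtain ⟨t₀, ht₀, hmin⟩ := hSc.isCompact.exists_isLeast hSne
  have hlt : ∀ t, t < t₀ → γ t ∈ O := by
    intro t ht
    by_contra hcon
    exact absurd (hmin (show t ∈ S from hcon)) (not_le.mpr ht)
  have hRt₀ : γ t₀ ∈ Rect := by
    rcases eq_or_lt_of_le (show (0 : I) ≤ t₀ from t₀.2.1) with h0 | h0
    · rw [← h0, γ.source]; exact hz
    · have hcl : t₀ ∈ closure (Iio t₀) := by
        rw [closure_Iio' (a := t₀) (⟨0, h0⟩ : (Iio t₀).Nonempty)]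
        exact self_mem_Iic
      have h1 : γ t₀ ∈ closure (γ '' (Iio t₀)) :=
        image_closure_subset_closure_image γ.continuous ⟨t₀, hcl, rfl⟩
      refine hRc.closure_subset_iff.mpr ?_ h1
      rintro _ ⟨t, ht, rfl⟩
      exact hOR (hlt t ht)
  refine ⟨γ t₀, ⟨hRt₀, ?_⟩, ?_⟩
  · by_contra hcon
    push Not at hcon
    exact ht₀ ⟨lt_of_le_of_ne hRt₀.1 hcon.1, lt_of_le_of_ne hRt₀.2 hcon.2⟩
  · refine ⟨⟨⟨fun s => γ (t₀ * s), by fun_prop⟩, by simp, by simp⟩, fun s => ⟨?_, hγ _⟩⟩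
    have hle : t₀ * s ≤ t₀ := unitInterval.mul_le_left
    rcases hle.eq_or_lt with h1 | h1
    · show γ (t₀ * s) ∈ Rect
      rw [h1]; exact hRt₀
    · exact hOR (hlt _ h1)

end Pool.Agent.Lib.MP_4b02fd_al
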