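import Pool.Agent.Lib.MP_4b02fd_al.Inst

/-!
# A finite generation criterion for fundamental groups
-/

set_option autoImplicit false

open Topology unitInterval Set

noncomputable section

namespace Pool.Agent.Lib.MP_4b02fd_al

open Path.Homotopic.Quotient in
/-- The inductive statement: the path up to time `t`, continued to a point of `F` and back to the
base point. -/
private def fgP {X : Type} [TopologicalSpace X] {ι : Type} (U : ι → Set X) (F : Set X) {a b : X}
    (γ : Path a b) (D : ∀ f, Path.Homotopic.Quotient (γ 0) f)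
    (H : Subgroup (FundamentalGroup X (γ 0))) (t : I) : Prop :=
  ∀ i, γ t ∈ U i → ∀ f ∈ F, ∀ ε : Path (γ t) f, range ε ⊆ U i →
    ((mk (γ.subpath 0 t)).trans ((mk ε).trans (D f).symm) : FundamentalGroup X (γ 0)) ∈ H

open Path.Homotopic.Quotient in
private theorem fg_step {X : Type} [TopologicalSpace X] {ι : Type} {U : ι → Set X} {F : Set X}
    (hint : ∀ i j, ∀ x ∈ U i, x ∈ U j → ∃ f ∈ F, JoinedIn (U i ∩ U j) x f)
    {a b : X} (γ : Path a b) (D : ∀ f, Path.Homotopic.Quotient (γ 0) f)
    (C : ι → ∀ f f' : X, Path.Homotopic.Quotient f f')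
    (hC : ∀ i f f' (p : Path f f'), range p ⊆ U i → mk p = C i f f')
    (H : Subgroup (FundamentalGroup X (γ 0)))
    (hH : ∀ i, ∀ f ∈ F, ∀ f' ∈ F,
      ((D f).trans ((C i f f').trans (D f').symm) : FundamentalGroup X (γ 0)) ∈ H)
    {s t : I} {j : ι} (hst : γ '' uIcc s t ⊆ U j) (hP : fgP U F γ D H s) : fgP U F γ D H t := by
  intro i hi f hf ε hε
  have hjt : γ t ∈ U j := hst ⟨t, right_mem_uIcc, rfl⟩
  have hjs : γ s ∈ U j := hst ⟨s, left_mem_uIcc, rfl⟩
  obtain ⟨f', hf', ε', hε'⟩ := hint i j (γ t) hi hjt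
  have h1 := hP j hjs f' hf' ((γ.subpath s t).trans ε') (by
    rw [Path.trans_range, Path.range_subpath]
    refine union_subset hst ?_
    rintro _ ⟨x, rfl⟩
    exact (hε' x).2)
  have h2 := hH i f' hf' f hf
  rw [← hC i f' f (ε'.symm.trans ε) (by
    rw [Path.trans_range, Path.symm_range]
    refine union_subset ?_ hε
    rintro _ ⟨x, rfl⟩
    exact (hε' x).1)] at h2
  have h3 := H.mul_mem h2 h1
  have h4 : mk ((γ.subpath 0 s).trans (γ.subpath s t)) = mk (γ.subpath 0 t) :=
    Path.Homotopic.Quotient.eq.mpr ⟨Path.Homotopy.subpathTransSubpath γ 0 s t⟩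
  rw [FundamentalGroup.mul_def] at h3
  have h5 : (mk (γ.subpath 0 t)).trans ((mk ε).trans (D f).symm) =
      ((mk (γ.subpath 0 s)).trans ((mk ((γ.subpath s t).trans ε')).trans (D f').symm)).trans
        ((D f').trans ((mk (ε'.symm.trans ε)).trans (D f).symm)) := by
    rw [← h4]
    simp only [mk_trans, mk_symm, trans_assoc]
    rw [← trans_assoc (symm (D f')), symm_trans, refl_trans, ← trans_assoc (mk ε'), trans_symm,
      refl_trans]
  rw [h5]
  exact h3

open Path.Homotopic.Quotient in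
private theorem fg_all {X : Type} [TopologicalSpace X] {ι : Type} {U : ι → Set X}
    (hU : ∀ i, IsOpen (U i)) (hcov : ∀ x, ∃ i, x ∈ U i) {F : Set X}
    (hint : ∀ i j, ∀ x ∈ U i, x ∈ U j → ∃ f ∈ F, JoinedIn (U i ∩ U j) x f)
    {a b : X} (γ : Path a b) (D : ∀ f, Path.Homotopic.Quotient (γ 0) f)
    (hD : D (γ 0) = .refl _) (hF : γ 0 ∈ F)
    (C : ι → ∀ f f' : X, Path.Homotopic.Quotient f f')
    (hC : ∀ i f f' (p : Path f f'), range p ⊆ U i → mk p = C i f f')
    (H : Subgroup (FundamentalGroup X (γ 0)))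
    (hH : ∀ i, ∀ f ∈ F, ∀ f' ∈ F,
      ((D f).trans ((C i f f').trans (D f').symm) : FundamentalGroup X (γ 0)) ∈ H)
    (t : I) : fgP U F γ D H t := by
  have h0 : fgP U F γ D H 0 := by
    intro i hi f hf ε hε
    have h2 := hH i (γ 0) hF f hf
    rw [hD, ← hC i (γ 0) f ε hε] at h2
    rw [Path.subpath_self]
    exact h2
  have h1 : (fgP U F γ D H 0 → fgP U F γ D H t) := by
    refine PreconnectedSpace.induction₂' (fun s t : I => fgP U F γ D H s → fgP U F γ D H t) ?_
      ⟨fun _ _ _ h h' => h' ∘ h⟩ 0 t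
    intro s
    obtain ⟨j, hj⟩ := hcov (γ s)
    have hopen : γ ⁻¹' U j ∈ 𝓝 s := (hU j).preimage γ.continuous |>.mem_nhds hj
    have h2 : ∀ᶠ t in 𝓝 s, uIcc s t ⊆ γ ⁻¹' U j := by
      have h3 : Filter.Tendsto (fun t : I => uIcc s t) (𝓝 s) (𝓝 s).smallSets :=
        tendsto_const_nhds.uIcc Filter.tendsto_id
      exact h3 (Filter.eventually_smallSets_subset.mpr hopen)
    filter_upwards [h2] with t ht
    refine ⟨fg_step hint γ D C hC H hH (image_subset_iff.mpr ht), ?_⟩
    refine fg_step hint γ D C hC H hH (j := j) ?_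
    rw [uIcc_comm]
    exact image_subset_iff.mpr ht
  exact h1 h0

open Path.Homotopic.Quotient in
/-- A path connected space covered by finitely many open sets, such that paths inside one of them
with the same end points are homotopic and such that finitely many points meet all path components
of their pairwise intersections, has finitely generated fundamental group. -/
theorem fg_of_cover {X : Type} [TopologicalSpace X] [PathConnectedSpace X] {ι : Type} [Finite ι]
    {U : ι → Set X} (hU : ∀ i, IsOpen (U i)) (hcov : ∀ x, ∃ i, x ∈ U i)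
    (hsc : ∀ i, ∀ x y, ∀ p r : Path x y, range p ⊆ U i → range r ⊆ U i → p.Homotopic r)
    {F : Set X} (hF : F.Finite)
    (hint : ∀ i j, ∀ x ∈ U i, x ∈ U j → ∃ f ∈ F, JoinedIn (U i ∩ U j) x f) (x0 : X) :
    Group.FG (FundamentalGroup X x0) := by
  classical
  -- connecting classes
  have hCex : ∀ i (f f' : X), ∃ c : Path.Homotopic.Quotient f f',
      ∀ p : Path f f', range p ⊆ U i → mk p = c := by
    intro i f f'
    by_cases h : ∃ p : Path f f', range p ⊆ U i
    · obtain ⟨p, hp⟩ := h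
      exact ⟨mk p, fun r hr => Path.Homotopic.Quotient.eq.mpr (hsc i _ _ r p hr hp)⟩
    · exact ⟨mk (PathConnectedSpace.somePath f f'), fun r hr => absurd ⟨r, hr⟩ h⟩
  choose C hC using hCex
  obtain ⟨D, hD⟩ : ∃ D : ∀ f, Path.Homotopic.Quotient x0 f, D x0 = .refl x0 :=
    ⟨Function.update (fun f => mk (PathConnectedSpace.somePath x0 f)) x0 (.refl x0),
      Function.update_self _ _ _⟩
  let F' : Set X := insert x0 F
  have hF' : F'.Finite := hF.insert x0
  let S : Set (FundamentalGroup X x0) :=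
    ⋃ i : ι, ⋃ f ∈ F', ⋃ f' ∈ F', {(D f).trans ((C i f f').trans (D f').symm)}
  have hS : S.Finite :=
    finite_iUnion fun i => hF'.biUnion fun f _ => hF'.biUnion fun f' _ => finite_singleton _
  have hS' : ∀ i, ∀ f ∈ F', ∀ f' ∈ F',
      ((D f).trans ((C i f f').trans (D f').symm) : FundamentalGroup X x0) ∈
        Subgroup.closure S := by
    intro i f hf f' hf'
    apply Subgroup.subset_closure
    simp only [S, mem_iUnion]
    exact ⟨i, f, hf, f', hf', rfl⟩
  have hint' : ∀ i j, ∀ x ∈ U i, x ∈ U j → ∃ f ∈ F', JoinedIn (U i ∩ U j) x f := by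
    intro i j x hi hj
    obtain ⟨f, hf, h⟩ := hint i j x hi hj
    exact ⟨f, mem_insert_of_mem _ hf, h⟩
  rw [Group.fg_iff]
  refine ⟨S, ?_, hS⟩
  rw [eq_top_iff]
  intro g _
  obtain ⟨γ, hγ⟩ := Path.Homotopic.Quotient.mk_surjective (FundamentalGroup.toPath g)
  have hg : g = mk γ := hγ.symm
  rw [hg]
  -- transport to the base point `γ 0`
  have key : ∀ (y : X) (hy : γ 0 = y) (D : ∀ f, Path.Homotopic.Quotient y f),
      D y = .refl y → y ∈ F' → ∀ (H : Subgroup (FundamentalGroup X y)),
      (∀ i, ∀ f ∈ F', ∀ f' ∈ F',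
        ((D f).trans ((C i f f').trans (D f').symm) : FundamentalGroup X y) ∈ H) →
      ∀ (hy' : γ 1 = y), (mk ((γ.subpath 0 1).cast hy.symm hy'.symm) : FundamentalGroup X y) ∈ H := by
    intro y hy
    subst hy
    intro D hD hF0 H hH hy'
    have h1 := fg_all hU hcov hint' γ D hD hF0 C hC H hH 1
    obtain ⟨i, hi⟩ := hcov (γ 1)
    have h2 := h1 i hi (γ 0) hF0 ((Path.refl (γ 1)).cast rfl hy'.symm) (by
      rintro _ ⟨x, rfl⟩
      exact hi)
    rw [hD] at h2
    convert h2 using 1
    have h3 : mk ((γ.subpath 0 1).cast rfl hy'.symm) =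
        mk ((γ.subpath 0 1).trans ((Path.refl (γ 1)).cast rfl hy'.symm)) := by
      apply Path.Homotopic.Quotient.eq.mpr
      have h4 : (γ.subpath 0 1).trans ((Path.refl (γ 1)).cast rfl hy'.symm) =
          ((γ.subpath 0 1).trans (Path.refl (γ 1))).cast rfl hy'.symm := rfl
      rw [h4]
      exact (Path.Homotopic.trans_refl _).symm.pathCast rfl hy'.symm
    rw [h3, mk_trans]
    congr 1
    change _ = (mk _).trans (mk (Path.refl _)).symm
    rw [← mk_symm, ← mk_trans, Path.refl_symm]
    exact Path.Homotopic.Quotient.eq.mpr (Path.Homotopic.trans_refl _).symm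
  have h5 := key x0 γ.source D hD (mem_insert _ _) (Subgroup.closure S) hS' γ.target
  have h6 : (γ.subpath 0 1).cast γ.source.symm γ.target.symm = γ := by
    rw [Path.subpath_zero_one]
    rfl
  rw [h6] at h5
  exact h5

end Pool.Agent.Lib.MP_4b02fd_al
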