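import Pool.Agent.Lib.MP_4b02fd_al.FinGen
import Pool.Agent.Lib.MP_4b02fd_al.ConnPT

/-!
# MP_4b02fd_al, topological form: the fundamental group of the punctured torus is finitely
generated
-/

set_option autoImplicit false

open Topology unitInterval Set

noncomputable section

namespace Pool.Agent.Lib.MP_4b02fd_al

private theorem fp_ne {y y' : ℝ} (h : |y - y'| < 1) (hne : y ≠ y') :
    ((y : ℝ) : UnitAddCircle) ≠ ((y' : ℝ) : UnitAddCircle) := by
  intro h1
  have h3 : ((y - y' : ℝ) : UnitAddCircle) = 0 := by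
    rw [AddCircle.coe_sub, h1, sub_self]
  rw [AddCircle.coe_eq_zero_iff] at h3
  obtain ⟨n, hn⟩ := h3
  have h4 : (n : ℝ) = y - y' := by simpa using hn
  rw [← h4, ← Int.cast_abs] at h
  have h5 : |n| < 1 := by exact_mod_cast h
  have h6 : n = 0 := Int.abs_lt_one_iff.mp h5
  rw [h6, Int.cast_zero] at h4
  exact hne (by linarith)

/-- The open square with lower left corner `(a, b)` in the torus. -/
private def sq (a b : ℝ) : Set PT := {x | x.1.1 ≠ (a : UnitAddCircle) ∧ x.1.2 ≠ (b : UnitAddCircle)}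

private theorem sq_open (a b : ℝ) : IsOpen (sq a b) := by
  have h1 : Continuous fun x : PT => x.1.1 := continuous_fst.comp continuous_subtype_val
  have h2 : Continuous fun x : PT => x.1.2 := continuous_snd.comp continuous_subtype_val
  exact (isOpen_compl_singleton.preimage h1).inter (isOpen_compl_singleton.preimage h2)

private theorem sq_homotopic (a b : ℝ) (hab : (a : UnitAddCircle) = 0 ∨ (b : UnitAddCircle) = 0)
    {x y : PT} (p r : Path x y) (hp : range p ⊆ sq a b) (hr : range r ⊆ sq a b) :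
    p.Homotopic r := by
  let ea := AddCircle.openPartialHomeomorphCoe (1 : ℝ) a
  let eb := AddCircle.openPartialHomeomorphCoe (1 : ℝ) b
  -- coordinates of paths
  have hlift : ∀ w : Path x y, range w ⊆ sq a b →
      Continuous (fun t : I => ea.symm (w t).1.1) ∧ Continuous (fun t : I => eb.symm (w t).1.2) ∧
      (∀ t, ea.symm (w t).1.1 ∈ Ioo a (a + 1)) ∧ (∀ t, eb.symm (w t).1.2 ∈ Ioo b (b + 1)) ∧
      (∀ t, ((ea.symm (w t).1.1 : ℝ) : UnitAddCircle) = (w t).1.1) ∧
      (∀ t, ((eb.symm (w t).1.2 : ℝ) : UnitAddCircle) = (w t).1.2) := by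
    intro w hw
    have h1 : ∀ t, (w t).1.1 ∈ ea.target := fun t => (hw ⟨t, rfl⟩).1
    have h2 : ∀ t, (w t).1.2 ∈ eb.target := fun t => (hw ⟨t, rfl⟩).2
    have c1 : Continuous fun t : I => (w t).1.1 :=
      continuous_fst.comp (continuous_subtype_val.comp w.continuous)
    have c2 : Continuous fun t : I => (w t).1.2 :=
      continuous_snd.comp (continuous_subtype_val.comp w.continuous)
    exact ⟨ea.continuousOn_symm.comp_continuous c1 h1, eb.continuousOn_symm.comp_continuous c2 h2,
      fun t => ea.map_target (h1 t), fun t => eb.map_target (h2 t),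
      fun t => ea.right_inv (h1 t), fun t => eb.right_inv (h2 t)⟩
  obtain ⟨p1, p2, p3, p4, p5, p6⟩ := hlift p hp
  obtain ⟨r1, r2, r3, r4, r5, r6⟩ := hlift r hr
  have hmem : ∀ (c u v : ℝ) (s : I), u ∈ Ioo c (c + 1) → v ∈ Ioo c (c + 1) →
      (1 - (s : ℝ)) * u + s * v ∈ Ioo c (c + 1) := by
    intro c u v s hu hv
    have := (convex_Ioo c (c + 1)) hu hv (a := 1 - (s : ℝ)) (b := (s : ℝ))
      (by linarith [s.2.2]) s.2.1 (by ring)
    simpa using this
  have hcne : ∀ (c u : ℝ), u ∈ Ioo c (c + 1) → ((u : ℝ) : UnitAddCircle) ≠ (c : UnitAddCircle) := by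
    intro c u hu
    apply fp_ne
    · rw [abs_lt]
      constructor <;> linarith [hu.1, hu.2]
    · exact hu.1.ne'
  have hne : ∀ s t : I,
      ((((1 - (s : ℝ)) * ea.symm (p t).1.1 + s * ea.symm (r t).1.1 : ℝ) : UnitAddCircle),
        (((1 - (s : ℝ)) * eb.symm (p t).1.2 + s * eb.symm (r t).1.2 : ℝ) : UnitAddCircle)) ≠
        (0 : T2) := by
    intro s t h
    have ha := hcne a _ (hmem a _ _ s (p3 t) (r3 t))
    have hb := hcne b _ (hmem b _ _ s (p4 t) (r4 t))
    rcases hab with h0 | h0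
    · rw [h0] at ha
      exact ha (congrArg Prod.fst h)
    · rw [h0] at hb
      exact hb (congrArg Prod.snd h)
  refine ⟨⟨⟨⟨fun st => ⟨_, hne st.1 st.2⟩, ?_⟩, ?_, ?_⟩, ?_⟩⟩
  · apply Continuous.subtype_mk
    have q1 := p1.comp (continuous_snd (X := I) (Y := I))
    have q2 := p2.comp (continuous_snd (X := I) (Y := I))
    have q3 := r1.comp (continuous_snd (X := I) (Y := I))
    have q4 := r2.comp (continuous_snd (X := I) (Y := I))
    have s1 : Continuous fun st : I × I => ((st.1 : I) : ℝ) :=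
      continuous_subtype_val.comp continuous_fst
    refine Continuous.prodMk ?_ ?_
    · exact (AddCircle.continuous_mk' 1).comp
        (((continuous_const.sub s1).mul q1).add (s1.mul q3))
    · exact (AddCircle.continuous_mk' 1).comp
        (((continuous_const.sub s1).mul q2).add (s1.mul q4))
  · intro t
    apply Subtype.ext
    apply Prod.ext
    · simpa using p5 t
    · simpa using p6 t
  · intro t
    apply Subtype.ext
    apply Prod.ext
    · simpa using r5 t
    · simpa using r6 t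
  · intro s t ht
    have hpr : p t = r t := by
      rcases ht with rfl | ht
      · rw [p.source, r.source]
      · rw [mem_singleton_iff.mp ht, p.target, r.target]
    apply Subtype.ext
    apply Prod.ext
    · change (((1 - (s : ℝ)) * ea.symm (p t).1.1 + s * ea.symm (r t).1.1 : ℝ) : UnitAddCircle) =
        (p t).1.1
      rw [← hpr, ← p5 t]
      congr 1
      ring_nf
      rw [p5 t]
    · change (((1 - (s : ℝ)) * eb.symm (p t).1.2 + s * eb.symm (r t).1.2 : ℝ) : UnitAddCircle) =
        (p t).1.2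
      rw [← hpr, ← p6 t]
      congr 1
      ring_nf
      rw [p6 t]

/-- A point of the circle is joined to `1/4` or `3/4` avoiding `0` and `1/2`, except at the
start. -/
private theorem circle_path (x : UnitAddCircle) : ∃ f : UnitAddCircle,
    (f = ((1 / 4 : ℝ) : UnitAddCircle) ∨ f = ((3 / 4 : ℝ) : UnitAddCircle)) ∧
    ∃ p : Path x f, ∀ s, p s = x ∨
      (p s ≠ ((0 : ℝ) : UnitAddCircle) ∧ p s ≠ ((1 / 2 : ℝ) : UnitAddCircle)) := by
  obtain ⟨y, rfl⟩ := QuotientAddGroup.mk_surjective x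
  have hfr : ((Int.fract y : ℝ) : UnitAddCircle) = (y : UnitAddCircle) := by
    rw [← sub_eq_zero, ← AddCircle.coe_sub, AddCircle.coe_eq_zero_iff]
    refine ⟨-⌊y⌋, ?_⟩
    simp only [zsmul_eq_mul, mul_one, Int.cast_neg]
    linarith [Int.floor_add_fract y]
  have h0 := Int.fract_nonneg y
  have h1 := Int.fract_lt_one y
  set t := Int.fract y with ht
  have key : ∀ e : ℝ, (∀ s : I, (1 - (s : ℝ)) * t + s * e = t ∨
      ((0 < (1 - (s : ℝ)) * t + s * e ∧ (1 - (s : ℝ)) * t + s * e < 1) ∧
        (1 - (s : ℝ)) * t + s * e ≠ 1 / 2)) →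
      ∃ p : Path (QuotientAddGroup.mk y : UnitAddCircle) ((e : ℝ) : UnitAddCircle),
        ∀ s, p s = (QuotientAddGroup.mk y : UnitAddCircle) ∨
      (p s ≠ ((0 : ℝ) : UnitAddCircle) ∧ p s ≠ ((1 / 2 : ℝ) : UnitAddCircle)) := by
    intro e he
    refine ⟨⟨⟨fun s => (((1 - (s : ℝ)) * t + s * e : ℝ) : UnitAddCircle), ?_⟩, ?_, ?_⟩, ?_⟩
    · exact (AddCircle.continuous_mk' 1).comp (by fun_prop)
    · simpa using hfr
    · simp
    · intro s
      rcases he s with h | ⟨⟨h2, h3⟩, h4⟩
      · left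
        change (((1 - (s : ℝ)) * t + s * e : ℝ) : UnitAddCircle) = _
        rw [h]
        exact hfr
      · right
        constructor
        · apply fp_ne
          · rw [sub_zero, abs_of_pos h2]
            exact h3
          · exact h2.ne'
        · apply fp_ne
          · rw [abs_lt]
            constructor <;> linarith
          · exact h4
  by_cases hle : t ≤ 1 / 2
  · refine ⟨((1 / 4 : ℝ) : UnitAddCircle), Or.inl rfl, key _ ?_⟩
    intro s
    by_cases hs : (s : ℝ) = 0
    · left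
      rw [hs]
      ring
    · right
      have hs0 : (0 : ℝ) < s := lt_of_le_of_ne s.2.1 (Ne.symm hs)
      have hs1 : (s : ℝ) ≤ 1 := s.2.2
      have e1 : 0 ≤ (1 - (s : ℝ)) * t := mul_nonneg (by linarith) h0
      have e2 : (1 - (s : ℝ)) * t ≤ (1 - (s : ℝ)) * (1 / 2) :=
        mul_le_mul_of_nonneg_left hle (by linarith)
      refine ⟨⟨by linarith, by linarith⟩, ?_⟩
      apply ne_of_lt
      linarith
  · refine ⟨((3 / 4 : ℝ) : UnitAddCircle), Or.inr rfl, key _ ?_⟩
    intro s
    right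
    have hgt : 1 / 2 < t := not_le.mp hle
    have hs0 : (0 : ℝ) ≤ s := s.2.1
    have hs1 : (s : ℝ) ≤ 1 := s.2.2
    have hm : (1 - (s : ℝ)) * t + s * (3 / 4) ∈ Ioo (1 / 2 : ℝ) 1 := by
      have := (convex_Ioo (1 / 2 : ℝ) 1) (x := t) ⟨hgt, h1⟩ (y := 3 / 4)
        ⟨by norm_num, by norm_num⟩ (a := 1 - (s : ℝ)) (b := (s : ℝ)) (by linarith) hs0 (by ring)
      simpa using this
    exact ⟨⟨by linarith [hm.1], hm.2⟩, hm.1.ne'⟩

/-- The corners of the three squares. -/
private def ca : Fin 3 → ℝ := ![0, 1 / 2, 0]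
private def cb : Fin 3 → ℝ := ![0, 0, 1 / 2]

theorem fg_PT : Group.FG (FundamentalGroup PT x0) := by
  have := pathConnectedSpace_PT
  have hca : ∀ i, ca i = 0 ∨ ca i = 1 / 2 := by
    intro i
    fin_cases i <;> simp [ca]
  have hcb : ∀ i, cb i = 0 ∨ cb i = 1 / 2 := by
    intro i
    fin_cases i <;> simp [cb]
  have hc0 : ∀ i, ca i = 0 ∨ cb i = 0 := by
    intro i
    fin_cases i <;> simp [ca, cb]
  let F : Set PT := {f | f.1.1 ∈ ({((1 / 4 : ℝ) : UnitAddCircle), ((3 / 4 : ℝ) : UnitAddCircle)} :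
      Set UnitAddCircle) ∧
    f.1.2 ∈ ({((1 / 4 : ℝ) : UnitAddCircle), ((3 / 4 : ℝ) : UnitAddCircle)} : Set UnitAddCircle)}
  have hF : F.Finite := by
    have h1 : (({((1 / 4 : ℝ) : UnitAddCircle), ((3 / 4 : ℝ) : UnitAddCircle)} :
        Set UnitAddCircle) ×ˢ ({((1 / 4 : ℝ) : UnitAddCircle), ((3 / 4 : ℝ) : UnitAddCircle)} :
        Set UnitAddCircle)).Finite := (toFinite _).prod (toFinite _)
    exact (h1.preimage Subtype.val_injective.injOn).subset fun f hf => ⟨hf.1, hf.2⟩
  refine fg_of_cover (U := fun i : Fin 3 => sq (ca i) (cb i)) (fun i => sq_open _ _) ?_ ?_ hF ?_ x0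
  · intro x
    by_cases h2 : x.1.2 = ((0 : ℝ) : UnitAddCircle)
    · have h1 : x.1.1 ≠ ((0 : ℝ) : UnitAddCircle) := by
        intro h1
        exact x.2 (Prod.ext (by rw [h1]; rfl) (by rw [h2]; rfl))
      refine ⟨2, h1, ?_⟩
      change x.1.2 ≠ (((1 / 2 : ℝ)) : UnitAddCircle)
      rw [h2]
      apply fp_ne
      · rw [abs_lt]; constructor <;> norm_num
      · norm_num
    · by_cases h1 : x.1.1 = ((0 : ℝ) : UnitAddCircle)
      · refine ⟨1, ?_, h2⟩
        change x.1.1 ≠ (((1 / 2 : ℝ)) : UnitAddCircle)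
        rw [h1]
        apply fp_ne
        · rw [abs_lt]; constructor <;> norm_num
        · norm_num
      · exact ⟨0, h1, h2⟩
  · intro i x y p r hp hr
    refine sq_homotopic (ca i) (cb i) ?_ p r hp hr
    rcases hc0 i with h | h
    · left
      rw [h]
      rfl
    · right
      rw [h]
      rfl
  · intro i j x hi hj
    obtain ⟨f1, hf1, p1, hp1⟩ := circle_path x.1.1
    obtain ⟨f2, hf2, p2, hp2⟩ := circle_path x.1.2
    have hne : ∀ s, ((p1 s, p2 s) : T2) ≠ 0 := by
      intro s h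
      have e1 : p1 s = 0 := congrArg Prod.fst h
      have e2 : p2 s = 0 := congrArg Prod.snd h
      rcases hp1 s with h1 | h1
      · rcases hp2 s with h2 | h2
        · exact x.2 (Prod.ext (by rw [← h1, e1]; rfl) (by rw [← h2, e2]; rfl))
        · exact h2.1 e2
      · exact h1.1 e1
    have hfne : ((f1, f2) : T2) ≠ 0 := by
      have := hne 1
      rwa [p1.target, p2.target] at this
    have hcont : Continuous fun s : I => (⟨(p1 s, p2 s), hne s⟩ : PT) :=
      (p1.continuous.prodMk p2.continuous).subtype_mk _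
    let P : Path x (⟨(f1, f2), hfne⟩ : PT) :=
      { toFun := fun s => ⟨(p1 s, p2 s), hne s⟩
        continuous_toFun := hcont
        source' := Subtype.ext (Prod.ext p1.source p2.source)
        target' := Subtype.ext (Prod.ext p1.target p2.target) }
    refine ⟨⟨(f1, f2), hfne⟩, ⟨hf1, hf2⟩, P, ?_⟩
    have hgen : ∀ (c : ℝ), (c = 0 ∨ c = 1 / 2) → ∀ z : UnitAddCircle,
        (z ≠ ((0 : ℝ) : UnitAddCircle) ∧ z ≠ ((1 / 2 : ℝ) : UnitAddCircle)) →
        z ≠ (c : UnitAddCircle) := by
      rintro c (rfl | rfl) z hz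
      · exact hz.1
      · exact hz.2
    intro s
    refine ⟨⟨?_, ?_⟩, ⟨?_, ?_⟩⟩
    · rcases hp1 s with h | h
      · change p1 s ≠ _
        rw [h]
        exact hi.1
      · exact hgen _ (hca i) _ h
    · rcases hp2 s with h | h
      · change p2 s ≠ _
        rw [h]
        exact hi.2
      · exact hgen _ (hcb i) _ h
    · rcases hp1 s with h | h
      · change p1 s ≠ _
        rw [h]
        exact hj.1
      · exact hgen _ (hca j) _ h
    · rcases hp2 s with h | h
      · change p2 s ≠ _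
        rw [h]
        exact hj.2
      · exact hgen _ (hcb j) _ h

end Pool.Agent.Lib.MP_4b02fd_al
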