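import Pool.Agent.Lib.MP_4b02fd_al.Defs

/-!
# MP_4b02fd_al, topological form: the projection of the plane onto the torus
-/

set_option autoImplicit false

open Topology unitInterval Set

noncomputable section

namespace Pool.Agent.Lib.MP_4b02fd_al

private lemma gi_re (m : ℤ × ℤ) : (gi m).re = m.1 := by
  simp [gi]

private lemma gi_im (m : ℤ × ℤ) : (gi m).im = m.2 := by
  simp [gi]

private lemma coe_eq_iff (x y : ℝ) : (x : UnitAddCircle) = (y : UnitAddCircle) ↔ ∃ n : ℤ, x = y + n := by
  rw [← sub_eq_zero, ← AddCircle.coe_sub, AddCircle.coe_eq_zero_iff]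
  constructor
  · rintro ⟨n, hn⟩
    refine ⟨n, ?_⟩
    simp only [zsmul_eq_mul, mul_one] at hn
    linarith
  · rintro ⟨n, hn⟩
    refine ⟨n, ?_⟩
    simp only [zsmul_eq_mul, mul_one]
    linarith

theorem q_eq_iff (z w : ℂ) : q z = q w ↔ ∃ m, z = w + gi m := by
  unfold q
  rw [Prod.mk.injEq, coe_eq_iff, coe_eq_iff]
  constructor
  · rintro ⟨⟨a, ha⟩, ⟨b, hb⟩⟩
    refine ⟨(a, b), ?_⟩
    apply Complex.ext
    · rw [Complex.add_re, gi_re, ha]
    · rw [Complex.add_im, gi_im, hb]
  · rintro ⟨m, hm⟩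
    refine ⟨⟨m.1, ?_⟩, ⟨m.2, ?_⟩⟩
    · rw [hm, Complex.add_re, gi_re]
    · rw [hm, Complex.add_im, gi_im]

theorem q_eq_zero_iff (z : ℂ) : q z = 0 ↔ ∃ m, z = gi m := by
  have h0 : q 0 = 0 := by
    simp [q]
  rw [← h0, q_eq_iff]
  simp only [zero_add]

theorem continuous_q : Continuous q := by
  have h : Continuous fun t : ℝ => ((t : ℝ) : UnitAddCircle) := AddCircle.continuous_mk' 1
  exact (h.comp Complex.continuous_re).prodMk (h.comp Complex.continuous_im)

theorem isOpenMap_q : IsOpenMap q := by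
  have h : IsOpenMap fun t : ℝ => ((t : ℝ) : UnitAddCircle) := QuotientAddGroup.isOpenMap_coe
  exact (h.prodMap h).comp Complex.equivRealProdCLM.toHomeomorph.isOpenMap

theorem q_surjective : Function.Surjective q := by
  rintro ⟨a, b⟩
  induction a using QuotientAddGroup.induction_on with
  | H a =>
    induction b using QuotientAddGroup.induction_on with
    | H b => exact ⟨⟨a, b⟩, rfl⟩

theorem gi_injective : Function.Injective gi := by
  intro m n h
  have h1 := congrArg Complex.re h
  have h2 := congrArg Complex.im h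
  rw [gi_re, gi_re] at h1
  rw [gi_im, gi_im] at h2
  exact Prod.ext (by exact_mod_cast h1) (by exact_mod_cast h2)

theorem gi_add (m n : ℤ × ℤ) : gi (m + n) = gi m + gi n := by
  apply Complex.ext
  · rw [Complex.add_re, gi_re, gi_re, gi_re]
    simp
  · rw [Complex.add_im, gi_im, gi_im, gi_im]
    simp

end Pool.Agent.Lib.MP_4b02fd_al
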