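import Pool.Agent.Lib.MP_4b02fd_al.TurnTools
import Pool.Agent.Lib.MP_4b02fd_al.Lift

/-!
# MP_4b02fd_al, topological form: the standard generators
-/

set_option autoImplicit false

open Topology unitInterval Set

noncomputable section

namespace Pool.Agent.Lib.MP_4b02fd_al

private theorem Loops_z0_ne (m : ℤ × ℤ) : z0 ≠ gi m := by
  intro h
  exact x0.2 ((q_eq_zero_iff z0).2 ⟨m, h⟩)

private theorem Loops_gen (b : ℂ) (v : ℤ × ℤ) (hb : b = z0 + gi v)
    (hq : ∀ t : I, q (z0 + (t : ℝ) * (b - z0)) ≠ 0)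
    (hs : ∀ m, (b - gi m) / (z0 - gi m) ∈ Complex.slitPlane) :
    ∃ γ : Path x0 x0, IsVal γ
      ⟨fun m => ((b - gi m) / (z0 - gi m)).arg / (2 * Real.pi), v⟩ := by
  have hc : Continuous (fun t : I => z0 + ((t : ℝ) : ℂ) * (b - z0)) := by fun_prop
  let γ : Path x0 x0 :=
    { toFun := fun t => ⟨q (z0 + (t : ℝ) * (b - z0)), hq t⟩
      continuous_toFun := (continuous_q.comp hc).subtype_mk _
      source' := by
        apply Subtype.ext
        show q (z0 + (((0 : I) : ℝ) : ℂ) * (b - z0)) = q z0
        simp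
      target' := by
        apply Subtype.ext
        show q (z0 + (((1 : I) : ℝ) : ℂ) * (b - z0)) = q z0
        rw [q_eq_iff]
        refine ⟨v, ?_⟩
        rw [hb]
        simp }
  refine ⟨γ, fun t => z0 + (t : ℝ) * (b - z0), ⟨hc, by simp, fun t => rfl⟩, ?_, ?_⟩
  · rw [hb]
    simp
  · intro m
    exact turns_segment (Loops_z0_ne m) (hs m)

/-- The loop whose lift is the segment from `z0` to `z0 + 1`. -/
theorem exists_loopA : ∃ γ : Path x0 x0, IsVal γ
    ⟨fun m => ((z0 + 1 - gi m) / (z0 - gi m)).arg / (2 * Real.pi), (1, 0)⟩ := by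
  refine Loops_gen (z0 + 1) (1, 0) (by simp [gi]) ?_ ?_
  · intro t h
    have h2 := congrArg Prod.snd h
    simp only [q, z0] at h2
    apply half_ne
    refine Eq.trans ?_ h2
    congr 1
    simp
  · intro m
    rw [Complex.mem_slitPlane_iff]
    right
    have hne : z0 - gi m ≠ 0 := sub_ne_zero.2 (Loops_z0_ne m)
    have h1 : (z0 + 1 - gi m) / (z0 - gi m) = 1 + (z0 - gi m)⁻¹ := by
      field_simp
      ring
    have h2 : (z0 - gi m).im ≠ 0 := by
      simp only [z0, gi, Complex.sub_im, Complex.add_im, Complex.intCast_im, Complex.mul_im,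
        Complex.intCast_re, Complex.I_re, Complex.I_im]
      intro h3
      have h4 : (m.2 : ℝ) * 2 = 1 := by linarith
      have h5 : m.2 * 2 = 1 := by exact_mod_cast h4
      omega
    rw [h1, Complex.add_im, Complex.one_im, Complex.inv_im, zero_add]
    exact div_ne_zero (neg_ne_zero.2 h2) (Complex.normSq_pos.2 hne).ne'

/-- The loop whose lift is the segment from `z0` to `z0 + i`. -/
theorem exists_loopB : ∃ γ : Path x0 x0, IsVal γ
    ⟨fun m => ((z0 + Complex.I - gi m) / (z0 - gi m)).arg / (2 * Real.pi), (0, 1)⟩ := by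
  refine Loops_gen (z0 + Complex.I) (0, 1) (by simp [gi]) ?_ ?_
  · intro t h
    have h2 := congrArg Prod.fst h
    simp only [q, z0] at h2
    apply half_ne
    refine Eq.trans ?_ h2
    congr 1
    simp
  · intro m
    rw [Complex.mem_slitPlane_iff]
    right
    have hne : z0 - gi m ≠ 0 := sub_ne_zero.2 (Loops_z0_ne m)
    have h1 : (z0 + Complex.I - gi m) / (z0 - gi m) = 1 + Complex.I * (z0 - gi m)⁻¹ := by
      field_simp
      ring
    have h2 : (z0 - gi m).re ≠ 0 := by
      simp only [z0, gi, Complex.sub_re, Complex.add_re, Complex.intCast_im, Complex.mul_re,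
        Complex.intCast_re, Complex.I_re, Complex.I_im]
      intro h3
      have h4 : (m.1 : ℝ) * 2 = 1 := by linarith
      have h5 : m.1 * 2 = 1 := by exact_mod_cast h4
      omega
    rw [h1, Complex.add_im, Complex.one_im, Complex.I_mul_im, Complex.inv_re, zero_add]
    exact div_ne_zero h2 (Complex.normSq_pos.2 hne).ne'

end Pool.Agent.Lib.MP_4b02fd_al
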