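import Pool.Agent.Lib.MP_4b02fd_al.Defs

/-!
# MP_4b02fd_al, topological form: the group `Q`
-/

set_option autoImplicit false

open Topology unitInterval Set

noncomputable section

namespace Pool.Agent.Lib.MP_4b02fd_al

theorem Q.bdd_mul {C D : ℝ} {p r : Q} (hp : Q.Bdd C p) (hr : Q.Bdd D r) :
    Q.Bdd (C + D) (p * r) := by
  intro x
  rw [Q.mul_f, add_comm C D]
  exact (abs_add_le _ _).trans (add_le_add (hr x) (hp _))

theorem Q.bdd_inv {C : ℝ} {p : Q} (hp : Q.Bdd C p) : Q.Bdd C p⁻¹ := by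
  intro x
  rw [Q.inv_f, abs_neg]
  exact hp _

theorem Q.bdd_list {C : ℝ} (l : List Q) (h : ∀ x ∈ l, Q.Bdd C x) :
    Q.Bdd (C * l.length) l.prod := by
  induction l with
  | nil =>
    intro x
    simp [Q.one_f]
  | cons p l ih =>
    rw [List.prod_cons, List.length_cons]
    have h1 := ih (fun x hx => h x (List.mem_cons_of_mem _ hx))
    have h2 := Q.bdd_mul (h p List.mem_cons_self) h1
    have h3 : C + C * (l.length : ℝ) = C * ((l.length + 1 : ℕ) : ℝ) := by push_cast; ring
    rwa [h3] at h2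

/-- The homomorphism to `ℤ²`. -/
def Q.vHom : Q →* Multiplicative (ℤ × ℤ) where
  toFun p := Multiplicative.ofAdd p.v
  map_one' := rfl
  map_mul' _ _ := rfl

theorem Q.derived_two : derivedSeries Q 2 = ⊥ := by
  have h1 : derivedSeries Q 1 ≤ Q.vHom.ker := by
    rw [derivedSeries_one]
    exact Abelianization.commutator_subset_ker Q.vHom
  rw [derivedSeries_succ, eq_bot_iff, Subgroup.commutator_le]
  intro p hp q hq
  have hp' : p.v = 0 := Multiplicative.ofAdd.injective (MonoidHom.mem_ker.mp (h1 hp))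
  have hq' : q.v = 0 := Multiplicative.ofAdd.injective (MonoidHom.mem_ker.mp (h1 hq))
  rw [Subgroup.mem_bot, commutatorElement_eq_one_iff_mul_comm]
  apply Q.ext
  · funext x
    simp only [Q.mul_f, hp', hq', sub_zero, add_comm]
  · simp only [Q.mul_v, hp', hq']

end Pool.Agent.Lib.MP_4b02fd_al
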