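import Pool.Agent.Lib.MP_4b02fd_al.Defs

/-!
# MP_4b02fd_al, topological form: turning numbers of the unit square
-/

set_option autoImplicit false

open Topology unitInterval Set

noncomputable section

namespace Pool.Agent.Lib.MP_4b02fd_al

private theorem Square_arg_div {P P' w : ℂ} (h : 0 < (P / w).re)
    (h' : 0 < (P' / w).re) : (P / P').arg = (P / w).arg - (P' / w).arg := by
  have hP : P / w ≠ 0 := by
    intro h0
    rw [h0] at h
    simp at h
  have hP' : P' / w ≠ 0 := by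
    intro h0
    rw [h0] at h'
    simp at h'
  have hw : w ≠ 0 := by
    intro h0
    rw [h0] at hP
    simp at hP
  have h1 : P / P' = (P / w) * (P' / w)⁻¹ := by
    have hP'0 : P' ≠ 0 := by
      intro h0
      rw [h0] at hP'
      simp at hP'
    field_simp
  have b1 := Complex.abs_arg_lt_pi_div_two_iff.2 (Or.inl h)
  have b2 := Complex.abs_arg_lt_pi_div_two_iff.2 (Or.inl h')
  rw [abs_lt] at b1 b2
  have hpi := Real.pi_pos
  have h2 : (P' / w)⁻¹.arg = -(P' / w).arg := by
    rw [Complex.arg_inv, if_neg]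
    intro h3
    linarith [b2.2]
  rw [h1, (Complex.arg_mul_eq_add_arg_iff hP (inv_ne_zero hP')).2, h2, sub_eq_add_neg]
  rw [h2]
  constructor <;> linarith [b1.1, b1.2, b2.1, b2.2]

private theorem Square_re_pos {a b : ℤ} (hab : a ≠ 0 ∨ b ≠ 0) {x y : ℝ} (hx : |x| = 1 / 2)
    (hy : |y| = 1 / 2) : 0 < ((⟨a + x, b + y⟩ : ℂ) / (⟨a, b⟩ : ℂ)).re := by
  have hsq : 0 < (a : ℝ) ^ 2 + (b : ℝ) ^ 2 := by
    rcases hab with h | h
    · have : (a : ℝ) ≠ 0 := by exact_mod_cast h
      positivity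
    · have : (b : ℝ) ≠ 0 := by exact_mod_cast h
      positivity
  have ha : |(a : ℝ)| ≤ (a : ℝ) ^ 2 := by
    have h1 : |a| ≤ a ^ 2 := by
      rcases eq_or_ne a 0 with h | h
      · rw [h]
        simp
      · have h2 : 1 ≤ |a| := Int.one_le_abs h
        rw [← sq_abs]
        nlinarith
    exact_mod_cast h1
  have hb : |(b : ℝ)| ≤ (b : ℝ) ^ 2 := by
    have h1 : |b| ≤ b ^ 2 := by
      rcases eq_or_ne b 0 with h | h
      · rw [h]
        simp
      · have h2 : 1 ≤ |b| := Int.one_le_abs h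
        rw [← sq_abs]
        nlinarith
    exact_mod_cast h1
  have h1 : -(1 / 2 * (a : ℝ) ^ 2) ≤ a * x := by
    have h2 : |(a : ℝ) * x| ≤ 1 / 2 * (a : ℝ) ^ 2 := by
      rw [abs_mul, hx]
      linarith
    exact (abs_le.1 h2).1
  have h2 : -(1 / 2 * (b : ℝ) ^ 2) ≤ b * y := by
    have h2 : |(b : ℝ) * y| ≤ 1 / 2 * (b : ℝ) ^ 2 := by
      rw [abs_mul, hy]
      linarith
    exact (abs_le.1 h2).1
  rw [Complex.div_re]
  simp only [Complex.normSq_mk]
  have h3 : (0 : ℝ) < (a : ℝ) * a + b * b := by nlinarith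
  rw [← add_div]
  apply div_pos _ h3
  nlinarith

/-- The unit square with lower left corner `z0` turns once around `1 + i` and not around the
other Gaussian integers. -/
theorem square_turn (m : ℤ × ℤ) :
    ((z0 + 1 - gi m) / (z0 - gi m)).arg
      + ((z0 + Complex.I - gi (m - (1, 0))) / (z0 - gi (m - (1, 0)))).arg
      - ((z0 + 1 - gi (m - (0, 1))) / (z0 - gi (m - (0, 1)))).arg
      - ((z0 + Complex.I - gi m) / (z0 - gi m)).arg
      = if m = (1, 1) then 2 * Real.pi else 0 := by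
  obtain ⟨m1, m2⟩ := m
  set a : ℤ := 1 - m1 with ha
  set b : ℤ := 1 - m2 with hb
  have hm1 : (m1 : ℝ) = 1 - a := by
    rw [ha]
    push_cast
    ring
  have hm2 : (m2 : ℝ) = 1 - b := by
    rw [hb]
    push_cast
    ring
  have e0 : z0 - gi (m1, m2) = ⟨a + (-1 / 2), b + (-1 / 2)⟩ := by
    apply Complex.ext <;> simp [z0, gi, hm1, hm2] <;> ring
  have e1 : z0 + 1 - gi (m1, m2) = ⟨a + 1 / 2, b + (-1 / 2)⟩ := by
    apply Complex.ext <;> simp [z0, gi, hm1, hm2] <;> ring
  have e2 : z0 + Complex.I - gi ((m1, m2) - (1, 0)) = ⟨a + 1 / 2, b + 1 / 2⟩ := by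
    apply Complex.ext <;> simp [z0, gi, hm1, hm2] <;> ring
  have e3 : z0 - gi ((m1, m2) - (1, 0)) = ⟨a + 1 / 2, b + (-1 / 2)⟩ := by
    apply Complex.ext <;> simp [z0, gi, hm1, hm2] <;> ring
  have e4 : z0 + 1 - gi ((m1, m2) - (0, 1)) = ⟨a + 1 / 2, b + 1 / 2⟩ := by
    apply Complex.ext <;> simp [z0, gi, hm1, hm2] <;> ring
  have e5 : z0 - gi ((m1, m2) - (0, 1)) = ⟨a + (-1 / 2), b + 1 / 2⟩ := by
    apply Complex.ext <;> simp [z0, gi, hm1, hm2] <;> ring
  have e6 : z0 + Complex.I - gi (m1, m2) = ⟨a + (-1 / 2), b + 1 / 2⟩ := by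
    apply Complex.ext <;> simp [z0, gi, hm1, hm2] <;> ring
  rw [e0, e1, e2, e3, e4, e5, e6]
  by_cases hab : a ≠ 0 ∨ b ≠ 0
  · have hne : ¬ ((m1, m2) = ((1, 1) : ℤ × ℤ)) := by
      intro h
      rw [Prod.mk.injEq] at h
      omega
    rw [if_neg hne]
    have hp : |(1 / 2 : ℝ)| = 1 / 2 := by norm_num
    have hn : |(-1 / 2 : ℝ)| = 1 / 2 := by norm_num
    rw [Square_arg_div (Square_re_pos hab hp hn) (Square_re_pos hab hn hn),
      Square_arg_div (Square_re_pos hab hp hp) (Square_re_pos hab hp hn),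
      Square_arg_div (Square_re_pos hab hp hp) (Square_re_pos hab hn hp),
      Square_arg_div (Square_re_pos hab hn hp) (Square_re_pos hab hn hn)]
    ring
  · push Not at hab
    have h1 : m1 = 1 := by omega
    have h2 : m2 = 1 := by omega
    rw [if_pos (by rw [h1, h2]), hab.1, hab.2]
    simp only [Int.cast_zero, zero_add]
    have q1 : ((⟨1 / 2, -1 / 2⟩ : ℂ) / ⟨-1 / 2, -1 / 2⟩) = Complex.I := by
      rw [div_eq_iff]
      · apply Complex.ext <;> simp <;> norm_num
      · intro h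
        have := congrArg Complex.re h
        norm_num at this
    have q2 : ((⟨1 / 2, 1 / 2⟩ : ℂ) / ⟨1 / 2, -1 / 2⟩) = Complex.I := by
      rw [div_eq_iff]
      · apply Complex.ext <;> simp <;> norm_num
      · intro h
        have := congrArg Complex.re h
        norm_num at this
    have q3 : ((⟨1 / 2, 1 / 2⟩ : ℂ) / ⟨-1 / 2, 1 / 2⟩) = -Complex.I := by
      rw [div_eq_iff]
      · apply Complex.ext <;> simp <;> norm_num
      · intro h
        have := congrArg Complex.re h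
        norm_num at this
    have q4 : ((⟨-1 / 2, 1 / 2⟩ : ℂ) / ⟨-1 / 2, -1 / 2⟩) = -Complex.I := by
      rw [div_eq_iff]
      · apply Complex.ext <;> simp <;> norm_num
      · intro h
        have := congrArg Complex.re h
        norm_num at this
    rw [q1, q2, q3, q4, Complex.arg_I, Complex.arg_neg_I]
    ring

end Pool.Agent.Lib.MP_4b02fd_al
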