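import Pool.Agent.Lib.MP_4b02fd_al.Lift

/-!
# MP_4b02fd_al, topological form: lifts of maps to the torus
-/

set_option autoImplicit false

open Topology unitInterval Set

noncomputable section

namespace Pool.Agent.Lib.MP_4b02fd_al

private lemma liftmap_circle {X : Type} [TopologicalSpace X] [SimplyConnectedSpace X]
    [LocallyPathConnectedSpace X] (F : C(X, UnitAddCircle)) (a : X) (z : ℝ)
    (hz : ((z : ℝ) : UnitAddCircle) = F a) :
    ∃ C : C(X, ℝ), C a = z ∧ ∀ x, ((C x : ℝ) : UnitAddCircle) = F x := by
  obtain ⟨C, ⟨h1, h2⟩, -⟩ :=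
    (AddCircle.isCoveringMap_coe (1 : ℝ)).existsUnique_continuousMap_lifts F a z hz
  exact ⟨C, h1, fun x => congrFun h2 x⟩

/-- Maps from simply connected spaces to the torus lift. -/
theorem exists_lift {X : Type} [TopologicalSpace X] [SimplyConnectedSpace X]
    [LocallyPathConnectedSpace X] (F : C(X, T2)) (a : X) (z : ℂ) (hz : q z = F a) :
    ∃ C : C(X, ℂ), C a = z ∧ ∀ x, q (C x) = F x := by
  obtain ⟨C₁, h1, h2⟩ := liftmap_circle (⟨fun x => (F x).1, continuous_fst.comp F.continuous⟩) a z.re
    (congrArg Prod.fst hz)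
  obtain ⟨C₂, h3, h4⟩ := liftmap_circle (⟨fun x => (F x).2, continuous_snd.comp F.continuous⟩) a z.im
    (congrArg Prod.snd hz)
  refine ⟨⟨fun x => Complex.equivRealProdCLM.symm (C₁ x, C₂ x), ?_⟩, ?_, ?_⟩
  · exact Complex.equivRealProdCLM.symm.continuous.comp (C₁.continuous.prodMk C₂.continuous)
  · show Complex.equivRealProdCLM.symm (C₁ a, C₂ a) = z
    rw [h1, h3]
    exact Complex.equivRealProdCLM.symm_apply_apply z
  · intro x
    show q (Complex.equivRealProdCLM.symm (C₁ x, C₂ x)) = F x
    apply Prod.ext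
    · have := h2 x
      simpa [q] using this
    · have := h4 x
      simpa [q] using this

private lemma liftmap_const {X : Type} [TopologicalSpace X] [PreconnectedSpace X] {f : X → ℝ}
    (hf : Continuous f) (h : ∀ x, ∃ n : ℤ, f x = n) (a b : X) : f a = f b := by
  have hd : (range f).Subsingleton := by
    have hpre : IsPreconnected (range f) := isPreconnected_range hf
    have hcount : (range f).Countable := by
      apply (countable_range (fun n : ℤ => (n : ℝ))).mono
      rintro _ ⟨x, rfl⟩
      obtain ⟨n, hn⟩ := h x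
      exact ⟨n, hn.symm⟩
    intro u hu v hv
    by_contra hne
    rcases lt_or_gt_of_ne hne with hlt | hlt
    · have hsub : Icc u v ⊆ range f := hpre.Icc_subset hu hv
      exact (Cardinal.Real.Icc_countable_iff.mp (hcount.mono hsub)).not_gt hlt
    · have hsub : Icc v u ⊆ range f := hpre.Icc_subset hv hu
      exact (Cardinal.Real.Icc_countable_iff.mp (hcount.mono hsub)).not_gt hlt
  exact hd (mem_range_self a) (mem_range_self b)

theorem lift_unique {X : Type} [TopologicalSpace X] [PreconnectedSpace X] {C C' : X → ℂ}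
    (hC : Continuous C) (hC' : Continuous C') (h : ∀ x, q (C x) = q (C' x)) (a b : X) :
    C a - C' a = C b - C' b := by
  have hD : Continuous fun x => C x - C' x := hC.sub hC'
  have hm : ∀ x, ∃ m, C x - C' x = gi m := by
    intro x
    obtain ⟨m, hm⟩ := (q_eq_iff _ _).mp (h x)
    exact ⟨m, by rw [hm]; ring⟩
  apply Complex.ext
  · refine liftmap_const (Complex.continuous_re.comp hD) ?_ a b
    intro x
    obtain ⟨m, hm⟩ := hm x
    refine ⟨m.1, ?_⟩
    simp only [Function.comp_apply, hm]
    simp [gi]
  · refine liftmap_const (Complex.continuous_im.comp hD) ?_ a b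
    intro x
    obtain ⟨m, hm⟩ := hm x
    refine ⟨m.2, ?_⟩
    simp only [Function.comp_apply, hm]
    simp [gi]

end Pool.Agent.Lib.MP_4b02fd_al
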