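import Pool.Agent.Lib.MP_4b02fd_al.TurnTrans
import Pool.Agent.Lib.MP_4b02fd_al.LiftMap

/-!
# MP_4b02fd_al, topological form: existence and homotopy invariance of the value
-/

set_option autoImplicit false

open Topology unitInterval Set

noncomputable section

namespace Pool.Agent.Lib.MP_4b02fd_al

private theorem val_cont : Continuous (fun x : PT => x.1) := continuous_subtype_val

private theorem val_ne {z : ℂ} {x : PT} (h : q z = x.1) (m : ℤ × ℤ) : z ≠ gi m := by
  intro hz
  exact x.2 (h.symm.trans ((q_eq_zero_iff z).2 ⟨m, hz⟩))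

theorem exists_val (γ : Path x0 x0) : ∃ p, IsVal γ p := by
  obtain ⟨C, hC0, hC⟩ := exists_lift (⟨fun t : I => (γ t).1, val_cont.comp γ.continuous⟩ :
    C(I, T2)) 0 z0 (by
      change q z0 = (γ 0).1
      rw [γ.source]
      rfl)
  have hC' : ∀ t, q (C t) = (γ t).1 := hC
  have h1 : q (C 1) = q z0 := by
    rw [hC' 1, γ.target]
    rfl
  obtain ⟨v, hv⟩ := (q_eq_iff _ _).1 h1
  choose f hf using fun m : ℤ × ℤ => exists_turns C.continuous (fun t => val_ne (hC' t) m)
  exact ⟨⟨f, v⟩, C, ⟨C.continuous, hC0, hC'⟩, hv, hf⟩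

theorem val_homotopic {γ γ' : Path x0 x0} (h : γ.Homotopic γ') {p p' : Q}
    (hp : IsVal γ p) (hp' : IsVal γ' p') : p = p' := by
  obtain ⟨H⟩ := h
  obtain ⟨c, ⟨hc, hc0, hcq⟩, hc1, hcf⟩ := hp
  obtain ⟨c', ⟨hc', hc0', hcq'⟩, hc1', hcf'⟩ := hp'
  obtain ⟨C, hC0, hC⟩ := exists_lift (⟨fun x : I × I => (H x).1, val_cont.comp H.continuous⟩ :
    C(I × I, T2)) (0, 0) z0 (by
      change q z0 = (H (0, 0)).1
      rw [H.apply_zero]
      change q z0 = (γ 0).1
      rw [γ.source]
      rfl)
  have hC' : ∀ x, q (C x) = (H x).1 := hC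
  have hs0 : ∀ s, H (s, 0) = x0 := fun s => by
    have := H.source s
    exact this
  have hs1 : ∀ s, H (s, 1) = x0 := fun s => by
    have := H.target s
    exact this
  have h0 : ∀ s, C (s, 0) = C (0, 0) := by
    intro s
    have h1 := lift_unique (C := fun s : I => C (s, 0)) (C' := fun _ : I => C (0, 0))
      (C.continuous.comp (by fun_prop)) continuous_const (by
        intro s
        rw [hC', hC', hs0, hs0]) s 0
    exact sub_left_inj.1 h1
  have h1 : ∀ s, C (s, 1) = C (0, 1) := by
    intro s
    have h1 := lift_unique (C := fun s : I => C (s, 1)) (C' := fun _ : I => C (0, 1))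
      (C.continuous.comp (by fun_prop)) continuous_const (by
        intro s
        rw [hC', hC', hs1, hs1]) s 0
    exact sub_left_inj.1 h1
  have hcC : c = fun t => C (0, t) := by
    funext t
    have h2 := lift_unique (C := c) (C' := fun t : I => C (0, t)) hc
      (C.continuous.comp (by fun_prop)) (by
        intro t
        rw [hC', hcq]
        exact congrArg Subtype.val (H.apply_zero t).symm) t 0
    rw [hc0, hC0, sub_self] at h2
    exact sub_eq_zero.1 h2
  have hcC' : c' = fun t => C (1, t) := by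
    funext t
    have h2 := lift_unique (C := c') (C' := fun t : I => C (1, t)) hc'
      (C.continuous.comp (by fun_prop)) (by
        intro t
        rw [hC', hcq']
        exact congrArg Subtype.val (H.apply_one t).symm) t 0
    rw [hc0', h0 1, hC0, sub_self] at h2
    exact sub_eq_zero.1 h2
  have hne : ∀ m x, C x ≠ gi m := fun m x => val_ne (hC' x) m
  apply Q.ext
  · funext m
    have e1 := hcf m
    have e2 := hcf' m
    rw [hcC] at e1
    rw [hcC'] at e2
    exact turns_homotopy (hne m) h0 h1 e1 e2
  · apply gi_injective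
    have e1 : c 1 = C (0, 1) := by rw [hcC]
    have e2 : c' 1 = C (1, 1) := by rw [hcC']
    rw [hc1] at e1
    rw [hc1', h1 1, ← e1] at e2
    exact (add_left_cancel e2).symm

end Pool.Agent.Lib.MP_4b02fd_al
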