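import Pool.Agent.Lib.MP_4b02fd_al.Rho
import Pool.Agent.Lib.MP_4b02fd_al.Decay
import Pool.Agent.Lib.MP_4b02fd_al.Loops
import Pool.Agent.Lib.MP_4b02fd_al.Square
import Pool.Agent.Lib.MP_4b02fd_al.Alg
import Pool.Agent.Lib.MP_4b02fd_al.Val
import Pool.Agent.Lib.MP_4b02fd_al.QAlg

/-!
# MP_4b02fd_al, topological form: the fundamental group of the punctured torus maps well to `Q`
-/

set_option autoImplicit false

open Topology unitInterval Set

noncomputable section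

namespace Pool.Agent.Lib.MP_4b02fd_al

private theorem GoodRho_v_pow (p : Q) (n : ℤ) : (p ^ n).v = n • p.v := by
  have h : Q.vHom (p ^ n) = (Q.vHom p) ^ n := map_zpow Q.vHom p n
  have h2 := congrArg Multiplicative.toAdd h
  exact h2

theorem goodMap_rho (ρ : FundamentalGroup PT x0 →* Q)
    (hρ : ∀ γ : Path x0 x0,
      IsVal γ (ρ (Path.Homotopic.Quotient.mk γ : Path.Homotopic.Quotient x0 x0))) :
    GoodMap ρ := by
  obtain ⟨γA, hA⟩ := exists_loopA
  obtain ⟨γB, hB⟩ := exists_loopB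
  have hA' := val_homotopic (Path.Homotopic.refl γA) (hρ γA) hA
  have hB' := val_homotopic (Path.Homotopic.refl γB) (hρ γB) hB
  obtain ⟨A, hAdef⟩ : ∃ A : FundamentalGroup PT x0, ρ A =
      ⟨fun m => ((z0 + 1 - gi m) / (z0 - gi m)).arg / (2 * Real.pi), (1, 0)⟩ := ⟨_, hA'⟩
  obtain ⟨B, hBdef⟩ : ∃ B : FundamentalGroup PT x0, ρ B =
      ⟨fun m => ((z0 + Complex.I - gi m) / (z0 - gi m)).arg / (2 * Real.pi), (0, 1)⟩ := ⟨_, hB'⟩
  refine ⟨?_, ?_, ?_⟩
  · intro g
    obtain ⟨γ, hγ⟩ := Path.Homotopic.Quotient.mk_surjective g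
    have h1 := hρ γ
    rw [hγ] at h1
    exact val_decay h1
  · refine ⟨B⁻¹ * A⁻¹ * B * A, (1, 1), ?_, ?_⟩
    · simp only [map_mul, map_inv, Q.mul_v, Q.inv_v, hAdef, hBdef]
      simp
    · funext m
      simp only [map_mul, map_inv, Q.mul_f, Q.inv_f, Q.inv_v, hAdef, hBdef]
      have e1 : m - (1, 0) - (0, 1) + (1, 0) = m - (0, 1) := by abel
      have e2 : m - (1, 0) - (0, 1) - -(1, 0) + (0, 1) = m := by abel
      rw [e1, e2]
      have h := square_turn m
      have hpi : (0 : ℝ) < 2 * Real.pi := by positivity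
      have h2 : (Pi.single (1, 1) (1 : ℝ) : ℤ × ℤ → ℝ) m =
          (if m = (1, 1) then 2 * Real.pi else 0) / (2 * Real.pi) := by
        by_cases hm : m = (1, 1)
        · rw [if_pos hm, hm, Pi.single_eq_same, div_self hpi.ne']
        · rw [if_neg hm, Pi.single_eq_of_ne hm, zero_div]
      rw [h2, ← h]
      ring
  · rintro ⟨w1, w2⟩
    refine ⟨A ^ w1 * B ^ w2, ?_⟩
    rw [map_mul, map_zpow, map_zpow, Q.mul_v, GoodRho_v_pow, GoodRho_v_pow, hAdef, hBdef]
    simp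

end Pool.Agent.Lib.MP_4b02fd_al
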