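import Pool.Agent.Lib.MP_4b02fd_al.Defs

/-!
# MP_4b02fd_al, topological form: cutting a simple closed curve into two arcs
-/

set_option autoImplicit false

open Topology unitInterval Set

noncomputable section

namespace Pool.Agent.Lib.MP_4b02fd_al

theorem exists_two_arcs (c : C(UnitAddCircle, ℂ)) (hc : Function.Injective c) {a b : ℂ}
    (ha : a ∈ range c) (hb : b ∈ range c) (hab : a ≠ b) :
    ∃ p₁ p₂ : C(I, ℂ), Function.Injective p₁ ∧ Function.Injective p₂ ∧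
      p₁ 0 = a ∧ p₁ 1 = b ∧ p₂ 0 = a ∧ p₂ 1 = b ∧ range p₁ ∪ range p₂ = range c ∧
      ∀ z, z ∈ range p₁ → z ∈ range p₂ → z = a ∨ z = b := by
  obtain ⟨a', rfl⟩ := ha
  obtain ⟨b', rfl⟩ := hb
  obtain ⟨s, rfl⟩ : ∃ s : ℝ, (s : UnitAddCircle) = a' := QuotientAddGroup.mk_surjective a'
  have hb1 : b' ∈ ((↑) : ℝ → UnitAddCircle) '' Ico s (s + 1) := by
    rw [AddCircle.coe_image_Ico_eq (1 : ℝ) s]
    exact mem_univ _
  obtain ⟨t, ht, rfl⟩ := hb1
  have hst : s < t := by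
    rcases lt_or_eq_of_le ht.1 with h | h
    · exact h
    · exact absurd (by rw [h]) hab
  have ht1 : t < s + 1 := ht.2
  have hper : ((s + 1 : ℝ) : UnitAddCircle) = (s : UnitAddCircle) := by
    have h := AddCircle.coe_add_period (1 : ℝ) s
    exact h
  have key : ∀ u x y : ℝ, x ∈ Ico u (u + 1) → y ∈ Ico u (u + 1) →
      (x : UnitAddCircle) = (y : UnitAddCircle) → x = y := fun u x y hx hy h =>
    (AddCircle.coe_eq_coe_iff_of_mem_Ico (p := (1 : ℝ)) hx hy).1 h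
  have hcoe : Continuous ((↑) : ℝ → UnitAddCircle) := AddCircle.continuous_mk' 1
  have hd1 : 0 < t - s := sub_pos.2 hst
  have hd2 : 0 < s + 1 - t := sub_pos.2 ht1
  have hm1 : ∀ x : I, s ≤ s + (x : ℝ) * (t - s) ∧ s + (x : ℝ) * (t - s) ≤ t := fun x =>
    ⟨by nlinarith [mul_nonneg x.2.1 hd1.le], by nlinarith [mul_le_mul_of_nonneg_right x.2.2 hd1.le]⟩
  have hm2 : ∀ x : I, t ≤ s + 1 - (x : ℝ) * (s + 1 - t) ∧ s + 1 - (x : ℝ) * (s + 1 - t) ≤ s + 1 :=
    fun x => ⟨by nlinarith [mul_le_mul_of_nonneg_right x.2.2 hd2.le],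
      by nlinarith [mul_nonneg x.2.1 hd2.le]⟩
  refine ⟨⟨fun x : I => c ((s + (x : ℝ) * (t - s) : ℝ) : UnitAddCircle),
      c.continuous.comp (hcoe.comp (by fun_prop))⟩,
    ⟨fun x : I => c ((s + 1 - (x : ℝ) * (s + 1 - t) : ℝ) : UnitAddCircle),
      c.continuous.comp (hcoe.comp (by fun_prop))⟩, ?_, ?_, ?_, ?_, ?_, ?_, ?_, ?_⟩
  · intro x y hxy
    have h1 := key s _ _ ⟨(hm1 x).1, (hm1 x).2.trans_lt ht1⟩ ⟨(hm1 y).1, (hm1 y).2.trans_lt ht1⟩
      (hc hxy)
    have h2 : (x : ℝ) * (t - s) = (y : ℝ) * (t - s) := by linarith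
    exact Subtype.ext (mul_right_cancel₀ hd1.ne' h2)
  · intro x y hxy
    have h1 := key t _ _ ⟨(hm2 x).1, by linarith [(hm2 x).2]⟩ ⟨(hm2 y).1, by linarith [(hm2 y).2]⟩
      (hc hxy)
    have h2 : (x : ℝ) * (s + 1 - t) = (y : ℝ) * (s + 1 - t) := by linarith
    exact Subtype.ext (mul_right_cancel₀ hd2.ne' h2)
  · simp
  · simp
  · show c _ = c _
    congr 1
    simpa using hper
  · simp
  · apply Subset.antisymm
    · rintro z (⟨x, rfl⟩ | ⟨x, rfl⟩)
      · exact ⟨_, rfl⟩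
      · exact ⟨_, rfl⟩
    · rintro z ⟨w, rfl⟩
      have hw : w ∈ ((↑) : ℝ → UnitAddCircle) '' Ico s (s + 1) := by
        rw [AddCircle.coe_image_Ico_eq (1 : ℝ) s]
        exact mem_univ _
      obtain ⟨r, hr, rfl⟩ := hw
      by_cases hrt : r ≤ t
      · left
        refine ⟨⟨(r - s) / (t - s), div_nonneg (by linarith [hr.1]) hd1.le,
          (div_le_one hd1).2 (by linarith)⟩, ?_⟩
        show c _ = c _
        congr 2
        show s + (r - s) / (t - s) * (t - s) = r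
        rw [div_mul_cancel₀ _ hd1.ne']
        ring
      · right
        push Not at hrt
        refine ⟨⟨(s + 1 - r) / (s + 1 - t), div_nonneg (by linarith [hr.2]) hd2.le,
          (div_le_one hd2).2 (by linarith)⟩, ?_⟩
        show c _ = c _
        congr 2
        show s + 1 - (s + 1 - r) / (s + 1 - t) * (s + 1 - t) = r
        rw [div_mul_cancel₀ _ hd2.ne']
        ring
  · rintro z ⟨x, hx⟩ ⟨y, hy⟩
    have hx' : c ((s + (x : ℝ) * (t - s) : ℝ) : UnitAddCircle) = z := hx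
    have hy' : c ((s + 1 - (y : ℝ) * (s + 1 - t) : ℝ) : UnitAddCircle) = z := hy
    rcases lt_or_eq_of_le (hm2 y).2 with h | h
    · right
      have h1 := key s _ _ ⟨(hm1 x).1, (hm1 x).2.trans_lt ht1⟩ ⟨by linarith [(hm2 y).1], h⟩
        (hc (hx'.trans hy'.symm))
      have h2 : s + (x : ℝ) * (t - s) = t := le_antisymm (hm1 x).2 (h1 ▸ (hm2 y).1)
      rw [← hx', h2]
    · left
      rw [← hy', h, hper]

end Pool.Agent.Lib.MP_4b02fd_al
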