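import Pool.Agent.Lib.MP_4b02fd_al.Maehara
import Pool.Agent.Lib.MP_4b02fd_al.TwoArcs

/-!
# MP_4b02fd_al, topological form: a simple closed curve separates the plane
-/

set_option autoImplicit false

open Topology unitInterval Set

noncomputable section

namespace Pool.Agent.Lib.MP_4b02fd_al

/-- The similarity taking `a` to `-1` and `b` to `1`. -/
private def sim (a b : ℂ) (hab : b - a ≠ 0) : ℂ ≃ₜ ℂ where
  toFun z := (2 * z - a - b) / (b - a)
  invFun w := (w * (b - a) + a + b) / 2
  left_inv z := by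
    show ((2 * z - a - b) / (b - a) * (b - a) + a + b) / 2 = z
    rw [div_mul_cancel₀ _ hab]
    ring
  right_inv w := by
    show (2 * ((w * (b - a) + a + b) / 2) - a - b) / (b - a) = w
    rw [div_eq_iff hab]
    ring
  continuous_toFun := by fun_prop
  continuous_invFun := by fun_prop

private theorem sim_apply (a b : ℂ) (hab : b - a ≠ 0) (z : ℂ) :
    sim a b hab z = (2 * z - a - b) / (b - a) := rfl

theorem jordan_sep (c : C(UnitAddCircle, ℂ)) (hc : Function.Injective c) :
    ∃ z, z ∉ range c ∧ Bornology.IsBounded (connectedComponentIn (range c)ᶜ z) := by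
  obtain ⟨xy, -, hmax⟩ := (isCompact_univ : IsCompact (univ : Set (UnitAddCircle × UnitAddCircle))).exists_isMaxOn
    ⟨(0, 0), mem_univ _⟩ (f := fun xy => ‖c xy.2 - c xy.1‖)
    (by
      have h1 : Continuous fun xy : UnitAddCircle × UnitAddCircle => c xy.2 :=
        c.continuous.comp continuous_snd
      have h2 : Continuous fun xy : UnitAddCircle × UnitAddCircle => c xy.1 :=
        c.continuous.comp continuous_fst
      exact (h1.sub h2).norm.continuousOn)
  obtain ⟨x, y⟩ := xy
  have hM : ∀ u v : UnitAddCircle, ‖c v - c u‖ ≤ ‖c y - c x‖ := fun u v =>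
    hmax (mem_univ (u, v))
  have hne : c y - c x ≠ 0 := by
    intro h
    have h1 := hM 0 ((1 / 2 : ℝ) : UnitAddCircle)
    rw [h, norm_zero] at h1
    have h2 : c ((1 / 2 : ℝ) : UnitAddCircle) - c 0 = 0 := norm_le_zero_iff.1 h1
    exact half_ne (hc (sub_eq_zero.1 h2))
  have hpos : 0 < ‖c y - c x‖ := norm_pos_iff.2 hne
  have hxy : c x ≠ c y := fun h => hne (by rw [h, sub_self])
  obtain ⟨p₁, p₂, i₁, i₂, h10, h11, h20, h21, hr, hm⟩ :=
    exists_two_arcs c hc ⟨x, rfl⟩ ⟨y, rfl⟩ hxy
  set f := sim (c x) (c y) hne with hf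
  have fx : f (c x) = -1 := by
    rw [hf, sim_apply, div_eq_iff hne]
    ring
  have fy : f (c y) = 1 := by
    rw [hf, sim_apply, div_eq_iff hne]
    ring
  have hR : range (fun t => f (p₁ t)) ∪ range (fun t => f (p₂ t)) = f '' range c := by
    rw [← hr, image_union, ← range_comp, ← range_comp]
    rfl
  obtain ⟨z, hz, hb⟩ := maehara (p₁ := ⟨fun t => f (p₁ t), f.continuous.comp p₁.continuous⟩)
    (p₂ := ⟨fun t => f (p₂ t), f.continuous.comp p₂.continuous⟩)
    (f.injective.comp i₁) (f.injective.comp i₂)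
    (by show f (p₁ 0) = -1; rw [h10, fx]) (by show f (p₁ 1) = 1; rw [h11, fy])
    (by show f (p₂ 0) = -1; rw [h20, fx]) (by show f (p₂ 1) = 1; rw [h21, fy])
    (by
      rintro w ⟨t, ht⟩ ⟨s, hs⟩
      have ht' : f (p₁ t) = w := ht
      have hs' : f (p₂ s) = w := hs
      have h1 : p₁ t = p₂ s := f.injective (ht'.trans hs'.symm)
      rcases hm (p₁ t) ⟨t, rfl⟩ ⟨s, h1.symm⟩ with h | h
      · right
        rw [← ht', h, fx]
      · left
        rw [← ht', h, fy])
    (by
      intro w hw
      have hw' : w ∈ f '' range c := by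
        rw [← hR]
        exact hw
      obtain ⟨_, ⟨u, rfl⟩, rfl⟩ := hw'
      constructor
      · have h1 : f (c u) + 1 = 2 * ((c u - c x) / (c y - c x)) := by
          rw [hf, sim_apply]
          field_simp
          ring
        rw [h1, norm_mul, norm_div]
        have h2 : ‖c u - c x‖ / ‖c y - c x‖ ≤ 1 := (div_le_one hpos).2 (hM x u)
        have h3 : ‖(2 : ℂ)‖ = 2 := by norm_num
        rw [h3]
        linarith
      · have h1 : f (c u) - 1 = 2 * ((c u - c y) / (c y - c x)) := by
          rw [hf, sim_apply]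
          field_simp
          ring
        rw [h1, norm_mul, norm_div]
        have h2 : ‖c u - c y‖ / ‖c y - c x‖ ≤ 1 := (div_le_one hpos).2 (hM y u)
        have h3 : ‖(2 : ℂ)‖ = 2 := by norm_num
        rw [h3]
        linarith)
  have hR' : range (⇑(⟨fun t => f (p₁ t), f.continuous.comp p₁.continuous⟩ : C(I, ℂ))) ∪
      range (⇑(⟨fun t => f (p₂ t), f.continuous.comp p₂.continuous⟩ : C(I, ℂ))) = f '' range c := hR
  rw [hR'] at hz hb
  have hz2 : f.symm z ∈ (range c)ᶜ := by
    intro h
    exact hz ⟨f.symm z, h, f.apply_symm_apply z⟩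
  refine ⟨f.symm z, hz2, ?_⟩
  have h3 := f.image_connectedComponentIn hz2
  rw [image_compl_eq f.bijective, f.apply_symm_apply] at h3
  rw [← h3] at hb
  have h4 : connectedComponentIn (range c)ᶜ (f.symm z) =
      f.symm '' (f '' connectedComponentIn (range c)ᶜ (f.symm z)) := by
    rw [← image_comp]
    simp
  rw [h4]
  exact (hb.isCompact_closure.image f.symm.continuous).isBounded.subset
    (image_mono subset_closure)

end Pool.Agent.Lib.MP_4b02fd_al
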