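import Pool.Agent.Lib.MP_4b02fd_al.NotJoined
import Pool.Agent.Lib.MP_4b02fd_al.Bound
import Pool.Agent.Lib.MP_4b02fd_al.Exit
import Pool.Agent.Lib.MP_4b02fd_al.Arc

/-!
# MP_4b02fd_al, topological form: two arcs with common end points separate the plane
-/

set_option autoImplicit false

open Topology unitInterval Set

noncomputable section

namespace Pool.Agent.Lib.MP_4b02fd_al

private lemma mh_sq {z : ℂ} (h : ‖z + 1‖ ≤ 2 ∧ ‖z - 1‖ ≤ 2) :
    (z.re + 1) ^ 2 + z.im ^ 2 ≤ 4 ∧ (z.re - 1) ^ 2 + z.im ^ 2 ≤ 4 := by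
  have h1 : ‖z + 1‖ ^ 2 = (z.re + 1) ^ 2 + z.im ^ 2 := by
    rw [Complex.sq_norm, Complex.normSq_apply]
    simp
    ring
  have h2 : ‖z - 1‖ ^ 2 = (z.re - 1) ^ 2 + z.im ^ 2 := by
    rw [Complex.sq_norm, Complex.normSq_apply]
    simp
    ring
  rw [← h1, ← h2]
  constructor
  · nlinarith [h.1, norm_nonneg (z + 1)]
  · nlinarith [h.2, norm_nonneg (z - 1)]

private lemma mh_rect {z : ℂ} (h : ‖z + 1‖ ≤ 2 ∧ ‖z - 1‖ ≤ 2) : z ∈ Rect := by
  obtain ⟨h1, h2⟩ := mh_sq h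
  refine ⟨abs_le.mpr ⟨?_, ?_⟩, abs_le.mpr ⟨?_, ?_⟩⟩ <;> nlinarith

private lemma mh_im {z : ℂ} (h : ‖z + 1‖ ≤ 2 ∧ ‖z - 1‖ ≤ 2) : z.im ^ 2 ≤ 3 := by
  obtain ⟨h1, h2⟩ := mh_sq h
  nlinarith

private lemma mh_bd {z : ℂ} (h : ‖z + 1‖ ≤ 2 ∧ ‖z - 1‖ ≤ 2) (hz : z ∈ Bd) : z = 1 ∨ z = -1 := by
  obtain ⟨h1, h2⟩ := mh_sq h
  obtain ⟨-, h3 | h3⟩ := hz
  · rcases eq_or_eq_neg_of_abs_eq h3 with h4 | h4
    · left
      rw [h4] at h1
      have : z.im = 0 := by nlinarith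
      exact Complex.ext (by simp [h4]) (by simp [this])
    · right
      rw [h4] at h2
      have : z.im = 0 := by nlinarith
      exact Complex.ext (by simp [h4]) (by simp [this])
  · exfalso
    have := mh_im h
    have h5 : z.im ^ 2 = 4 := by rw [← sq_abs, h3]; norm_num
    linarith

private theorem maehara_aux {p₁ p₂ : C(I, ℂ)} (hp₁ : Function.Injective p₁)
    (h10 : p₁ 0 = -1) (h11 : p₁ 1 = 1) (h20 : p₂ 0 = -1) (h21 : p₂ 1 = 1)
    (hmeet : ∀ z, z ∈ range p₁ → z ∈ range p₂ → z = 1 ∨ z = -1)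
    (hd : ∀ z ∈ range p₁ ∪ range p₂, ‖z + 1‖ ≤ 2 ∧ ‖z - 1‖ ≤ 2)
    {l : ℂ} (hl : l ∈ range p₁) (hl0 : l.re = 0)
    (hltop : ∀ w ∈ range p₁ ∪ range p₂, w.re = 0 → w.im ≤ l.im) :
    ∃ z, z ∉ range p₁ ∪ range p₂ ∧
      Bornology.IsBounded (connectedComponentIn (range p₁ ∪ range p₂)ᶜ z) := by
  have hne : ∀ {w : ℂ}, w.re = 0 → w ≠ 1 ∧ w ≠ -1 := by
    intro w hw
    constructor
    · intro h; rw [h] at hw; simp at hw
    · intro h; rw [h] at hw; simp at hw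
  have hmk : ∀ {w : ℂ}, w.re = 0 → w = ⟨0, w.im⟩ := fun {w} hw => Complex.ext hw rfl
  have hlim : l.im ^ 2 ≤ 3 := mh_im (hd l (Or.inl hl))
  have hlb : -2 < l.im ∧ l.im < 2 := ⟨by nlinarith, by nlinarith⟩
  obtain ⟨-, m, hm, hm0, hm1, hm2, hmbot⟩ :=
    exists_top_bot (p := p₁) (a := -2) (b := 2) ⟨l, hl, hl0, hlb.1.le, hlb.2.le⟩
  have hmim : m.im ^ 2 ≤ 3 := mh_im (hd m (Or.inl hm))
  have hmb : -(7 / 4 : ℝ) < m.im ∧ m.im < 7 / 4 := ⟨by nlinarith, by nlinarith⟩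
  -- `m` is not on `p₂`
  have hm2' : m ∉ range p₂ := by
    intro h
    rcases hmeet m hm h with h | h
    · exact (hne hm0).1 h
    · exact (hne hm0).2 h
  have hcl : IsClosed (range p₂) := (isCompact_range p₂.continuous).isClosed
  have hnh : (range p₂)ᶜ ∈ 𝓝 m := hcl.isOpen_compl.mem_nhds hm2'
  obtain ⟨ε, hε, hball⟩ := Metric.mem_nhds_iff.mp hnh
  set η : ℝ := min (ε / 2) (1 / 4) with hη
  have hη0 : 0 < η := lt_min (by linarith) (by norm_num)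
  have hη1 : η ≤ ε / 2 := min_le_left _ _
  have hη2 : η ≤ 1 / 4 := min_le_right _ _
  -- points on the axis just below `m`
  have hbelow : ∀ y : ℝ, m.im - η ≤ y → y ≤ m.im → (⟨0, y⟩ : ℂ) ∉ range p₂ := by
    intro y hy1 hy2
    have : (⟨0, y⟩ : ℂ) ∈ Metric.ball m ε := by
      rw [Metric.mem_ball, dist_eq_norm, hmk hm0]
      have e : (⟨0, y⟩ : ℂ) - ⟨0, m.im⟩ = ((y - m.im : ℝ) : ℂ) * Complex.I := by
        apply Complex.ext <;> simp
      rw [e, norm_mul, Complex.norm_I, mul_one, Complex.norm_real, Real.norm_eq_abs]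
      rw [abs_lt]
      constructor <;> linarith
    exact hball this
  have hbelow1 : ∀ y : ℝ, -2 ≤ y → y < m.im → (⟨0, y⟩ : ℂ) ∉ range p₁ := by
    intro y hy1 hy2 h
    have := hmbot _ h rfl hy1 (by simp only; linarith)
    simp only at this
    linarith
  set z : ℂ := ⟨0, m.im - η⟩ with hz
  have hz1 : z ∉ range p₁ := hbelow1 _ (by linarith) (by linarith)
  have hz2 : z ∉ range p₂ := hbelow _ le_rfl (by linarith)
  have hzJ : z ∉ range p₁ ∪ range p₂ := by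
    rintro (h | h)
    · exact hz1 h
    · exact hz2 h
  have hzR : z ∈ Rect := ⟨by simp [hz], abs_le.mpr ⟨by simp only [hz]; linarith, by simp only [hz]; linarith⟩⟩
  refine ⟨z, hzJ, ?_⟩
  by_contra hunb
  set J : Set ℂ := range p₁ ∪ range p₂ with hJ
  have hJc : IsClosed J := (isCompact_range p₁.continuous).isClosed.union hcl
  set U : Set ℂ := connectedComponentIn Jᶜ z with hU
  have hUo : IsOpen U := hJc.isOpen_compl.connectedComponentIn
  have hzU : z ∈ U := mem_connectedComponentIn hzJ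
  have hUc : IsConnected U := isConnected_connectedComponentIn_iff.mpr hzJ
  have hUJ : U ⊆ Jᶜ := connectedComponentIn_subset _ _
  have hRb : Bornology.IsBounded Rect := by
    refine (Metric.isBounded_closedBall (x := (0 : ℂ)) (r := 3)).subset ?_
    intro w hw
    rw [mem_closedBall_zero_iff]
    have := Complex.norm_le_abs_re_add_abs_im w
    linarith [hw.1, hw.2]
  obtain ⟨w, hwU, hwR⟩ : ∃ w ∈ U, w ∉ Rect := by
    by_contra hcon
    refine hunb (hRb.subset fun w hw => ?_)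
    by_contra hw2
    exact hcon ⟨w, hw, hw2⟩
  have hzw : JoinedIn Jᶜ z w :=
    (((hUo.isConnected_iff_isPathConnected).mp hUc).joinedIn z hzU w hwU).mono hUJ
  obtain ⟨b, hb, hzb⟩ := exists_exit hzR hwR hzw
  have hbJ : b ∉ J := hzb.target_mem.2
  have h1J : (1 : ℂ) ∈ J := Or.inl ⟨1, h11⟩
  have h2J : (-1 : ℂ) ∈ J := Or.inl ⟨0, h10⟩
  have hb1 : b ≠ 1 := fun h => hbJ (h ▸ h1J)
  have hb2 : b ≠ -1 := fun h => hbJ (h ▸ h2J)
  have hBd : Bd \ {1, -1} ⊆ Rect \ J := by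
    rintro w ⟨hw1, hw2⟩
    refine ⟨hw1.1, fun hwJ => hw2 ?_⟩
    rcases mh_bd (hd w hwJ) hw1 with h | h
    · left; exact h
    · right; exact h
  have e2 : (2 * Complex.I : ℂ) = ⟨0, 2⟩ := by apply Complex.ext <;> simp
  have e3 : (-(2 * Complex.I) : ℂ) = ⟨0, -2⟩ := by apply Complex.ext <;> simp
  have hJ1 : Rect \ J ⊆ Rect \ range p₁ := sdiff_subset_sdiff_right subset_union_left
  have hJ2 : Rect \ J ⊆ Rect \ range p₂ := sdiff_subset_sdiff_right subset_union_right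
  rcases joined_bd hb hb1 hb2 with hbt | hbb
  · -- `b` is joined to the top
    have a1 : JoinedIn (Rect \ range p₁) ⟨0, -2⟩ z := by
      refine joined_vert (a := -2) (b := m.im - η) (fun y hy => ?_)
      rw [uIcc_of_le (by linarith)] at hy
      refine ⟨⟨by simp, abs_le.mpr ⟨hy.1, ?_⟩⟩, hbelow1 y hy.1 (by linarith [hy.2])⟩
      simp only
      linarith [hy.2]
    have a2 : JoinedIn (Rect \ range p₁) z (2 * Complex.I) :=
      (hzb.mono hJ1).trans ((hbt.mono hBd).mono hJ1)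
    exact not_joined (h := p₁) (fun t => mh_rect (hd _ (Or.inl ⟨t, rfl⟩))) (by rw [h10]; simp)
      (by rw [h11]; simp) (x := 2 * Complex.I) (y := ⟨0, -2⟩) (by simp) rfl (a1.trans a2).symm
  · -- `b` is joined to the bottom
    have a1 : JoinedIn (Rect \ range p₂) ⟨0, 2⟩ ⟨0, l.im⟩ := by
      refine joined_vert (a := 2) (b := l.im) (fun y hy => ?_)
      rw [uIcc_of_ge hlb.2.le] at hy
      refine ⟨⟨by simp, abs_le.mpr ⟨by simp only; linarith [hy.1], hy.2⟩⟩, fun h => ?_⟩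
      have h3 := hltop _ (Or.inr h) rfl
      simp only at h3
      have h4 : y = l.im := le_antisymm h3 hy.1
      rw [h4, ← hmk hl0] at h
      rcases hmeet l hl h with h | h
      · exact (hne hl0).1 h
      · exact (hne hl0).2 h
    have a2 : JoinedIn (Rect \ range p₂) l m := by
      refine (joined_arc hp₁ h10 h11 hl hm (hne hl0).1 (hne hl0).2 (hne hm0).1 (hne hm0).2).mono ?_
      rintro w ⟨hw1, hw2⟩
      refine ⟨mh_rect (hd w (Or.inl hw1)), fun h => hw2 ?_⟩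
      rcases hmeet w hw1 h with h | h
      · left; exact h
      · right; exact h
    have a3 : JoinedIn (Rect \ range p₂) ⟨0, m.im⟩ z := by
      refine joined_vert (a := m.im) (b := m.im - η) (fun y hy => ?_)
      rw [uIcc_of_ge (by linarith)] at hy
      refine ⟨⟨by simp, abs_le.mpr ⟨?_, ?_⟩⟩, hbelow y hy.1 hy.2⟩
      · simp only; linarith [hy.1]
      · simp only; linarith [hy.2]
    rw [← hmk hl0] at a1
    rw [← hmk hm0] at a3
    have a4 : JoinedIn (Rect \ range p₂) z (-(2 * Complex.I)) :=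
      (hzb.mono hJ2).trans ((hbb.mono hBd).mono hJ2)
    exact not_joined (h := p₂) (fun t => mh_rect (hd _ (Or.inr ⟨t, rfl⟩))) (by rw [h20]; simp)
      (by rw [h21]; simp) (x := ⟨0, 2⟩) (y := -(2 * Complex.I)) rfl (by simp)
      (((a1.trans a2).trans a3).trans a4)

private lemma mh_axis {p : C(I, ℂ)} (h0 : p 0 = -1) (h1 : p 1 = 1) : ∃ z ∈ range p, z.re = 0 := by
  have hc : Continuous fun t => (p t).re := Complex.continuous_re.comp p.continuous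
  obtain ⟨t, ht⟩ := mem_range_of_exists_le_of_exists_ge hc (c := (0 : ℝ)) ⟨0, by rw [h0]; simp⟩
    ⟨1, by rw [h1]; simp⟩
  exact ⟨p t, ⟨t, rfl⟩, ht⟩

theorem maehara {p₁ p₂ : C(I, ℂ)} (hp₁ : Function.Injective p₁) (hp₂ : Function.Injective p₂)
    (h10 : p₁ 0 = -1) (h11 : p₁ 1 = 1) (h20 : p₂ 0 = -1) (h21 : p₂ 1 = 1)
    (hmeet : ∀ z, z ∈ range p₁ → z ∈ range p₂ → z = 1 ∨ z = -1)
    (hd : ∀ z ∈ range p₁ ∪ range p₂, ‖z + 1‖ ≤ 2 ∧ ‖z - 1‖ ≤ 2) :
    ∃ z, z ∉ range p₁ ∪ range p₂ ∧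
      Bornology.IsBounded (connectedComponentIn (range p₁ ∪ range p₂)ᶜ z) := by
  have hb : ∀ w ∈ range p₁ ∪ range p₂, -2 ≤ w.im ∧ w.im ≤ 2 := by
    intro w hw
    have := mh_im (hd w hw)
    constructor <;> nlinarith
  obtain ⟨u₁, hu₁, hu₁0⟩ := mh_axis h10 h11
  obtain ⟨u₂, hu₂, hu₂0⟩ := mh_axis h20 h21
  obtain ⟨⟨l₁, hl₁, hl₁0, hl₁a, hl₁b, hl₁t⟩, -⟩ := exists_top_bot (p := p₁) (a := -2) (b := 2)
    ⟨u₁, hu₁, hu₁0, (hb _ (Or.inl hu₁)).1, (hb _ (Or.inl hu₁)).2⟩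
  obtain ⟨⟨l₂, hl₂, hl₂0, hl₂a, hl₂b, hl₂t⟩, -⟩ := exists_top_bot (p := p₂) (a := -2) (b := 2)
    ⟨u₂, hu₂, hu₂0, (hb _ (Or.inr hu₂)).1, (hb _ (Or.inr hu₂)).2⟩
  rcases le_total l₂.im l₁.im with h | h
  · refine maehara_aux hp₁ h10 h11 h20 h21 hmeet hd hl₁ hl₁0 ?_
    rintro w (hw | hw) hw0
    · exact hl₁t w hw hw0 (hb _ (Or.inl hw)).1 (hb _ (Or.inl hw)).2
    · exact (hl₂t w hw hw0 (hb _ (Or.inr hw)).1 (hb _ (Or.inr hw)).2).trans h
  · have := maehara_aux (p₁ := p₂) (p₂ := p₁) hp₂ h20 h21 h10 h11 (fun z h1 h2 => hmeet z h2 h1)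
      (by rw [union_comm]; exact hd) hl₂ hl₂0 (by
        rintro w (hw | hw) hw0
        · exact hl₂t w hw hw0 (hb _ (Or.inr hw)).1 (hb _ (Or.inr hw)).2
        · exact (hl₁t w hw hw0 (hb _ (Or.inl hw)).1 (hb _ (Or.inl hw)).2).trans h)
    rw [union_comm]
    exact this

end Pool.Agent.Lib.MP_4b02fd_al
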