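import Pool.Agent.Lib.MP_4b02fd_al.Lift

/-!
# MP_4b02fd_al, topological form: a nonseparating simple closed curve
-/

set_option autoImplicit false

open Topology unitInterval Set

noncomputable section

namespace Pool.Agent.Lib.MP_4b02fd_al

/-- The map of the plane onto the strip `1/2 < im < 3/2`. -/
private def nsF (z : ℂ) : ℂ := ⟨z.re, 1 + Real.arctan z.im / Real.pi⟩

private theorem nsF_cont : Continuous nsF := by
  have h : nsF = fun z : ℂ => Complex.equivRealProdCLM.symm
      (z.re, 1 + Real.arctan z.im / Real.pi) := by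
    funext z
    rfl
  rw [h]
  refine Complex.equivRealProdCLM.symm.continuous.comp (Complex.continuous_re.prodMk ?_)
  exact continuous_const.add
    ((Real.continuous_arctan.comp Complex.continuous_im).div_const _)

private theorem nsF_inj : Function.Injective nsF := by
  intro z w h
  have h1 : (nsF z).re = (nsF w).re := congrArg Complex.re h
  have h2 : 1 + Real.arctan z.im / Real.pi = 1 + Real.arctan w.im / Real.pi :=
    congrArg Complex.im h
  have h3 : Real.arctan z.im = Real.arctan w.im := by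
    have h4 := add_left_cancel h2
    field_simp at h4
    exact h4
  exact Complex.ext (show z.re = w.re from h1) (Real.arctan_injective h3)

private theorem nsF_conn : IsPathConnected (nsF ⁻¹' range gi)ᶜ := by
  have h : 1 < Module.rank ℝ ℂ := by
    rw [Complex.rank_real_complex]
    exact_mod_cast one_lt_two
  exact ((countable_range gi).preimage nsF_inj).isPathConnected_compl_of_one_lt_rank h

private theorem ns_im (z : ℂ) : 1 / 2 < (nsF z).im ∧ (nsF z).im < 3 / 2 := by
  have h1 := Real.neg_pi_div_two_lt_arctan z.im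
  have h2 := Real.arctan_lt_pi_div_two z.im
  have hpi := Real.pi_pos
  have h3 : (nsF z).im = 1 + Real.arctan z.im / Real.pi := rfl
  rw [h3]
  constructor
  · have : -(1 / 2) < Real.arctan z.im / Real.pi := by
      rw [lt_div_iff₀ hpi]
      linarith
    linarith
  · have : Real.arctan z.im / Real.pi < 1 / 2 := by
      rw [div_lt_iff₀ hpi]
      linarith
    linarith

private theorem ns_ne {b : ℝ} (h1 : 1 / 2 < b) (h2 : b < 3 / 2) :
    ((b : ℝ) : UnitAddCircle) ≠ ((1 / 2 : ℝ) : UnitAddCircle) := by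
  intro h
  have h3 : ((b - 1 / 2 : ℝ) : UnitAddCircle) = 0 := by
    rw [AddCircle.coe_sub, h, sub_self]
  rw [AddCircle.coe_eq_zero_iff] at h3
  obtain ⟨n, hn⟩ := h3
  have h4 : (n : ℝ) = b - 1 / 2 := by simpa using hn
  have h5 : (0 : ℝ) < n := by rw [h4]; linarith
  have h6 : (n : ℝ) < 1 := by rw [h4]; linarith
  have h7 : (0 : ℤ) < n := by exact_mod_cast h5
  have h8 : n < (1 : ℤ) := by exact_mod_cast h6
  omega

private theorem ns_rep {x : T2} (hx : x.2 ≠ ((1 / 2 : ℝ) : UnitAddCircle)) :
    ∃ z : ℂ, q (nsF z) = x := by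
  obtain ⟨z, rfl⟩ := q_surjective x
  have hz : (q z).2 = ((z.im : ℝ) : UnitAddCircle) := rfl
  rw [hz] at hx
  set f : ℝ := Int.fract (z.im - 1 / 2) with hf
  have hf0 : 0 ≤ f := Int.fract_nonneg _
  have hf1 : f < 1 := Int.fract_lt_one _
  have hbf : z.im = 1 / 2 + f + (⌊z.im - 1 / 2⌋ : ℤ) := by
    have := Int.floor_add_fract (z.im - 1 / 2)
    rw [← hf] at this
    linarith
  have hcoe : ((z.im : ℝ) : UnitAddCircle) = ((1 / 2 + f : ℝ) : UnitAddCircle) := by
    rw [← sub_eq_zero, ← AddCircle.coe_sub, AddCircle.coe_eq_zero_iff]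
    refine ⟨⌊z.im - 1 / 2⌋, ?_⟩
    simp only [zsmul_eq_mul, mul_one]
    linarith
  have hfne : f ≠ 0 := by
    intro h0
    rw [h0, add_zero] at hcoe
    exact hx hcoe
  have hfpos : 0 < f := lt_of_le_of_ne hf0 (Ne.symm hfne)
  have hpi := Real.pi_pos
  refine ⟨⟨z.re, Real.tan (Real.pi * (f - 1 / 2))⟩, ?_⟩
  have h1 : Real.arctan (Real.tan (Real.pi * (f - 1 / 2))) = Real.pi * (f - 1 / 2) := by
    apply Real.arctan_tan
    · nlinarith
    · nlinarith
  have h2 : nsF ⟨z.re, Real.tan (Real.pi * (f - 1 / 2))⟩ = ⟨z.re, 1 / 2 + f⟩ := by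
    apply Complex.ext
    · rfl
    · change 1 + Real.arctan (Real.tan (Real.pi * (f - 1 / 2))) / Real.pi = 1 / 2 + f
      rw [h1]
      field_simp
      ring
  rw [h2]
  apply Prod.ext
  · rfl
  · exact hcoe.symm

theorem exists_simpleNonsep : ∃ γ : C(UnitAddCircle, PT), SimpleNonsep γ := by
  let g : UnitAddCircle → PT := fun t => ⟨(t, ((1 / 2 : ℝ) : UnitAddCircle)),
    fun h => half_ne (congrArg Prod.snd h)⟩
  have hg : Continuous g :=
    Continuous.subtype_mk (continuous_id.prodMk continuous_const) _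
  refine ⟨⟨g, hg⟩, ?_, ?_⟩
  · intro s t h
    have h1 : (g s).1 = (g t).1 := congrArg Subtype.val h
    exact congrArg Prod.fst h1
  · have hS := nsF_conn.isConnected
    let f : ℂ → T2 := fun z => q (nsF z)
    have hf : Continuous f := continuous_q.comp nsF_cont
    -- the complement as an image
    have hT : IsConnected (f '' (nsF ⁻¹' range gi)ᶜ) := hS.image f hf.continuousOn
    have hsub : f '' (nsF ⁻¹' range gi)ᶜ = Subtype.val '' (range (⟨g, hg⟩ : C(UnitAddCircle, PT)))ᶜ := by
      ext x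
      constructor
      · rintro ⟨z, hz, rfl⟩
        have h0 : q (nsF z) ≠ 0 := by
          intro h
          obtain ⟨m, hm⟩ := (q_eq_zero_iff _).mp h
          exact hz ⟨m, hm.symm⟩
        refine ⟨⟨q (nsF z), h0⟩, ?_, rfl⟩
        rintro ⟨t, ht⟩
        have h1 : (g t).1.2 = (q (nsF z)).2 := congrArg (fun y : PT => y.1.2) ht
        exact ns_ne (ns_im z).1 (ns_im z).2 h1.symm
      · rintro ⟨⟨x, hx⟩, hxr, rfl⟩
        have h1 : x.2 ≠ ((1 / 2 : ℝ) : UnitAddCircle) := by
          intro h
          apply hxr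
          refine ⟨x.1, ?_⟩
          apply Subtype.ext
          exact Prod.ext rfl h.symm
        obtain ⟨z, hz⟩ := ns_rep h1
        refine ⟨z, ?_, hz⟩
        rintro ⟨m, hm⟩
        apply hx
        rw [← hz]
        exact (q_eq_zero_iff _).mpr ⟨m, hm.symm⟩
    rw [hsub] at hT
    refine ⟨?_, ?_⟩
    · obtain ⟨_, x, hx, -⟩ := hT.nonempty
      exact ⟨x, hx⟩
    · exact (Topology.IsInducing.subtypeVal.isPreconnected_image).mp hT.isPreconnected

end Pool.Agent.Lib.MP_4b02fd_al
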