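import Pool.Agent.Lib.MP_4b02fd_al.Defs

/-!
# MP_4b02fd_al, topological form: conjugacy classes of closed curves
-/

set_option autoImplicit false

open Topology unitInterval Set

noncomputable section

namespace Pool.Agent.Lib.MP_4b02fd_al

theorem exists_represents (γ : C(UnitAddCircle, PT)) (hPT : PathConnectedSpace PT) :
    ∃ g, Represents g γ :=
  ⟨_, hPT.somePath x0 (γ 0), rfl⟩

theorem Represents.conj {g : FundamentalGroup PT x0} {γ : C(UnitAddCircle, PT)}
    (h : Represents g γ) (y : FundamentalGroup PT x0) : Represents (y * g * y⁻¹) γ := by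
  obtain ⟨δ, rfl⟩ := h
  obtain ⟨η, hη⟩ := Path.Homotopic.Quotient.mk_surjective (FundamentalGroup.toPath y)
  refine ⟨η.symm.trans δ, ?_⟩
  have hy : y = Path.Homotopic.Quotient.mk η := hη.symm
  rw [hy]
  change (Path.Homotopic.Quotient.mk η).symm.trans ((Path.Homotopic.Quotient.mk
    (δ.trans ((curvePath γ).trans δ.symm))).trans (Path.Homotopic.Quotient.mk η)) = _
  simp only [Path.Homotopic.Quotient.mk_trans, Path.Homotopic.Quotient.mk_symm, Path.trans_symm,
    Path.symm_symm, Path.Homotopic.Quotient.trans_assoc]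

end Pool.Agent.Lib.MP_4b02fd_al
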