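import Pool.Agent.Lib.MP_4b02fd_al.Domain
import Pool.Agent.Lib.MP_4b02fd_al.CountLoc
import Pool.Agent.Lib.MP_4b02fd_al.LiftMap

/-!
# MP_4b02fd_al, topological form: a simple closed curve with a closed lift separates
-/

set_option autoImplicit false

open Topology unitInterval Set

noncomputable section

namespace Pool.Agent.Lib.MP_4b02fd_al

theorem not_connected (γ : C(UnitAddCircle, PT)) (hγ : Function.Injective γ)
    (c : C(UnitAddCircle, ℂ)) (hc : ∀ t, q (c t) = (γ t).1) : ¬ IsConnected (range γ)ᶜ := by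
  intro hconn
  have hci : Function.Injective c := by
    intro s t h
    apply hγ
    apply Subtype.ext
    rw [← hc s, ← hc t, h]
  obtain ⟨D, hDo, hDb, hDd, hDc, y, hy, hyD, hyε⟩ := exists_domain c hci
  have hJ : IsCompact (range c) := isCompact_range c.continuous
  have gi0 : gi 0 = 0 := by simp [gi]
  have hdisj : ∀ m : ℤ × ℤ, m ≠ 0 → ∀ z ∈ range c, z - gi m ∉ range c := by
    rintro m hm _ ⟨s, rfl⟩ ⟨t, ht⟩
    have h1 : q (c t) = q (c s) := by
      rw [q_eq_iff]
      refine ⟨-m, ?_⟩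
      have h2 : gi m + gi (-m) = 0 := by
        rw [← gi_add, add_neg_cancel, gi0]
      rw [ht]
      linear_combination -h2
    have h3 : t = s := by
      apply hγ
      apply Subtype.ext
      rw [← hc s, ← hc t, h1]
    rw [h3] at ht
    have h4 : gi m = gi 0 := by
      rw [gi0]
      linear_combination ht
    exact hm (gi_injective h4)
  obtain ⟨ε, hε, hj1, hj2⟩ := cnt_jump hDo hDb hJ hDc hdisj hy
  choose L hL using q_surjective
  set N : PT → ℕ := fun x => cnt D (L x.1) with hN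
  have hNq : ∀ (z : ℂ) (x : PT), q z = x.1 → N x = cnt D z := by
    intro z x h
    apply cnt_eq
    rw [hL, h]
  have hcont : ContinuousOn N (range γ)ᶜ := by
    intro x hx
    apply ContinuousAt.continuousWithinAt
    have hz : ∀ m, L x.1 - gi m ∉ range c := by
      rintro m ⟨t, ht⟩
      apply hx
      refine ⟨t, Subtype.ext ?_⟩
      rw [← hc t, ← hL x.1]
      symm
      rw [q_eq_iff]
      refine ⟨m, ?_⟩
      rw [ht]
      ring
    have h1 := cnt_locally_constant hDo hDb hJ hDc hz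
    have h2 : q '' {w | cnt D w = cnt D (L x.1)} ∈ 𝓝 (q (L x.1)) :=
      isOpenMap_q.image_mem_nhds h1
    rw [hL] at h2
    have h3 : (Subtype.val : {x : T2 // x ≠ 0} → T2) ⁻¹' (q '' {w | cnt D w = cnt D (L x.1)}) ∈ 𝓝 x :=
      continuous_subtype_val.continuousAt.preimage_mem_nhds h2
    have h4 : N =ᶠ[𝓝 x] fun _ => N x := by
      filter_upwards [h3] with x' hx'
      obtain ⟨w, hw, hw'⟩ := hx'
      rw [hNq w x' hw']
      exact hw
    exact (continuousAt_const (y := N x)).congr h4.symm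
  have hconst : ∀ x x' : PT, x ∈ (range γ)ᶜ → x' ∈ (range γ)ᶜ → N x = N x' := fun x x' hx hx' =>
    hconn.isPreconnected.constant hcont hx hx'
  have hqy : q y ≠ 0 := by
    obtain ⟨t, rfl⟩ := hy
    rw [hc t]
    exact (γ t).2
  have hnb : q ⁻¹' {0}ᶜ ∈ 𝓝 y := (isOpen_compl_singleton.preimage continuous_q).mem_nhds hqy
  obtain ⟨δ, hδ, hball⟩ := Metric.mem_nhds_iff.1 hnb
  have hρ : 0 < min ε δ := lt_min hε hδ
  obtain ⟨w, hwb, hwD, hwJ⟩ := hyε (min ε δ) hρ
  obtain ⟨z, hzD, hzb⟩ := Metric.mem_closure_iff.1 hyD (min ε δ) hρ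
  have hzb' : z ∈ Metric.ball y (min ε δ) := by
    rw [Metric.mem_ball, dist_comm]
    exact hzb
  have hbε : ∀ u ∈ Metric.ball y (min ε δ), u ∈ Metric.ball y ε := fun u hu =>
    Metric.ball_subset_ball (min_le_left _ _) hu
  have hbδ : ∀ u ∈ Metric.ball y (min ε δ), q u ≠ 0 := fun u hu =>
    hball (Metric.ball_subset_ball (min_le_right _ _) hu)
  have hnr : ∀ (u : ℂ) (hu : u ∈ Metric.ball y (min ε δ)), u ∉ range c →
      (⟨q u, hbδ u hu⟩ : PT) ∈ (range γ)ᶜ := by
    rintro u hu hur ⟨t, ht⟩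
    have h1 : q u = q (c t) := by
      rw [hc t, ht]
    obtain ⟨m, hm⟩ := (q_eq_iff u (c t)).1 h1
    by_cases h0 : m = 0
    · rw [h0, gi0, add_zero] at hm
      exact hur ⟨t, hm.symm⟩
    · apply hj1 u (hbε u hu) m h0
      exact ⟨t, by rw [hm]; ring⟩
  have hzJ : z ∉ range c := disjoint_left.1 hDd hzD
  have e1 := hconst _ _ (hnr z hzb' hzJ) (hnr w hwb hwJ)
  rw [hNq z _ rfl, hNq w _ rfl] at e1
  have e2 := hj2 z (hbε z hzb') w (hbε w hwb) hzD hwD
  omega

end Pool.Agent.Lib.MP_4b02fd_al
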