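import Pool.Agent.Lib.MP_4b02fd_al.AlgConj
import Pool.Agent.Lib.MP_4b02fd_al.AlgDiam
import Pool.Agent.Lib.MP_4b02fd_al.GoodRho
import Pool.Agent.Lib.MP_4b02fd_al.Repr
import Pool.Agent.Lib.MP_4b02fd_al.Closed
import Pool.Agent.Lib.MP_4b02fd_al.Sep
import Pool.Agent.Lib.MP_4b02fd_al.ConnPT
import Pool.Agent.Lib.MP_4b02fd_al.NonsepEx

/-!
# MP_4b02fd_al, topological form: main theorem
-/

set_option autoImplicit false

open Topology unitInterval Set

noncomputable section

namespace Pool.Agent.Lib.MP_4b02fd_al

/-- The once-punctured torus `PT` is path connected and contains a nonseparating simple closed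
curve, and its fundamental group has a generating set `S` which contains an element of every
conjugacy class represented by a nonseparating simple closed curve and such that all quotients
by the terms of the derived series from the second on have infinite diameter with respect to the
image of `S`. -/
theorem main : PathConnectedSpace PT ∧ (∃ γ, SimpleNonsep γ) ∧
    ∃ S : Set (FundamentalGroup PT x0), Subgroup.closure S = ⊤ ∧
      (∀ γ, SimpleNonsep γ → ∃ g ∈ S, Represents g γ) ∧
      ∀ n, 2 ≤ n →
        diameter ((QuotientGroup.mk' (derivedSeries (FundamentalGroup PT x0) n)) '' S) = ⊤ := by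
  obtain ⟨ρ, hρ⟩ := exists_rho
  have hg := goodMap_rho ρ hρ
  refine ⟨pathConnectedSpace_PT, exists_simpleNonsep, SS ρ, closure_SS hg, ?_,
    fun n hn => diameter_SS hg hn⟩
  rintro γ ⟨h1, h2⟩
  obtain ⟨g, hgγ⟩ := exists_represents γ pathConnectedSpace_PT
  have hv : (ρ g).v ≠ 0 := by
    intro h0
    obtain ⟨c, hc⟩ := closed_lift ρ hρ hgγ h0
    exact not_connected γ h1 c hc h2
  obtain ⟨y, -, hy⟩ := exists_conj hg hv
  exact ⟨_, hy, hgγ.conj y⟩

end Pool.Agent.Lib.MP_4b02fd_al
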