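import Mathlib

namespace Pool.Agent.Lib.MP_4b02fd_al.MetabelianOld

/-- The word length of `g` with respect to `T`: the least length of an expression of `g` as a
product of elements of `T` and their inverses (`⊤` if there is none). -/
noncomputable def wordLength {G : Type} [Group G] (T : Set G) (g : G) : ℕ∞ :=
  sInf {k : ℕ∞ | ∃ l : List G, (∀ x ∈ l, x ∈ T ∨ x⁻¹ ∈ T) ∧ l.prod = g ∧ k = l.length}

/-- The diameter of `G` with respect to `T`. -/
noncomputable def diameter {G : Type} [Group G] (T : Set G) : ℕ∞ := ⨆ g : G, wordLength T g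

/-- The group of pairs `(f, v)`, `f : ℤ² → ℤ` and `v ∈ ℤ²`, with
`(f, v) (g, w) = (f + g(· - v), v + w)`. -/
@[ext]
structure Q where
  f : ℤ × ℤ → ℤ
  v : ℤ × ℤ

namespace Q

instance : Mul Q := ⟨fun p q => ⟨fun x => p.f x + q.f (x - p.v), p.v + q.v⟩⟩
instance : One Q := ⟨⟨fun _ => 0, 0⟩⟩
instance : Inv Q := ⟨fun p => ⟨fun x => -p.f (x + p.v), -p.v⟩⟩

lemma mul_f (p q : Q) (x : ℤ × ℤ) : (p * q).f x = p.f x + q.f (x - p.v) := rfl
lemma mul_v (p q : Q) : (p * q).v = p.v + q.v := rfl
lemma one_f (x : ℤ × ℤ) : (1 : Q).f x = 0 := rfl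
lemma one_v : (1 : Q).v = 0 := rfl
lemma inv_f (p : Q) (x : ℤ × ℤ) : (p⁻¹).f x = -p.f (x + p.v) := rfl
lemma inv_v (p : Q) : (p⁻¹).v = -p.v := rfl

instance instGroup : Group Q := Group.ofLeftAxioms
  (by
    intro p q r
    apply Q.ext
    · funext x
      simp only [mul_f, mul_v, add_assoc, sub_sub]
    · simp only [mul_v, add_assoc])
  (by
    intro p
    apply Q.ext
    · funext x
      simp only [mul_f, one_f, one_v, zero_add, sub_zero]
    · simp only [mul_v, one_v, zero_add])
  (by
    intro p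
    apply Q.ext
    · funext x
      simp only [mul_f, inv_f, inv_v, sub_neg_eq_add, neg_add_cancel]
      rfl
    · simp only [mul_v, inv_v, neg_add_cancel]
      rfl)

/-- All values of the first component are bounded by `C`. -/
def Bdd (C : ℤ) (p : Q) : Prop := ∀ x, |p.f x| ≤ C

lemma bdd_mul {C D : ℤ} {p q : Q} (hp : Bdd C p) (hq : Bdd D q) : Bdd (C + D) (p * q) := by
  intro x
  rw [mul_f]
  exact (abs_add_le _ _).trans (add_le_add (hp x) (hq _))

lemma bdd_inv {C : ℤ} {p : Q} (hp : Bdd C p) : Bdd C p⁻¹ := by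
  intro x
  rw [inv_f, abs_neg]
  exact hp _

lemma bdd_list {C : ℤ} : ∀ l : List Q, (∀ x ∈ l, Bdd C x) → Bdd (C * l.length) l.prod
  | [], _ => by
    intro x
    simp [one_f]
  | p :: l, h => by
    rw [List.prod_cons, List.length_cons]
    have h1 := bdd_list l (fun x hx => h x (List.mem_cons_of_mem _ hx))
    have h2 := bdd_mul (h p List.mem_cons_self) h1
    have h3 : C + C * (l.length : ℤ) = C * ((l.length + 1 : ℕ) : ℤ) := by push_cast; ring
    rwa [h3] at h2

/-- The homomorphism to `ℤ²`. -/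
def vHom : Q →* Multiplicative (ℤ × ℤ) where
  toFun p := Multiplicative.ofAdd p.v
  map_one' := rfl
  map_mul' _ _ := rfl

lemma derived_two : derivedSeries Q 2 = ⊥ := by
  have h1 : derivedSeries Q 1 ≤ vHom.ker := by
    rw [derivedSeries_one]
    exact Abelianization.commutator_subset_ker vHom
  rw [derivedSeries_succ, eq_bot_iff, Subgroup.commutator_le]
  intro p hp q hq
  have hp' : p.v = 0 := Multiplicative.ofAdd.injective (MonoidHom.mem_ker.mp (h1 hp))
  have hq' : q.v = 0 := Multiplicative.ofAdd.injective (MonoidHom.mem_ker.mp (h1 hq))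
  rw [Subgroup.mem_bot, commutatorElement_eq_one_iff_mul_comm]
  apply Q.ext
  · funext x
    simp only [mul_f, hp', hq', sub_zero, add_comm]
  · simp only [mul_v, hp', hq']

end Q

/-- The free group of rank two. -/
abbrev F : Type := FreeGroup (Fin 2)

/-- The generators. -/
def a : F := FreeGroup.of 0
def b : F := FreeGroup.of 1

/-- The representation of `F` in `Q`. -/
def rho : F →* Q := FreeGroup.lift ![⟨fun _ => 0, (1, 0)⟩, ⟨Pi.single 0 1, (0, 1)⟩]

lemma rho_a : rho a = ⟨fun _ => 0, (1, 0)⟩ := by simp [rho, a]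
lemma rho_b : rho b = ⟨Pi.single 0 1, (0, 1)⟩ := by simp [rho, b]

/-- Translation of finitely supported functions. -/
def sh (v : ℤ × ℤ) (p : (ℤ × ℤ) →₀ ℤ) : (ℤ × ℤ) →₀ ℤ := Finsupp.equivMapDomain (Equiv.addRight v) p

lemma sh_apply (v : ℤ × ℤ) (p : (ℤ × ℤ) →₀ ℤ) (x : ℤ × ℤ) : sh v p x = p (x - v) := by
  rw [sh, Finsupp.equivMapDomain_apply, Equiv.addRight_symm_apply, sub_eq_add_neg]

/-- Multiplication of `p` by the function of the commutator of the generators. -/
def conv (p : (ℤ × ℤ) →₀ ℤ) : ℤ × ℤ → ℤ := fun x => p (x - (1, 0)) - p x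

/-- The set of finitely supported functions realised by elements of `F`. -/
def R : AddSubgroup ((ℤ × ℤ) →₀ ℤ) where
  carrier := {p | ∃ y : F, rho y = ⟨conv p, 0⟩}
  zero_mem' := ⟨1, by
    rw [map_one]
    apply Q.ext
    · funext x
      simp [conv, Q.one_f]
    · rfl⟩
  add_mem' := by
    rintro p q ⟨y, hy⟩ ⟨z, hz⟩
    refine ⟨y * z, ?_⟩
    rw [map_mul, hy, hz]
    apply Q.ext
    · funext x
      simp only [Q.mul_f, conv, Finsupp.add_apply, sub_zero]
      ring
    · simp only [Q.mul_v, add_zero]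
  neg_mem' := by
    rintro p ⟨y, hy⟩
    refine ⟨y⁻¹, ?_⟩
    rw [map_inv, hy]
    apply Q.ext
    · funext x
      simp only [Q.inv_f, conv, Finsupp.neg_apply, add_zero]
      ring
    · simp only [Q.inv_v, neg_zero]

lemma rho_conj (w y : F) (p : (ℤ × ℤ) →₀ ℤ) (h : rho y = ⟨conv p, 0⟩) :
    rho (w * y * w⁻¹) = ⟨conv (sh (rho w).v p), 0⟩ := by
  rw [map_mul, map_mul, map_inv, h]
  apply Q.ext
  · funext x
    simp only [Q.mul_f, Q.inv_f, Q.mul_v, conv, sh_apply, add_zero, sub_add_cancel]
    rw [sub_right_comm x (1, 0)]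
    ring
  · simp only [Q.mul_v, Q.inv_v, add_zero, add_neg_cancel]

lemma rho_comm : rho (a * b * a⁻¹ * b⁻¹) = ⟨conv (Finsupp.single 0 1), 0⟩ := by
  simp only [map_mul, map_inv, rho_a, rho_b]
  apply Q.ext
  · funext x
    simp only [Q.mul_f, Q.inv_f, Q.mul_v, Q.inv_v, conv, Finsupp.single_apply, Pi.single_apply]
    simp only [Prod.ext_iff, Prod.fst_sub, Prod.snd_sub, Prod.fst_add, Prod.snd_add, Prod.fst_neg,
      Prod.snd_neg, Prod.fst_zero, Prod.snd_zero]
    split_ifs <;> first | rfl | (exfalso; omega) 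
  · simp [Q.mul_v, Q.inv_v]

/-- The elements of `F` whose image is of the form `(conv p, 0)`. -/
def K : Subgroup F where
  carrier := {y | ∃ p, rho y = ⟨conv p, 0⟩}
  one_mem' := ⟨0, by
    rw [map_one]
    apply Q.ext
    · funext x
      simp [conv, Q.one_f]
    · rfl⟩
  mul_mem' := by
    rintro y z ⟨p, hy⟩ ⟨q, hz⟩
    refine ⟨p + q, ?_⟩
    rw [map_mul, hy, hz]
    apply Q.ext
    · funext x
      simp only [Q.mul_f, conv, Finsupp.add_apply, sub_zero]
      ring
    · simp only [Q.mul_v, add_zero]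
  inv_mem' := by
    rintro y ⟨p, hy⟩
    refine ⟨-p, ?_⟩
    rw [map_inv, hy]
    apply Q.ext
    · funext x
      simp only [Q.inv_f, conv, Finsupp.neg_apply, add_zero]
      ring
    · simp only [Q.inv_v, neg_zero]

instance K_normal : K.Normal where
  conj_mem := by
    rintro y ⟨p, hy⟩ w
    exact ⟨_, rho_conj w y p hy⟩

lemma comm_mem_K : a * b * a⁻¹ * b⁻¹ ∈ K := ⟨_, rho_comm⟩

/-- A group generated by two commuting elements is commutative, in the form needed here. -/
lemma commutator_le_K : commutator F ≤ K := by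
  have hab : (a : F ⧸ K) * (b : F ⧸ K) = (b : F ⧸ K) * (a : F ⧸ K) := by
    have h : ((a * b * a⁻¹ * b⁻¹ : F) : F ⧸ K) = 1 := (QuotientGroup.eq_one_iff _).mpr comm_mem_K
    simp only [QuotientGroup.mk_mul, QuotientGroup.mk_inv] at h
    rw [mul_inv_eq_one, mul_inv_eq_iff_eq_mul] at h
    exact h
  have key : ∀ g : F, (∀ i : Fin 2, (g : F ⧸ K) * (FreeGroup.of i : F) =
      ((FreeGroup.of i : F) : F ⧸ K) * g) → ∀ x : F, (g : F ⧸ K) * x = (x : F ⧸ K) * g := by
    intro g hg x
    have h1 : (MulAut.conj (g : F ⧸ K)).toMonoidHom.comp (QuotientGroup.mk' K) =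
        QuotientGroup.mk' K := by
      ext i
      simp only [MonoidHom.comp_apply, QuotientGroup.mk'_apply, MulEquiv.toMonoidHom_eq_coe,
        MonoidHom.coe_coe, MulAut.conj_apply]
      rw [hg i, mul_inv_cancel_right]
    have h2 := DFunLike.congr_fun h1 x
    simp only [MonoidHom.comp_apply, QuotientGroup.mk'_apply, MulEquiv.toMonoidHom_eq_coe,
        MonoidHom.coe_coe, MulAut.conj_apply] at h2
    rw [mul_inv_eq_iff_eq_mul] at h2
    exact h2
  have ha : ∀ x : F, (a : F ⧸ K) * x = (x : F ⧸ K) * a := by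
    apply key
    intro i
    fin_cases i
    · rfl
    · exact hab
  have hb : ∀ x : F, (b : F ⧸ K) * x = (x : F ⧸ K) * b := by
    apply key
    intro i
    fin_cases i
    · exact hab.symm
    · rfl
  rw [commutator_eq_closure, Subgroup.closure_le]
  rintro _ ⟨g, x, rfl⟩
  have hg : (g : F ⧸ K) * x = (x : F ⧸ K) * g := by
    apply key
    intro i
    fin_cases i
    · exact (ha g).symm
    · exact (hb g).symm
  rw [SetLike.mem_coe, ← QuotientGroup.eq_one_iff, commutatorElement_def]
  simp only [QuotientGroup.mk_mul, QuotientGroup.mk_inv]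
  rw [mul_inv_eq_one, mul_inv_eq_iff_eq_mul]
  exact hg

lemma rho_a_zpow (m : ℤ) : rho (a ^ m) = ⟨fun _ => 0, (m, 0)⟩ := by
  induction m using Int.induction_on with
  | zero =>
    rw [zpow_zero, map_one]
    rfl
  | succ i ih =>
    rw [zpow_add_one, map_mul, ih, rho_a]
    apply Q.ext
    · funext x
      simp only [Q.mul_f, add_zero]
    · simp [Q.mul_v]
  | pred i ih =>
    rw [zpow_sub_one, map_mul, map_inv, ih, rho_a]
    apply Q.ext
    · funext x
      simp only [Q.mul_f, Q.inv_f, neg_zero, add_zero]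
    · simp [Q.mul_v, Q.inv_v, sub_eq_add_neg]

/-- The first component of the image of `b ^ n`. -/
def colF (n : ℤ) : ℤ × ℤ → ℤ := fun x =>
  if x.1 = 0 ∧ 0 ≤ x.2 ∧ x.2 < n then 1 else if x.1 = 0 ∧ n ≤ x.2 ∧ x.2 < 0 then -1 else 0

lemma rho_b_zpow (n : ℤ) : rho (b ^ n) = ⟨colF n, (0, n)⟩ := by
  induction n using Int.induction_on with
  | zero =>
    rw [zpow_zero, map_one]
    apply Q.ext
    · funext x
      simp only [Q.one_f, colF]
      split_ifs <;> first | rfl | (exfalso; omega)
    · rfl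
  | succ i ih =>
    rw [zpow_add_one, map_mul, ih, rho_b]
    apply Q.ext
    · funext x
      simp only [Q.mul_f, colF, Pi.single_apply, Prod.ext_iff, Prod.fst_sub, Prod.snd_sub,
        Prod.fst_zero, Prod.snd_zero]
      split_ifs <;> first | rfl | (exfalso; omega)
    · simp [Q.mul_v]
  | pred i ih =>
    rw [zpow_sub_one, map_mul, map_inv, ih, rho_b]
    apply Q.ext
    · funext x
      simp only [Q.mul_f, Q.inv_f, colF, Pi.single_apply, Prod.ext_iff, Prod.fst_sub,
        Prod.snd_sub, Prod.fst_add, Prod.snd_add, Prod.fst_zero, Prod.snd_zero]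
      split_ifs <;> first | rfl | (exfalso; omega)
    · simp [Q.mul_v, Q.inv_v, sub_eq_add_neg]

lemma rho_ab (m n : ℤ) : rho (a ^ m * b ^ n) = ⟨fun x => colF n (x - (m, 0)), (m, n)⟩ := by
  rw [map_mul, rho_a_zpow, rho_b_zpow]
  apply Q.ext
  · funext x
    simp only [Q.mul_f, zero_add]
  · simp [Q.mul_v]

lemma colF_abs (n : ℤ) (x : ℤ × ℤ) : |colF n x| ≤ 1 := by
  unfold colF
  split_ifs <;> simp

lemma single_mem_R (u : ℤ × ℤ) : Finsupp.single u 1 ∈ R := by
  refine ⟨(a ^ u.1 * b ^ u.2) * (a * b * a⁻¹ * b⁻¹) * (a ^ u.1 * b ^ u.2)⁻¹, ?_⟩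
  rw [rho_conj _ _ _ rho_comm, rho_ab]
  congr 2
  ext x
  rw [sh_apply, Finsupp.single_apply, Finsupp.single_apply]
  simp only [Prod.ext_iff, Prod.fst_sub, Prod.snd_sub, Prod.fst_zero, Prod.snd_zero]
  split_ifs <;> first | rfl | (exfalso; omega)

lemma R_top (p : (ℤ × ℤ) →₀ ℤ) : p ∈ R := by
  induction p using Finsupp.induction_linear with
  | zero => exact R.zero_mem
  | add p q hp hq => exact R.add_mem hp hq
  | single u n =>
    have h : Finsupp.single u n = n • Finsupp.single u (1 : ℤ) := by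
      rw [Finsupp.smul_single, smul_eq_mul, mul_one]
    rw [h]
    exact R.zsmul_mem (single_mem_R u) n

/-- Moving the mass of `p` along the direction `v` makes all values at most one in absolute
value. -/
lemma spread (v : ℤ × ℤ) (hv : v ≠ 0) (p : (ℤ × ℤ) →₀ ℤ) :
    ∃ r : (ℤ × ℤ) →₀ ℤ, ∀ x, |(p + r - sh v r) x| ≤ 1 := by
  have hmem : p ∈ AddSubmonoid.closure {q : (ℤ × ℤ) →₀ ℤ | ∃ u, ∃ e : ℤ, |e| = 1 ∧
      q = Finsupp.single u e} := by
    induction p using Finsupp.induction_linear with
    | zero => exact AddSubmonoid.zero_mem _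
    | add p q hp hq => exact AddSubmonoid.add_mem _ hp hq
    | single u n =>
      rcases le_total 0 n with h | h
      · obtain ⟨k, rfl⟩ := Int.eq_ofNat_of_zero_le h
        have h2 : Finsupp.single u ((k : ℕ) : ℤ) = k • Finsupp.single u (1 : ℤ) := by
          rw [Finsupp.smul_single]; simp
        rw [h2]
        refine AddSubmonoid.nsmul_mem _ (AddSubmonoid.subset_closure ?_) k
        exact ⟨u, 1, by simp, rfl⟩
      · obtain ⟨k, hk⟩ := Int.eq_ofNat_of_zero_le (neg_nonneg.mpr h)
        have h2 : Finsupp.single u n = k • Finsupp.single u (-1 : ℤ) := by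
          have hn : n = -(k : ℤ) := by
            have : -n = (k : ℤ) := hk
            omega
          rw [Finsupp.smul_single, hn]; simp
        rw [h2]
        refine AddSubmonoid.nsmul_mem _ (AddSubmonoid.subset_closure ?_) k
        exact ⟨u, -1, by simp, rfl⟩
  induction hmem using AddSubmonoid.closure_induction_left with
  | zero => exact ⟨0, fun x => by simp [sh_apply]⟩
  | add_left q hq p hp ih =>
    obtain ⟨u, e, he, rfl⟩ := hq
    obtain ⟨r, hr⟩ := ih
    -- find a free spot
    have hfin : ∃ k : ℕ, (p + r - sh v r) (u + k • v) = 0 := by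
      by_contra hcon
      push Not at hcon
      have hinj : Function.Injective (fun k : ℕ => u + k • v) := by
        intro k l hkl
        have h1 : (k : ℕ) • v = l • v := add_left_cancel hkl
        have h2 : (k : ℤ) • v = (l : ℤ) • v := by simpa using h1
        have h3 : ((k : ℤ) - l) • v = 0 := by rw [sub_smul, h2, sub_self]
        rcases smul_eq_zero.mp h3 with h4 | h4
        · omega
        · exact absurd h4 hv
      have hsub : Set.range (fun k : ℕ => u + k • v) ⊆ ((p + r - sh v r).support : Set (ℤ × ℤ)) := by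
        rintro _ ⟨k, rfl⟩
        rw [Finset.mem_coe, Finsupp.mem_support_iff]
        exact hcon k
      exact Set.infinite_range_of_injective hinj ((Finset.finite_toSet _).subset hsub)
    obtain ⟨k, hk⟩ := hfin
    -- telescoping
    have htel : ∀ k : ℕ, ∃ t : (ℤ × ℤ) →₀ ℤ, Finsupp.single u e + t - sh v t =
        Finsupp.single (u + k • v) e := by
      intro k
      induction k with
      | zero => exact ⟨0, by ext x; simp [sh_apply]⟩
      | succ k ih =>
        obtain ⟨t, ht⟩ := ih
        refine ⟨t - Finsupp.single (u + k • v) e, ?_⟩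
        have h1 : sh v (t - Finsupp.single (u + k • v) e) =
            sh v t - Finsupp.single (u + (k + 1) • v) e := by
          ext x
          rw [Finsupp.sub_apply, sh_apply, sh_apply, Finsupp.sub_apply, Finsupp.single_apply,
            Finsupp.single_apply]
          have : (u + k • v = x - v) ↔ (u + (k + 1) • v = x) := by
            rw [eq_sub_iff_add_eq, add_smul, one_smul, add_assoc]
          simp only [this]
        rw [h1]
        have h2 : Finsupp.single u e + (t - Finsupp.single (u + k • v) e) -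
            (sh v t - Finsupp.single (u + (k + 1) • v) e) =
            (Finsupp.single u e + t - sh v t) - Finsupp.single (u + k • v) e +
              Finsupp.single (u + (k + 1) • v) e := by abel
        rw [h2, ht, sub_self, zero_add]
    obtain ⟨t, ht⟩ := htel k
    refine ⟨r + t, fun x => ?_⟩
    have h1 : Finsupp.single u e + p + (r + t) - sh v (r + t) =
        (p + r - sh v r) + Finsupp.single (u + k • v) e := by
      rw [← ht]
      ext x
      simp only [Finsupp.sub_apply, Finsupp.add_apply, sh_apply]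
      ring
    rw [h1, Finsupp.add_apply, Finsupp.single_apply]
    split_ifs with hx
    · rw [← hx, hk, zero_add, he]
    · rw [add_zero]
      exact hr x

/-- The homomorphism `F → ℤ²` counting exponents. -/
def vF : F →* Multiplicative (ℤ × ℤ) := Q.vHom.comp rho

lemma of_eq (g : F) : Abelianization.of g =
    Abelianization.of a ^ (rho g).v.1 * Abelianization.of b ^ (rho g).v.2 := by
  have h : Abelianization.of = MonoidHom.mk'
      (fun g : F => Abelianization.of a ^ (rho g).v.1 * Abelianization.of b ^ (rho g).v.2)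
      (fun g h => by
        simp only [map_mul, Q.mul_v, Prod.fst_add, Prod.snd_add, zpow_add]
        exact mul_mul_mul_comm _ _ _ _) := by
    ext i
    fin_cases i
    · show Abelianization.of a = Abelianization.of a ^ (rho a).v.1 * Abelianization.of b ^ (rho a).v.2
      rw [rho_a]; simp
    · show Abelianization.of b = Abelianization.of a ^ (rho b).v.1 * Abelianization.of b ^ (rho b).v.2
      rw [rho_b]; simp
  exact DFunLike.congr_fun h g

lemma mem_commutator_iff (g : F) : g ∈ commutator F ↔ Abelianization.of g = 1 := by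
  rw [← Abelianization.ker_of, MonoidHom.mem_ker]

/-- The elements of `F` whose image has first component bounded by `3`. -/
def S : Set F := {s | Q.Bdd 3 (rho s)}

lemma closure_S : Subgroup.closure S = ⊤ := by
  rw [eq_top_iff, ← FreeGroup.closure_range_of (Fin 2), Subgroup.closure_le]
  rintro _ ⟨i, rfl⟩
  apply Subgroup.subset_closure
  fin_cases i
  · intro x
    show |(rho a).f x| ≤ 3
    rw [rho_a]; simp
  · intro x
    show |(rho b).f x| ≤ 3
    rw [rho_b]
    simp only [Pi.single_apply]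
    split_ifs <;> simp

lemma exists_conj (g : F) (hg : g ∉ commutator F) : ∃ s ∈ S, IsConj g s := by
  set v := (rho g).v with hv
  have hv0 : v ≠ 0 := by
    intro h0
    apply hg
    rw [mem_commutator_iff, of_eq, ← hv, h0]
    simp
  have h1 : g * (a ^ v.1 * b ^ v.2)⁻¹ ∈ commutator F := by
    rw [mem_commutator_iff, map_mul, map_inv, of_eq g, ← hv, map_mul, map_zpow, map_zpow,
      mul_inv_cancel]
  obtain ⟨p, hp⟩ := commutator_le_K h1
  obtain ⟨r, hr⟩ := spread v hv0 p
  obtain ⟨y, hy⟩ := R_top r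
  have hrg : rho g = ⟨conv p, 0⟩ * ⟨fun x => colF v.2 (x - (v.1, 0)), v⟩ := by
    have h2 : rho g = rho (g * (a ^ v.1 * b ^ v.2)⁻¹) * rho (a ^ v.1 * b ^ v.2) := by
      rw [← map_mul, inv_mul_cancel_right]
    rw [h2, hp, rho_ab]
  refine ⟨y * g * y⁻¹, ?_, isConj_iff.mpr ⟨y, rfl⟩⟩
  intro x
  have h3 : (rho (y * g * y⁻¹)).f x = ((p + r - sh v r) (x - (1, 0)) - (p + r - sh v r) x) +
      colF v.2 (x - (v.1, 0)) := by
    rw [map_mul, map_mul, map_inv, hy, hrg]
    simp only [Q.mul_f, Q.inv_f, Q.mul_v, conv, zero_add, add_zero, sub_zero, Finsupp.sub_apply,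
      Finsupp.add_apply, sh_apply]
    rw [sub_right_comm x v]
    ring
  rw [h3]
  have e1 := hr (x - (1, 0))
  have e2 := hr x
  have e3 := colF_abs v.2 (x - (v.1, 0))
  rw [abs_le] at e1 e2 e3 ⊢
  constructor <;> linarith

/-- Powers of the commutator of the generators. -/
lemma rho_comm_pow (N : ℕ) : rho ((a * b * a⁻¹ * b⁻¹) ^ N) = ⟨conv (Finsupp.single 0 (N : ℤ)), 0⟩ := by
  induction N with
  | zero =>
    rw [pow_zero, map_one]
    apply Q.ext
    · funext x
      simp [conv, Q.one_f]
    · rfl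
  | succ N ih =>
    rw [pow_succ, map_mul, ih, rho_comm]
    apply Q.ext
    · funext x
      simp only [Q.mul_f, conv, Finsupp.single_apply, sub_zero]
      split_ifs <;> push_cast <;> ring
    · simp [Q.mul_v]

lemma rho_eq_of_mk_eq (x y : F) (h : (x : F ⧸ derivedSeries F 2) = y) : rho x = rho y := by
  have h1 : x⁻¹ * y ∈ derivedSeries F 2 := QuotientGroup.eq.mp h
  have h2 : rho (x⁻¹ * y) ∈ derivedSeries Q 2 :=
    map_derivedSeries_le_derivedSeries rho 2 (Subgroup.mem_map_of_mem rho h1)
  rw [Q.derived_two, Subgroup.mem_bot, map_mul, map_inv, inv_mul_eq_one] at h2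
  exact h2

lemma wordLength_ge (N : ℕ) : ((N / 3 : ℕ) : ℕ∞) ≤
    wordLength (((↑) : F → F ⧸ derivedSeries F 2) '' S)
      (((a * b * a⁻¹ * b⁻¹) ^ N : F) : F ⧸ derivedSeries F 2) := by
  refine le_sInf ?_
  rintro _ ⟨l, hl, hprod, rfl⟩
  have hlift : ∀ l : List (F ⧸ derivedSeries F 2),
      (∀ x ∈ l, x ∈ ((↑) : F → F ⧸ derivedSeries F 2) '' S ∨
        x⁻¹ ∈ ((↑) : F → F ⧸ derivedSeries F 2) '' S) →
      ∃ m : List F, m.length = l.length ∧ (∀ x ∈ m, Q.Bdd 3 (rho x)) ∧
        ((m.prod : F) : F ⧸ derivedSeries F 2) = l.prod := by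
    intro l
    induction l with
    | nil => exact fun _ => ⟨[], rfl, by simp, rfl⟩
    | cons x l ih =>
      intro h
      obtain ⟨m, hm1, hm2, hm3⟩ := ih (fun y hy => h y (List.mem_cons_of_mem _ hy))
      rcases h x List.mem_cons_self with ⟨s, hs, hsx⟩ | ⟨s, hs, hsx⟩
      · refine ⟨s :: m, by rw [List.length_cons, List.length_cons, hm1], ?_, ?_⟩
        · intro y hy
          rcases List.mem_cons.mp hy with rfl | hy
          · exact hs
          · exact hm2 y hy
        · rw [List.prod_cons, List.prod_cons, QuotientGroup.mk_mul, hm3, hsx]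
      · refine ⟨s⁻¹ :: m, by rw [List.length_cons, List.length_cons, hm1], ?_, ?_⟩
        · intro y hy
          rcases List.mem_cons.mp hy with rfl | hy
          · rw [map_inv]
            exact Q.bdd_inv hs
          · exact hm2 y hy
        · rw [List.prod_cons, List.prod_cons, QuotientGroup.mk_mul, hm3, QuotientGroup.mk_inv, hsx,
            inv_inv]
  obtain ⟨m, hm1, hm2, hm3⟩ := hlift l hl
  have h1 : rho m.prod = rho ((a * b * a⁻¹ * b⁻¹) ^ N) := rho_eq_of_mk_eq _ _ (hm3.trans hprod)
  have h2 : Q.Bdd (3 * (m.map rho).length) (rho m.prod) := by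
    rw [map_list_prod]
    refine Q.bdd_list _ ?_
    intro x hx
    obtain ⟨y, hy, rfl⟩ := List.mem_map.mp hx
    exact hm2 y hy
  rw [h1, rho_comm_pow] at h2
  have h3 := h2 (1, 0)
  simp only [conv, List.length_map, hm1] at h3
  have h4 : (Finsupp.single (0 : ℤ × ℤ) (N : ℤ)) ((1, 0) - (1, 0)) = N := by simp
  have h5 : (Finsupp.single (0 : ℤ × ℤ) (N : ℤ)) (1, 0) = 0 := by
    rw [Finsupp.single_apply, if_neg]
    simp [Prod.ext_iff]
  rw [h4, h5, sub_zero, abs_of_nonneg (by positivity)] at h3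
  have h6 : N ≤ 3 * l.length := by exact_mod_cast h3
  exact_mod_cast (by omega : N / 3 ≤ l.length)

theorem result : ∃ S : Set (FreeGroup (Fin 2)), Subgroup.closure S = ⊤ ∧
    (∀ g : FreeGroup (Fin 2), g ∉ commutator (FreeGroup (Fin 2)) → ∃ s ∈ S, IsConj g s) ∧
    diameter (((↑) : FreeGroup (Fin 2) →
      FreeGroup (Fin 2) ⧸ derivedSeries (FreeGroup (Fin 2)) 2) '' S) = ⊤ := by
  refine ⟨S, closure_S, exists_conj, ?_⟩
  rw [ENat.eq_top_iff_forall_ge]
  intro m
  have h1 := wordLength_ge (3 * m)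
  have h2 : 3 * m / 3 = m := by omega
  rw [h2] at h1
  exact h1.trans (le_iSup _ _)

end Pool.Agent.Lib.MP_4b02fd_al.MetabelianOld
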