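import Pool.Agent.Lib.MP_4b02fd_al.Crossing

/-!
# MP_4b02fd_al, topological form: a path from left to right separates top and bottom
-/

set_option autoImplicit false

open Topology unitInterval Set

noncomputable section

namespace Pool.Agent.Lib.MP_4b02fd_al

theorem not_joined {h : C(I, ℂ)} (hh : ∀ t, h t ∈ Rect)
    (h0 : (h 0).re = -1) (h1 : (h 1).re = 1) {x y : ℂ} (hx : x.im = 2) (hy : y.im = -2) :
    ¬ JoinedIn (Rect \ range h) x y := by
  intro hj
  obtain ⟨γ, hγ⟩ := hj
  obtain ⟨s, t, hst⟩ := crossing (h := h) (v := γ.toContinuousMap) hh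
    (fun t => (hγ t).1) h0 h1 (by simpa using hx) (by simpa using hy)
  exact (hγ t).2 ⟨s, hst⟩

end Pool.Agent.Lib.MP_4b02fd_al
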