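import Pool.Agent.Lib.MP_4b02fd_al.Arg

/-!
# MP_4b02fd_al, topological form: turning numbers, concatenation and homotopy
-/

set_option autoImplicit false

open Topology unitInterval Set

noncomputable section

namespace Pool.Agent.Lib.MP_4b02fd_al

/-- Concatenation. -/
theorem turns_trans {a b d : ℂ} (α : Path a b) (β : Path b d) {u : ℂ} (hb : b ≠ u) {r s : ℝ}
    (hα : Turns α u r) (hβ : Turns β u s) : Turns (α.trans β) u (r + s) := by
  obtain ⟨φ, hφc, hφ, hφr⟩ := hα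
  obtain ⟨ψ, hψc, hψ, hψs⟩ := hβ
  have hne : ((‖b - u‖ : ℝ) : ℂ) ≠ 0 := by
    rw [Complex.ofReal_ne_zero]
    exact norm_ne_zero_iff.2 (sub_ne_zero.2 hb)
  have hexp : Complex.exp (φ 1 * Complex.I) = Complex.exp (ψ 0 * Complex.I) := by
    have h1 := hφ 1
    have h2 := hψ 0
    rw [α.target] at h1
    rw [β.source] at h2
    exact mul_left_cancel₀ hne (h1.symm.trans h2)
  let Φ : Path (φ 0) (φ 1) := ⟨⟨φ, hφc⟩, rfl, rfl⟩
  let Ψ : Path (φ 1) (ψ 1 - ψ 0 + φ 1) :=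
    ⟨⟨fun t => ψ t - ψ 0 + φ 1, (hψc.sub continuous_const).add continuous_const⟩,
      by simp, rfl⟩
  refine ⟨Φ.trans Ψ, (Φ.trans Ψ).continuous, ?_, ?_⟩
  · intro t
    rw [Path.trans_apply, Path.trans_apply]
    split_ifs with h
    · exact hφ _
    · rw [hψ ⟨2 * (t : ℝ) - 1, _⟩]
      congr 1
      · rw [← hψ ⟨2 * (t : ℝ) - 1, _⟩]
      · change _ = Complex.exp (((ψ ⟨2 * (t : ℝ) - 1, _⟩ - ψ 0 + φ 1 : ℝ) : ℂ) * Complex.I)
        rw [Complex.ofReal_add, Complex.ofReal_sub, add_mul, sub_mul, Complex.exp_add,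
          Complex.exp_sub, hexp, div_mul_cancel₀ _ (Complex.exp_ne_zero _)]
  · rw [(Φ.trans Ψ).target, (Φ.trans Ψ).source]
    linarith

/-- Homotopy invariance. -/
theorem turns_homotopy {C : C(I × I, ℂ)} {u : ℂ} (hC : ∀ p, C p ≠ u)
    (h0 : ∀ s, C (s, 0) = C (0, 0)) (h1 : ∀ s, C (s, 1) = C (0, 1)) {r r' : ℝ}
    (h : Turns (fun t => C (0, t)) u r) (h' : Turns (fun t => C (1, t)) u r') : r = r' := by
  let G : C(I × I, ℂ) := ⟨fun p => C p - u, C.continuous.sub continuous_const⟩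
  have hF : ∀ p, G p ≠ 0 := fun p => sub_ne_zero.2 (hC p)
  obtain ⟨Φ, hΦ'⟩ := exists_arg G hF
  have hΦ : ∀ p, C p - u = ‖C p - u‖ * Complex.exp (Φ p * Complex.I) := hΦ'
  have hpi : 2 * Real.pi ≠ 0 := by positivity
  have key : ∀ s : I, Turns (fun t => C (s, t)) u ((Φ (s, 1) - Φ (s, 0)) / (2 * Real.pi)) := by
    intro s
    refine ⟨fun t => Φ (s, t), by fun_prop, fun t => hΦ (s, t), ?_⟩
    rw [mul_div_cancel₀ _ hpi]
  have e1 := turns_unique (fun t => hC (0, t)) h (key 0)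
  have e2 := turns_unique (fun t => hC (1, t)) h' (key 1)
  have e3 := arg_unique (F := fun s : I => C (s, 0) - u) (φ := fun s : I => Φ (s, 0))
    (ψ := fun _ => Φ (0, 0)) (by fun_prop) continuous_const
    (fun s => sub_ne_zero.2 (hC _)) (fun s => hΦ (s, 0))
    (fun s => by
      change C (s, 0) - u = _
      rw [h0 s]
      exact hΦ (0, 0)) 1 0
  have e4 := arg_unique (F := fun s : I => C (s, 1) - u) (φ := fun s : I => Φ (s, 1))
    (ψ := fun _ => Φ (0, 1)) (by fun_prop) continuous_const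
    (fun s => sub_ne_zero.2 (hC _)) (fun s => hΦ (s, 1))
    (fun s => by
      change C (s, 1) - u = _
      rw [h1 s]
      exact hΦ (0, 1)) 1 0
  simp only [sub_self] at e3 e4
  rw [e1, e2, sub_eq_zero.1 e3, sub_eq_zero.1 e4]

end Pool.Agent.Lib.MP_4b02fd_al
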