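import Pool.Agent.Lib.MP_4b02fd_al.TurnTools
import Pool.Agent.Lib.MP_4b02fd_al.TurnTrans
import Pool.Agent.Lib.MP_4b02fd_al.LiftMap

/-!
# MP_4b02fd_al, topological form: the value of a concatenation
-/

set_option autoImplicit false

open Topology unitInterval Set

noncomputable section

namespace Pool.Agent.Lib.MP_4b02fd_al

theorem val_trans {γ γ' : Path x0 x0} {p p' : Q} (hp : IsVal γ p) (hp' : IsVal γ' p') :
    IsVal (γ.trans γ') (p' * p) := by
  obtain ⟨c, ⟨hc, hc0, hcq⟩, hc1, hct⟩ := hp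
  obtain ⟨c', ⟨hc', hc'0, hc'q⟩, hc'1, hc't⟩ := hp'
  let α : Path z0 (z0 + gi p.v) := ⟨⟨c, hc⟩, hc0, hc1⟩
  let β : Path (z0 + gi p.v) (z0 + gi (p' * p).v) :=
    ⟨⟨fun t => c' t + gi p.v, hc'.add continuous_const⟩, by
      change c' 0 + gi p.v = _
      rw [hc'0], by
      change c' 1 + gi p.v = _
      rw [hc'1, Q.mul_v, gi_add, add_assoc]⟩
  have hqa : ∀ z : ℂ, q (z + gi p.v) = q z := fun z => (q_eq_iff _ _).2 ⟨p.v, rfl⟩
  refine ⟨α.trans β, ⟨(α.trans β).continuous, (α.trans β).source, ?_⟩, (α.trans β).target, ?_⟩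
  · intro t
    rw [Path.trans_apply, Path.trans_apply]
    split_ifs with h
    · exact hcq _
    · change q (c' ⟨2 * (t : ℝ) - 1, _⟩ + gi p.v) = _
      rw [hqa]
      exact hc'q _
  · intro m
    have hb : z0 + gi p.v ≠ gi m := by
      intro h
      apply x0.2
      change q z0 = 0
      rw [← hqa z0, h]
      exact (q_eq_zero_iff _).2 ⟨m, rfl⟩
    have h1 : gi (m - p.v) + gi p.v = gi m := by
      rw [← gi_add, sub_add_cancel]
    have h2 := turns_translate (w := gi p.v) (hc't (m - p.v))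
    rw [h1] at h2
    exact turns_trans α β hb (hct m) h2

end Pool.Agent.Lib.MP_4b02fd_al
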