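import Pool.Agent.Lib.MP_4b02fd_al.Val
import Pool.Agent.Lib.MP_4b02fd_al.ValTrans

/-!
# MP_4b02fd_al, topological form: the homomorphism to `Q`
-/

set_option autoImplicit false

open Topology unitInterval Set

noncomputable section

namespace Pool.Agent.Lib.MP_4b02fd_al

theorem exists_rho : ∃ ρ : FundamentalGroup PT x0 →* Q, ∀ γ : Path x0 x0,
    IsVal γ (ρ (Path.Homotopic.Quotient.mk γ : Path.Homotopic.Quotient x0 x0)) := by
  have hex : ∀ g : Path.Homotopic.Quotient x0 x0, ∃ p : Q, ∀ γ : Path x0 x0,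
      Path.Homotopic.Quotient.mk γ = g → IsVal γ p := by
    intro g
    obtain ⟨γ₀, rfl⟩ := Path.Homotopic.Quotient.mk_surjective g
    obtain ⟨p, hp⟩ := exists_val γ₀
    refine ⟨p, fun γ hγ => ?_⟩
    obtain ⟨p', hp'⟩ := exists_val γ
    have := val_homotopic (Path.Homotopic.Quotient.exact hγ) hp' hp
    rw [← this]
    exact hp'
  choose r hr using hex
  refine ⟨MonoidHom.mk' (fun g : FundamentalGroup PT x0 => r g) ?_, fun γ => hr _ γ rfl⟩
  intro a b
  obtain ⟨γ, hγ⟩ := Path.Homotopic.Quotient.mk_surjective (show Path.Homotopic.Quotient x0 x0 from a)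
  obtain ⟨γ', hγ'⟩ := Path.Homotopic.Quotient.mk_surjective
    (show Path.Homotopic.Quotient x0 x0 from b)
  have h1 : IsVal (γ'.trans γ) (r a * r b) := val_trans (hr b γ' hγ') (hr a γ hγ)
  have h2 : IsVal (γ'.trans γ) (r (a * b)) := by
    apply hr
    change Path.Homotopic.Quotient.mk (γ'.trans γ) = Path.Homotopic.Quotient.trans b a
    rw [← hγ, ← hγ']
    rfl
  exact val_homotopic (Path.Homotopic.refl _) h2 h1

end Pool.Agent.Lib.MP_4b02fd_al
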