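import Pool.Agent.Lib.MP_4b02fd_al.Arg

/-!
# MP_4b02fd_al, topological form: turning numbers of paths in half planes and of segments
-/

set_option autoImplicit false

open Topology unitInterval Set

noncomputable section

namespace Pool.Agent.Lib.MP_4b02fd_al

theorem turns_translate {c : I → ℂ} {u w : ℂ} {r : ℝ} (h : Turns c u r) :
    Turns (fun t => c t + w) (u + w) r := by
  obtain ⟨φ, h1, h2, h3⟩ := h
  refine ⟨φ, h1, fun t => ?_, h3⟩
  have e : c t + w - (u + w) = c t - u := by ring
  show c t + w - (u + w) = ‖c t + w - (u + w)‖ * Complex.exp (φ t * Complex.I)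
  rw [e]
  exact h2 t

/-- A product in polar form. -/
private theorem polar_mul_TurnTools (x y : ℂ) :
    x * y = ‖x * y‖ * Complex.exp (((x.arg + y.arg : ℝ) : ℂ) * Complex.I) := by
  rw [norm_mul, Complex.ofReal_add, add_mul, Complex.exp_add, Complex.ofReal_mul]
  conv_lhs => rw [← Complex.norm_mul_exp_arg_mul_I x, ← Complex.norm_mul_exp_arg_mul_I y]
  ring

/-- Turning of `y` times a continuous curve in the slit plane. -/
private theorem turns_slit_TurnTools {c g : I → ℂ} (hg : Continuous g) {u y : ℂ}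
    (hs : ∀ t, g t ∈ Complex.slitPlane) (hc : ∀ t, c t - u = g t * y) :
    Turns c u (((g 1).arg - (g 0).arg) / (2 * Real.pi)) := by
  refine ⟨fun t => (g t).arg + y.arg, ?_, fun t => ?_, ?_⟩
  · refine Continuous.add ?_ continuous_const
    rw [continuous_iff_continuousAt]
    intro t
    exact (Complex.continuousAt_arg (hs t)).comp hg.continuousAt
  · rw [hc t]
    exact polar_mul_TurnTools (g t) y
  · have : (2 * Real.pi) ≠ 0 := by positivity
    field_simp
    ring

/-- A path in a half plane. -/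
theorem turns_halfplane {c : I → ℂ} (hc : Continuous c) {u w : ℂ}
    (h : ∀ t, 0 < ((c t - u) / w).re) :
    Turns c u (((((c 1 - u) / w).arg - ((c 0 - u) / w).arg)) / (2 * Real.pi)) := by
  have hw : w ≠ 0 := by
    intro h0
    have := h 0
    rw [h0, div_zero, Complex.zero_re] at this
    exact lt_irrefl _ this
  exact turns_slit_TurnTools (g := fun t => (c t - u) / w) (y := w)
    ((hc.sub continuous_const).div_const w) (fun t => Or.inl (h t))
    (fun t => (div_mul_cancel₀ (c t - u) hw).symm)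

/-- A straight segment. -/
theorem turns_segment {a b u : ℂ} (ha : a ≠ u) (h : (b - u) / (a - u) ∈ Complex.slitPlane) :
    Turns (fun t : I => a + (t : ℝ) * (b - a)) u (((b - u) / (a - u)).arg / (2 * Real.pi)) := by
  have hau : a - u ≠ 0 := sub_ne_zero.2 ha
  have key := turns_slit_TurnTools (c := fun t : I => a + (t : ℝ) * (b - a))
    (g := fun t : I => 1 + (t : ℝ) * ((b - u) / (a - u) - 1)) (u := u) (y := a - u)
    (by fun_prop) ?_ ?_
  · have e1 : (1 : ℂ) + (((1 : I) : ℝ) : ℂ) * ((b - u) / (a - u) - 1) = (b - u) / (a - u) := by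
      simp
    have e0 : (1 : ℂ) + (((0 : I) : ℝ) : ℂ) * ((b - u) / (a - u) - 1) = 1 := by
      simp
    have key2 : Turns (fun t : I => a + (t : ℝ) * (b - a)) u
        ((((1 : ℂ) + (((1 : I) : ℝ) : ℂ) * ((b - u) / (a - u) - 1)).arg -
          ((1 : ℂ) + (((0 : I) : ℝ) : ℂ) * ((b - u) / (a - u) - 1)).arg) / (2 * Real.pi)) := key
    rw [e1, e0, Complex.arg_one, sub_zero] at key2
    exact key2
  · intro t
    have h1 := Complex.starConvex_one_slitPlane h (sub_nonneg.2 t.2.2) t.2.1 (sub_add_cancel 1 (t : ℝ))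
    have e : (1 : ℂ) + ((t : ℝ) : ℂ) * ((b - u) / (a - u) - 1) =
        (1 - (t : ℝ)) • (1 : ℂ) + (t : ℝ) • ((b - u) / (a - u)) := by
      rw [Complex.real_smul, Complex.real_smul]
      push_cast
      ring
    show (1 : ℂ) + ((t : ℝ) : ℂ) * ((b - u) / (a - u) - 1) ∈ Complex.slitPlane
    rw [e]
    exact h1
  · intro t
    show a + ((t : ℝ) : ℂ) * (b - a) - u = (1 + ((t : ℝ) : ℂ) * ((b - u) / (a - u) - 1)) * (a - u)
    have e : (b - u) / (a - u) * (a - u) = b - u := div_mul_cancel₀ _ hau
    linear_combination (-((t : ℝ) : ℂ)) * e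

end Pool.Agent.Lib.MP_4b02fd_al
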